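import Pool.Agent.H81.HS.Level

set_option autoImplicit false

/-! Assembling the level estimates: halving of the `L^p` norm. -/

namespace Pool.Agent.H81.HS

open Finset

/-- Hölder with exponents `p/2` and `p/(p-2)` -/
lemma holder_sq {ι : Type*} (s : Finset ι) {p r : ℝ} (hp : 2 < p) (hr : r = p / (p - 2))
    (f g : ι → ℝ) (hg : ∀ i ∈ s, 0 ≤ g i) :
    ∑ i ∈ s, (f i) ^ 2 * g i ≤ (∑ i ∈ s, |f i| ^ p) ^ (2 / p) * (∑ i ∈ s, (g i) ^ r) ^ (1 / r) := by
  have hp0 : 0 < p := by linarith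
  have hp2 : 0 < p - 2 := by linarith
  have hconj : Real.HolderConjugate (p / 2) r := by
    rw [Real.holderConjugate_iff]
    constructor
    · linarith
    · rw [hr]; field_simp; ring
  have hH := Real.inner_le_Lp_mul_Lq_of_nonneg s hconj (f := fun i => (f i) ^ 2) (g := g)
    (fun i _ => sq_nonneg _) hg
  have e1 : ∀ i ∈ s, ((f i) ^ 2) ^ (p / 2) = |f i| ^ p := by
    intro i _
    rw [← sq_abs, ← Real.rpow_natCast, ← Real.rpow_mul (abs_nonneg _)]
    congr 1
    push_cast; field_simp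
  rw [Finset.sum_congr rfl e1] at hH
  rw [show 1 / (p / 2) = 2 / p by field_simp] at hH
  exact hH

variable {n d : ℕ}

/-- contraction in `L^p` -/
lemma sum_T_rpow_le {t p : ℝ} (ht : 0 < t) (hp : 1 ≤ p) (f : (Fin n → Bool) → ℝ) :
    ∑ x, |T (Real.exp (-t)) f x| ^ p ≤ ∑ x, |f x| ^ p := by
  calc ∑ x, |T (Real.exp (-t)) f x| ^ p
      ≤ ∑ x, T (Real.exp (-t)) (fun y => |f y| ^ p) x :=
        Finset.sum_le_sum fun x _ => T_rpow_le (Real.exp_pos _).le (exp_neg_le_one ht) hp f x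
    _ = _ := sum_T _ _

theorem half (P : Par d) {p r θ C : ℝ} (hp : 2 < p) (hr : r = p / (p - 2))
    (hθ : θ = P.ρ / r) (hρr : P.ρ < r) (hC : C = 2 + 1 / (1 - (1 / 2 : ℝ) ^ (1 / θ - 1)))
    (hsmall : 4 / 3 * (Real.exp (-(3 / 25 * d * P.t)) *
        (C * (2 * (Real.exp ((2 + P.c2) * P.lam * P.t) + P.K + 1)) ^ (1 / r)) +
        C * (2 * P.ε ^ (P.ρ - 1)) ^ (1 / r)) ≤ 1 / 4)
    {f : (Fin n → Bool) → ℝ} (hf : ∀ S : Finset (Fin n), S.card < d → co f S = 0) :
    ∑ x, |T (Real.exp (-(2 * P.t))) f x| ^ p ≤ (1 / 2) ^ p * ∑ x, |f x| ^ p := by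
  have hp0 : 0 < p := by linarith
  have hp2 : 0 < p - 2 := by linarith
  have hr0 : 0 < r := by rw [hr]; positivity
  have hr1 : 1 ≤ r := by
    rw [hr, le_div_iff₀ hp2]; linarith
  have hρ0 : 0 < P.ρ := lt_trans one_pos P.hρ1
  have hθ0 : 0 < θ := by rw [hθ]; positivity
  have hθ1 : θ < 1 := by rw [hθ, div_lt_one hr0]; exact hρr
  have hθr : θ * r = P.ρ := by rw [hθ]; field_simp
  have hε0 : 0 < P.ε := lt_of_lt_of_le (Real.exp_pos _) P.hε2
  have hC0 : 0 < C := by
    have hs0 : 0 < 1 / θ - 1 := by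
      have : 1 < 1 / θ := by rw [lt_div_iff₀ hθ0]; linarith
      linarith
    have : (1 / 2 : ℝ) ^ (1 / θ - 1) < 1 := Real.rpow_lt_one (by norm_num) (by norm_num) hs0
    have : 0 < 1 - (1 / 2 : ℝ) ^ (1 / θ - 1) := by linarith
    rw [hC]; positivity
  set E1 := Real.exp ((2 + P.c2) * P.lam * P.t) + P.K + 1 with hE1
  have hE10 : 0 < E1 := by
    have := Real.exp_pos ((2 + P.c2) * P.lam * P.t)
    positivity
  set u := T (Real.exp (-(2 * P.t))) f with hu
  set v := T (Real.exp (-P.t)) f with hv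
  set U := ∑ x, |u x| ^ p with hU
  set V := ∑ x, |v x| ^ p with hV
  set F := ∑ x, |f x| ^ p with hF
  have hU0 : 0 ≤ U := Finset.sum_nonneg fun x _ => by positivity
  have hF0 : 0 ≤ F := Finset.sum_nonneg fun x _ => by positivity
  have hV0 : 0 ≤ V := Finset.sum_nonneg fun x _ => by positivity
  have hVF : V ≤ F := sum_T_rpow_le P.ht (by linarith) f
  rcases hU0.eq_or_lt with hUz | hUpos
  · rw [← hUz]; positivity
  -- levels
  have h2n : (0:ℝ) < 2 ^ n := by positivity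
  set c0 : ℝ := 1 / 4 * (U / 2 ^ n) ^ (1 / r) with hc0
  have hc0pos : 0 < c0 := by positivity
  set W : (Fin n → Bool) → ℝ := fun x => |u x| ^ (p - 2) with hW
  have hW0 : ∀ x, 0 ≤ W x := fun x => by positivity
  obtain ⟨J, hJ⟩ : ∃ J : ℕ, ∀ x, W x ≤ c0 * 2 ^ J := by
    obtain ⟨J, hJ⟩ := pow_unbounded_of_one_lt ((∑ x, W x) / c0) (one_lt_two (α := ℝ))
    refine ⟨J, fun x => ?_⟩
    rw [div_lt_iff₀ hc0pos] at hJ
    have := Finset.single_le_sum (f := W) (fun y _ => hW0 y) (Finset.mem_univ x)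
    nlinarith
  set A : ℕ → Finset (Fin n → Bool) := fun j => univ.filter (fun x => c0 * 2 ^ j < W x) with hA
  set G1 : (Fin n → Bool) → ℝ := fun x => ∑ j ∈ range J, c0 * 2 ^ j * g1 P (A j) x with hG1
  set G2 : (Fin n → Bool) → ℝ := fun x => ∑ j ∈ range J, c0 * 2 ^ j * g2 P (A j) x with hG2
  have hG10 : ∀ x, 0 ≤ G1 x := fun x => Finset.sum_nonneg fun j _ => by
    have := g1_nonneg P (A j) x; positivity
  have hG20 : ∀ x, 0 ≤ G2 x := fun x => Finset.sum_nonneg fun j _ => by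
    have := g2_nonneg P (A j) x; positivity
  -- main decomposition
  have hUW : U = ∑ x, (u x) ^ 2 * W x := by
    rw [hU]
    refine Finset.sum_congr rfl fun x _ => ?_
    simp only [hW]
    rcases (abs_nonneg (u x)).eq_or_lt with h | h
    · rw [← sq_abs, ← h, Real.zero_rpow hp0.ne']; ring
    · rw [← sq_abs, ← Real.rpow_natCast |u x| 2, ← Real.rpow_add h]
      congr 1; push_cast; ring
  have hdec : U ≤ c0 * ∑ x, (u x) ^ 2 + ∑ j ∈ range J, c0 * 2 ^ j * ∑ x ∈ A j, (u x) ^ 2 := by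
    rw [hUW]
    calc ∑ x, (u x) ^ 2 * W x ≤ ∑ x, (u x) ^ 2 *
          (c0 + ∑ j ∈ range J, c0 * 2 ^ j * (if c0 * 2 ^ j < W x then (1:ℝ) else 0)) :=
          Finset.sum_le_sum fun x _ => mul_le_mul_of_nonneg_left
            (layer J (hJ x)) (sq_nonneg _)
      _ = _ := by
          simp_rw [mul_add]
          rw [Finset.sum_add_distrib]
          congr 1
          · rw [Finset.mul_sum]
            refine Finset.sum_congr rfl fun x _ => ?_
            ring
          · simp_rw [Finset.mul_sum]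
            rw [Finset.sum_comm]
            refine Finset.sum_congr rfl fun j _ => ?_
            simp only [hA, Finset.sum_filter]
            refine Finset.sum_congr rfl fun x _ => ?_
            split_ifs <;> ring
  have hlev : ∑ j ∈ range J, c0 * 2 ^ j * ∑ x ∈ A j, (u x) ^ 2 ≤
      Real.exp (-(3 / 25 * d * P.t)) * ∑ x, (f x) ^ 2 * G1 x + ∑ x, (v x) ^ 2 * G2 x := by
    calc ∑ j ∈ range J, c0 * 2 ^ j * ∑ x ∈ A j, (u x) ^ 2
        ≤ ∑ j ∈ range J, c0 * 2 ^ j * (Real.exp (-(3 / 25 * d * P.t)) *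
          ∑ x, (f x) ^ 2 * g1 P (A j) x + ∑ x, (v x) ^ 2 * g2 P (A j) x) :=
          Finset.sum_le_sum fun j _ => mul_le_mul_of_nonneg_left (level P (A j) hf)
            (by positivity)
      _ = _ := by
          simp_rw [mul_add]
          rw [Finset.sum_add_distrib]
          congr 1
          · simp only [hG1]
            simp_rw [Finset.mul_sum]
            rw [Finset.sum_comm]
            refine Finset.sum_congr rfl fun x _ => Finset.sum_congr rfl fun j _ => ?_
            ring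
          · simp only [hG2]
            simp_rw [Finset.mul_sum]
            rw [Finset.sum_comm]
            refine Finset.sum_congr rfl fun x _ => Finset.sum_congr rfl fun j _ => ?_
            ring
  have hWr : ∀ x, (W x) ^ r = |u x| ^ p := by
    intro x
    simp only [hW]
    rw [← Real.rpow_mul (abs_nonneg _), hr]
    congr 1
    field_simp
  have hcard : ∑ j ∈ range J, (c0 * 2 ^ j) ^ r * ((A j).card : ℝ) ≤ 2 * U := by
    calc ∑ j ∈ range J, (c0 * 2 ^ j) ^ r * ((A j).card : ℝ)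
        = ∑ x, ∑ j ∈ range J, (c0 * 2 ^ j) ^ r * (if c0 * 2 ^ j < W x then (1:ℝ) else 0) := by
          rw [Finset.sum_comm]
          refine Finset.sum_congr rfl fun j _ => ?_
          rw [← Finset.mul_sum]
          congr 1
          simp [hA]
      _ ≤ ∑ x, 2 * (W x) ^ r :=
          Finset.sum_le_sum fun x _ => layer_rpow hc0pos (hW0 x) hr1 J
      _ = 2 * U := by
          rw [← Finset.mul_sum]
          congr 1
          exact Finset.sum_congr rfl fun x _ => hWr x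
  have hGr : ∀ (g : (Finset (Fin n → Bool)) → (Fin n → Bool) → ℝ) (e : ℝ), 0 ≤ e →
      (∀ B x, 0 ≤ g B x) → (∀ B x, g B x ≤ 1) →
      (∀ B : Finset (Fin n → Bool), ∑ x, (g B x) ^ P.ρ ≤ e * B.card) →
      (∑ x, (∑ j ∈ range J, c0 * 2 ^ j * g (A j) x) ^ r) ^ (1 / r) ≤
        (C * (2 * e) ^ (1 / r)) * U ^ (1 / r) := by
    intro g e he hg0 hg1 hgs
    have h1 : ∑ x, (∑ j ∈ range J, c0 * 2 ^ j * g (A j) x) ^ r ≤ C ^ r * ((2 * e) * U) := by
      calc ∑ x, (∑ j ∈ range J, c0 * 2 ^ j * g (A j) x) ^ r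
          ≤ ∑ x, C ^ r * ∑ j ∈ range J, (c0 * 2 ^ j) ^ r * (g (A j) x) ^ P.ρ := by
            refine Finset.sum_le_sum fun x _ => ?_
            have := level_sum hc0pos hθ0 hθ1 hr1 J (fun j => g (A j) x)
              (fun j => hg0 _ x) (fun j => hg1 _ x)
            rw [← hC, hθr] at this
            exact this
        _ = C ^ r * ∑ j ∈ range J, (c0 * 2 ^ j) ^ r * ∑ x, (g (A j) x) ^ P.ρ := by
            rw [← Finset.mul_sum, Finset.sum_comm]
            congr 1
            refine Finset.sum_congr rfl fun j _ => ?_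
            rw [Finset.mul_sum]
        _ ≤ C ^ r * ∑ j ∈ range J, (c0 * 2 ^ j) ^ r * (e * ((A j).card : ℝ)) := by
            refine mul_le_mul_of_nonneg_left (Finset.sum_le_sum fun j _ =>
              mul_le_mul_of_nonneg_left (hgs (A j)) (by positivity)) (by positivity)
        _ = C ^ r * (e * ∑ j ∈ range J, (c0 * 2 ^ j) ^ r * ((A j).card : ℝ)) := by
            congr 1
            rw [Finset.mul_sum]
            refine Finset.sum_congr rfl fun j _ => ?_
            ring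
        _ ≤ C ^ r * (e * (2 * U)) := by
            refine mul_le_mul_of_nonneg_left (mul_le_mul_of_nonneg_left hcard he) (by positivity)
        _ = _ := by ring
    have h0 : 0 ≤ ∑ x, (∑ j ∈ range J, c0 * 2 ^ j * g (A j) x) ^ r := by
      refine Finset.sum_nonneg fun x _ => Real.rpow_nonneg (Finset.sum_nonneg fun j _ => ?_) _
      have := hg0 (A j) x; positivity
    calc (∑ x, (∑ j ∈ range J, c0 * 2 ^ j * g (A j) x) ^ r) ^ (1 / r)
        ≤ (C ^ r * ((2 * e) * U)) ^ (1 / r) := Real.rpow_le_rpow h0 h1 (by positivity)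
      _ = _ := by
          rw [Real.mul_rpow (by positivity) (by positivity), Real.mul_rpow (by positivity) hU0,
            ← Real.rpow_mul hC0.le, mul_one_div_cancel hr0.ne', Real.rpow_one]
          ring
  have hG1r := hGr (g1 P) E1 hE10.le (g1_nonneg P) (g1_le_one P) (g1_sum P)
  have hG2r := hGr (g2 P) (P.ε ^ (P.ρ - 1)) (by positivity) (g2_nonneg P) (g2_le_one P) (g2_sum P)
  have hH1 := holder_sq univ hp hr f G1 (fun x _ => hG10 x)
  have hH2 := holder_sq univ hp hr v G2 (fun x _ => hG20 x)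
  have hH0 := holder_sq univ hp hr u (fun _ => (1:ℝ)) (fun x _ => zero_le_one)
  have hexp1 : 2 / p + 1 / r = 1 := by rw [hr]; field_simp; ring
  -- floor term
  have hfloor : c0 * ∑ x, (u x) ^ 2 ≤ 1 / 4 * U := by
    have h1 : ∑ x, (u x) ^ 2 ≤ U ^ (2 / p) * ((2:ℝ) ^ n) ^ (1 / r) := by
      simpa using hH0
    calc c0 * ∑ x, (u x) ^ 2 ≤ c0 * (U ^ (2 / p) * ((2:ℝ) ^ n) ^ (1 / r)) :=
          mul_le_mul_of_nonneg_left h1 hc0pos.le
      _ = 1 / 4 * (U ^ (2 / p) * U ^ (1 / r)) := by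
          rw [hc0, Real.div_rpow hU0 h2n.le]
          have : ((2:ℝ) ^ n) ^ (1 / r) ≠ 0 := by positivity
          field_simp
      _ = 1 / 4 * U := by
          rw [← Real.rpow_add hUpos, hexp1, Real.rpow_one]
  have hF2 : V ^ (2 / p) ≤ F ^ (2 / p) := Real.rpow_le_rpow hV0 hVF (by positivity)
  set q1 := C * (2 * E1) ^ (1 / r) with hq1
  set q2 := C * (2 * P.ε ^ (P.ρ - 1)) ^ (1 / r) with hq2
  have hq10 : 0 ≤ q1 := by positivity
  have hq20 : 0 ≤ q2 := by positivity
  have hmain : U ≤ 1 / 4 * U + (Real.exp (-(3 / 25 * d * P.t)) * q1 + q2) *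
      F ^ (2 / p) * U ^ (1 / r) := by
    have e1 : ∑ x, (f x) ^ 2 * G1 x ≤ F ^ (2 / p) * (q1 * U ^ (1 / r)) :=
      hH1.trans (mul_le_mul_of_nonneg_left hG1r (by positivity))
    have e2 : ∑ x, (v x) ^ 2 * G2 x ≤ F ^ (2 / p) * (q2 * U ^ (1 / r)) := by
      refine hH2.trans ?_
      exact mul_le_mul hF2 hG2r (Real.rpow_nonneg (Finset.sum_nonneg fun x _ =>
        Real.rpow_nonneg (hG20 x) _) _) (by positivity)
    have e3 : Real.exp (-(3 / 25 * d * P.t)) * ∑ x, (f x) ^ 2 * G1 x ≤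
        Real.exp (-(3 / 25 * d * P.t)) * (F ^ (2 / p) * (q1 * U ^ (1 / r))) :=
      mul_le_mul_of_nonneg_left e1 (Real.exp_pos _).le
    calc U ≤ c0 * ∑ x, (u x) ^ 2 + ∑ j ∈ range J, c0 * 2 ^ j * ∑ x ∈ A j, (u x) ^ 2 := hdec
      _ ≤ 1 / 4 * U + (Real.exp (-(3 / 25 * d * P.t)) * ∑ x, (f x) ^ 2 * G1 x +
          ∑ x, (v x) ^ 2 * G2 x) := add_le_add hfloor hlev
      _ ≤ 1 / 4 * U + (Real.exp (-(3 / 25 * d * P.t)) * (F ^ (2 / p) * (q1 * U ^ (1 / r))) +
          F ^ (2 / p) * (q2 * U ^ (1 / r))) := by linarith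
      _ = _ := by ring
  have h34 : U ≤ (4 / 3 * (Real.exp (-(3 / 25 * d * P.t)) * q1 + q2)) * F ^ (2 / p) *
      U ^ (1 / r) := by
    have : 3 / 4 * U ≤ (Real.exp (-(3 / 25 * d * P.t)) * q1 + q2) *
      F ^ (2 / p) * U ^ (1 / r) := by linarith
    nlinarith
  have h14 : U ≤ (1 / 4) * F ^ (2 / p) * U ^ (1 / r) := by
    refine h34.trans ?_
    refine mul_le_mul_of_nonneg_right (mul_le_mul_of_nonneg_right hsmall (by positivity))
      (by positivity)
  have hfin : U ^ (2 / p) ≤ 1 / 4 * F ^ (2 / p) := by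
    have h1 : U ^ (2 / p) * U ^ (1 / r) ≤ (1 / 4 * F ^ (2 / p)) * U ^ (1 / r) := by
      rw [← Real.rpow_add hUpos, hexp1, Real.rpow_one]
      exact h14
    exact le_of_mul_le_mul_right h1 (by positivity)
  calc U = (U ^ (2 / p)) ^ (p / 2) := by
        rw [← Real.rpow_mul hU0, show 2 / p * (p / 2) = 1 by field_simp, Real.rpow_one]
    _ ≤ (1 / 4 * F ^ (2 / p)) ^ (p / 2) := Real.rpow_le_rpow (by positivity) hfin (by positivity)
    _ = (1 / 2) ^ p * F := by
        rw [Real.mul_rpow (by norm_num) (by positivity), ← Real.rpow_mul hF0,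
          show 2 / p * (p / 2) = 1 by field_simp, Real.rpow_one]
        congr 1
        rw [show (1 / 4 : ℝ) = (1 / 2) ^ (2:ℝ) by norm_num, ← Real.rpow_mul (by norm_num)]
        congr 1; field_simp

end Pool.Agent.H81.HS
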