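import Mathlib

set_option autoImplicit false

/-! Fourier analysis on the cube `Fin n → Bool`: Walsh functions, noise kernel. -/

namespace Pool.Agent.H81.HS

open Finset

/-- sign of a bit -/
def sg (b : Bool) : ℝ := if b then -1 else 1

lemma sg_mul_self (b : Bool) : sg b * sg b = 1 := by cases b <;> simp [sg]

lemma sg_not (b : Bool) : sg (!b) = - sg b := by cases b <;> simp [sg]

/-- Walsh function -/
def chi {n : ℕ} (S : Finset (Fin n)) (x : Fin n → Bool) : ℝ := ∏ i ∈ S, sg (x i)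

/-- flip coordinate `i` -/
def flip {n : ℕ} (x : Fin n → Bool) (i : Fin n) : Fin n → Bool := Function.update x i (!x i)

@[simp] lemma flip_flip {n : ℕ} (x : Fin n → Bool) (i : Fin n) : flip (flip x i) i = x := by
  unfold flip
  simp

lemma flip_same {n : ℕ} (x : Fin n → Bool) (i : Fin n) : flip x i i = !x i := by
  simp [flip]

lemma flip_ne {n : ℕ} (x : Fin n → Bool) (i j : Fin n) (h : j ≠ i) : flip x i j = x j := by
  simp [flip, h]

lemma sum_flip {n : ℕ} {M : Type*} [AddCommMonoid M] (i : Fin n) (g : (Fin n → Bool) → M) :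
    ∑ x, g (flip x i) = ∑ x, g x := by
  have hinv : Function.Involutive (fun x : Fin n → Bool => flip x i) := fun x => flip_flip x i
  exact Equiv.sum_comp hinv.toPerm g

/-- product formula for sums over the cube -/
lemma sum_prod_cube {n : ℕ} {R : Type*} [CommRing R] (g : Fin n → Bool → R) :
    ∑ x : Fin n → Bool, ∏ i, g i (x i) = ∏ i, (g i false + g i true) := by
  have h := Finset.prod_univ_sum (fun _ : Fin n => (Finset.univ : Finset Bool)) g
  simp only [Fintype.piFinset_univ] at h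
  rw [← h]
  refine Finset.prod_congr rfl ?_
  intro i _
  rw [Fintype.sum_bool, add_comm]

lemma chi_eq_prod {n : ℕ} (S : Finset (Fin n)) (x : Fin n → Bool) :
    chi S x = ∏ i, (if i ∈ S then sg (x i) else 1) := by
  unfold chi
  rw [Finset.prod_ite_mem, Finset.univ_inter]

lemma chi_orth {n : ℕ} (S S' : Finset (Fin n)) :
    ∑ x : Fin n → Bool, chi S x * chi S' x = if S = S' then (2 : ℝ) ^ n else 0 := by
  have h1 : ∀ x : Fin n → Bool, chi S x * chi S' x =
      ∏ i, ((fun (i : Fin n) (b : Bool) =>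
        (if i ∈ S then sg b else 1) * (if i ∈ S' then sg b else 1)) i (x i)) := by
    intro x
    rw [chi_eq_prod, chi_eq_prod, ← Finset.prod_mul_distrib]
  rw [Finset.sum_congr rfl (fun x _ => h1 x), sum_prod_cube (fun (i : Fin n) (b : Bool) =>
        (if i ∈ S then sg b else 1) * (if i ∈ S' then sg b else 1))]
  split_ifs with h
  · subst h
    have : ∀ i : Fin n, ((if i ∈ S then sg false else 1) * (if i ∈ S then sg false else 1) +
        (if i ∈ S then sg true else 1) * (if i ∈ S then sg true else 1) : ℝ) = 2 := by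
      intro i
      split_ifs
      · simp only [sg_mul_self]; norm_num
      · norm_num
    simp only [this]
    simp
  · have : ∃ i, ¬ (i ∈ S ↔ i ∈ S') := by
      by_contra hcon
      push Not at hcon
      exact h (Finset.ext hcon)
    obtain ⟨i, hi⟩ := this
    refine Finset.prod_eq_zero (Finset.mem_univ i) ?_
    by_cases h1 : i ∈ S <;> by_cases h2 : i ∈ S'
    · exact absurd (by simp [h1, h2]) hi
    · simp [h1, h2, sg]
    · simp [h1, h2, sg]
    · exact absurd (by simp [h1, h2]) hi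

/-- Walsh coefficient -/
noncomputable def co {n : ℕ} (f : (Fin n → Bool) → ℝ) (S : Finset (Fin n)) : ℝ :=
  (∑ x, f x * chi S x) / 2 ^ n

/-- noise kernel -/
noncomputable def ker {n : ℕ} (w : ℝ) (x y : Fin n → Bool) : ℝ :=
  ∏ i, (1 + w * (sg (x i) * sg (y i))) / 2

lemma ker_symm {n : ℕ} (w : ℝ) (x y : Fin n → Bool) : ker w x y = ker w y x := by
  unfold ker
  refine Finset.prod_congr rfl fun i _ => ?_
  rw [mul_comm (sg (x i))]

lemma ker_nonneg {n : ℕ} {w : ℝ} (h0 : 0 ≤ w) (h1 : w ≤ 1) (x y : Fin n → Bool) :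
    0 ≤ ker w x y := by
  unfold ker
  refine Finset.prod_nonneg fun i _ => ?_
  cases hx : x i <;> cases hy : y i <;> simp [sg] <;> linarith

lemma ker_sum {n : ℕ} (w : ℝ) (x : Fin n → Bool) : ∑ y, ker w x y = 1 := by
  unfold ker
  rw [sum_prod_cube (n := n) (fun i b => (1 + w * (sg (x i) * sg b)) / 2)]
  refine Finset.prod_eq_one fun i _ => ?_
  simp [sg]; ring

lemma ker_comp {n : ℕ} (w w' : ℝ) (x z : Fin n → Bool) :
    ∑ y, ker w x y * ker w' y z = ker (w * w') x z := by
  unfold ker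
  simp_rw [← Finset.prod_mul_distrib]
  rw [sum_prod_cube (n := n) (fun i b => (1 + w * (sg (x i) * sg b)) / 2 *
    ((1 + w' * (sg b * sg (z i))) / 2))]
  refine Finset.prod_congr rfl fun i _ => ?_
  simp [sg]
  cases hx : x i <;> cases hz : z i <;> simp <;> ring

lemma ker_expand {n : ℕ} (w : ℝ) (x y : Fin n → Bool) :
    ker w x y = (∑ S : Finset (Fin n), w ^ S.card * (chi S x * chi S y)) / 2 ^ n := by
  unfold ker
  rw [Finset.prod_div_distrib]
  congr 1
  · rw [Finset.prod_one_add, Finset.powerset_univ]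
    refine Finset.sum_congr rfl fun S _ => ?_
    rw [Finset.prod_mul_distrib, Finset.prod_const, Finset.prod_mul_distrib]
    rfl
  · simp

/-- noise operator -/
noncomputable def T {n : ℕ} (w : ℝ) (f : (Fin n → Bool) → ℝ) (x : Fin n → Bool) : ℝ :=
  ∑ y, ker w x y * f y

lemma T_expand {n : ℕ} (w : ℝ) (f : (Fin n → Bool) → ℝ) (x : Fin n → Bool) :
    T w f x = ∑ S : Finset (Fin n), w ^ S.card * co f S * chi S x := by
  unfold T co
  simp_rw [ker_expand, Finset.sum_div, Finset.sum_mul]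
  rw [Finset.sum_comm]
  refine Finset.sum_congr rfl fun S _ => ?_
  rw [Finset.mul_sum, Finset.sum_mul]
  refine Finset.sum_congr rfl fun y _ => ?_
  ring

lemma ker_one {n : ℕ} (x y : Fin n → Bool) : ker 1 x y = if x = y then 1 else 0 := by
  unfold ker
  split_ifs with h
  · subst h
    refine Finset.prod_eq_one fun i _ => ?_
    rw [sg_mul_self]; norm_num
  · have : ∃ i, x i ≠ y i := by
      by_contra hcon
      push Not at hcon
      exact h (funext hcon)
    obtain ⟨i, hi⟩ := this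
    refine Finset.prod_eq_zero (Finset.mem_univ i) ?_
    cases hx : x i <;> cases hy : y i <;> simp_all [sg]

lemma T_one {n : ℕ} (f : (Fin n → Bool) → ℝ) : T 1 f = f := by
  funext x
  unfold T
  simp [ker_one]

lemma expand {n : ℕ} (f : (Fin n → Bool) → ℝ) (x : Fin n → Bool) :
    f x = ∑ S : Finset (Fin n), co f S * chi S x := by
  conv_lhs => rw [← T_one f]
  rw [T_expand]
  simp

lemma T_comp {n : ℕ} (w w' : ℝ) (f : (Fin n → Bool) → ℝ) : T w (T w' f) = T (w * w') f := by
  funext x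
  unfold T
  simp_rw [Finset.mul_sum]
  rw [Finset.sum_comm]
  refine Finset.sum_congr rfl fun z _ => ?_
  rw [← ker_comp, Finset.sum_mul]
  refine Finset.sum_congr rfl fun y _ => ?_
  ring

lemma T_nonneg {n : ℕ} {w : ℝ} (h0 : 0 ≤ w) (h1 : w ≤ 1) {f : (Fin n → Bool) → ℝ}
    (hf : ∀ x, 0 ≤ f x) (x : Fin n → Bool) : 0 ≤ T w f x :=
  Finset.sum_nonneg fun y _ => mul_nonneg (ker_nonneg h0 h1 x y) (hf y)

lemma T_mono {n : ℕ} {w : ℝ} (h0 : 0 ≤ w) (h1 : w ≤ 1) {f g : (Fin n → Bool) → ℝ}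
    (hf : ∀ x, f x ≤ g x) (x : Fin n → Bool) : T w f x ≤ T w g x :=
  Finset.sum_le_sum fun y _ => mul_le_mul_of_nonneg_left (hf y) (ker_nonneg h0 h1 x y)

lemma T_le_one {n : ℕ} {w : ℝ} (h0 : 0 ≤ w) (h1 : w ≤ 1) {f : (Fin n → Bool) → ℝ}
    (hf : ∀ x, f x ≤ 1) (x : Fin n → Bool) : T w f x ≤ 1 := by
  calc T w f x ≤ T w (fun _ => (1:ℝ)) x := T_mono h0 h1 hf x
    _ = 1 := by unfold T; simp [ker_sum]

lemma T_selfadj {n : ℕ} (w : ℝ) (f g : (Fin n → Bool) → ℝ) :
    ∑ x, T w f x * g x = ∑ x, f x * T w g x := by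
  unfold T
  simp_rw [Finset.sum_mul, Finset.mul_sum]
  rw [Finset.sum_comm]
  refine Finset.sum_congr rfl fun y _ => Finset.sum_congr rfl fun x _ => ?_
  rw [ker_symm w x y]; ring

lemma sum_T {n : ℕ} (w : ℝ) (f : (Fin n → Bool) → ℝ) : ∑ x, T w f x = ∑ x, f x := by
  have h := T_selfadj w f (fun _ => (1:ℝ))
  simp only [mul_one] at h
  rw [h]
  refine Finset.sum_congr rfl fun x _ => ?_
  have : T w (fun _ => (1:ℝ)) x = 1 := by unfold T; simp [ker_sum]
  rw [this, mul_one]

/-- Jensen for convex functions `|.|^p` -/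
lemma T_rpow_le {n : ℕ} {w : ℝ} (h0 : 0 ≤ w) (h1 : w ≤ 1) {p : ℝ} (hp : 1 ≤ p)
    (f : (Fin n → Bool) → ℝ) (x : Fin n → Bool) :
    |T w f x| ^ p ≤ T w (fun y => |f y| ^ p) x := by
  have habs : |T w f x| ≤ ∑ y, ker w x y * |f y| := by
    unfold T
    refine (Finset.abs_sum_le_sum_abs _ _).trans (le_of_eq ?_)
    refine Finset.sum_congr rfl fun y _ => ?_
    rw [abs_mul, abs_of_nonneg (ker_nonneg h0 h1 x y)]
  calc |T w f x| ^ p ≤ (∑ y, ker w x y * |f y|) ^ p :=
        Real.rpow_le_rpow (abs_nonneg _) habs (by linarith)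
    _ ≤ ∑ y, ker w x y * |f y| ^ p := by
        exact Real.rpow_arith_mean_le_arith_mean_rpow Finset.univ (fun y => ker w x y)
          (fun y => |f y|) (fun y _ => ker_nonneg h0 h1 x y) (ker_sum w x)
          (fun y _ => abs_nonneg _) hp
    _ = T w (fun y => |f y| ^ p) x := rfl

lemma T_sq_le {n : ℕ} {w : ℝ} (h0 : 0 ≤ w) (h1 : w ≤ 1)
    (f : (Fin n → Bool) → ℝ) (x : Fin n → Bool) :
    (T w f x) ^ 2 ≤ T w (fun y => (f y) ^ 2) x := by
  have h := T_rpow_le h0 h1 (p := 2) (by norm_num) f x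
  have e1 : |T w f x| ^ (2:ℝ) = (T w f x) ^ 2 := by
    rw [Real.rpow_two, sq_abs]
  have e2 : (fun y => |f y| ^ (2:ℝ)) = fun y => (f y) ^ 2 := by
    funext y; rw [Real.rpow_two, sq_abs]
  rw [e1, e2] at h
  exact h

end Pool.Agent.H81.HS
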