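import Pool.Agent.H81.HS.Sector

set_option autoImplicit false

/-! Hypercontractivity (2,4) on the cube, log-convexity in time, small sets. -/

namespace Pool.Agent.H81.HS

open Finset

lemma sum_cube_succ {n : ℕ} (F : (Fin (n + 1) → Bool) → ℝ) :
    ∑ x, F x = ∑ y : Fin n → Bool, (F (Fin.cons false y) + F (Fin.cons true y)) := by
  rw [← (Fin.consEquiv (fun _ : Fin (n + 1) => Bool)).sum_comp, Fintype.sum_prod_type]
  rw [Fintype.sum_bool, ← Finset.sum_add_distrib]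
  refine Finset.sum_congr rfl fun y _ => ?_
  rw [add_comm]
  rfl

lemma ker_cons {n : ℕ} (w : ℝ) (b b' : Bool) (y y' : Fin n → Bool) :
    ker w (Fin.cons b y : Fin (n + 1) → Bool) (Fin.cons b' y') =
      (1 + w * (sg b * sg b')) / 2 * ker w y y' := by
  unfold ker
  rw [Fin.prod_univ_succ]
  simp

lemma T_cons {n : ℕ} (w : ℝ) (f : (Fin (n + 1) → Bool) → ℝ) (b : Bool) (y : Fin n → Bool) :
    T w f (Fin.cons b y) = (1 + w * sg b) / 2 * T w (fun y' => f (Fin.cons false y')) y +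
      (1 - w * sg b) / 2 * T w (fun y' => f (Fin.cons true y')) y := by
  unfold T
  rw [sum_cube_succ, Finset.mul_sum, Finset.mul_sum, ← Finset.sum_add_distrib]
  refine Finset.sum_congr rfl fun y' _ => ?_
  rw [ker_cons, ker_cons]
  simp [sg]
  ring

lemma T_half_add {n : ℕ} (w : ℝ) (f g : (Fin n → Bool) → ℝ) (y : Fin n → Bool) :
    T w (fun z => (f z + g z) / 2) y = (T w f y + T w g y) / 2 := by
  unfold T
  rw [← Finset.sum_add_distrib, Finset.sum_div]
  refine Finset.sum_congr rfl fun z _ => ?_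
  ring

lemma T_half_sub {n : ℕ} (w : ℝ) (f g : (Fin n → Bool) → ℝ) (y : Fin n → Bool) :
    T w (fun z => (f z - g z) / 2) y = (T w f y - T w g y) / 2 := by
  unfold T
  rw [← Finset.sum_sub_distrib, Finset.sum_div]
  refine Finset.sum_congr rfl fun z _ => ?_
  ring

/-- Bonami's inequality -/
theorem bonami {n : ℕ} {w : ℝ} (hw : w ^ 2 = 1 / 3) (f : (Fin n → Bool) → ℝ) :
    2 ^ n * ∑ x, (T w f x) ^ 4 ≤ (∑ x, (f x) ^ 2) ^ 2 := by
  induction n with
  | zero =>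
    have h1 : ∀ x : Fin 0 → Bool, T w f x = f x := by
      intro x
      unfold T ker
      simp
      congr 1
      exact Subsingleton.elim _ _
    simp [h1]
    have : ∀ a : ℝ, a ^ 4 ≤ (a ^ 2) ^ 2 := fun a => by ring_nf; exact le_rfl
    exact this _
  | succ n ih =>
    set f0 : (Fin n → Bool) → ℝ := fun y => f (Fin.cons false y) with hf0
    set f1 : (Fin n → Bool) → ℝ := fun y => f (Fin.cons true y) with hf1
    set g : (Fin n → Bool) → ℝ := fun y => (f0 y + f1 y) / 2 with hg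
    set h : (Fin n → Bool) → ℝ := fun y => (f0 y - f1 y) / 2 with hh
    have hT0 : ∀ y, T w f (Fin.cons false y) = T w g y + w * T w h y := by
      intro y
      rw [T_cons, hg, hh, T_half_add, T_half_sub]
      simp [sg]
      ring
    have hT1 : ∀ y, T w f (Fin.cons true y) = T w g y - w * T w h y := by
      intro y
      rw [T_cons, hg, hh, T_half_add, T_half_sub]
      simp [sg]
      ring
    have ihg := ih g
    have ihh := ih h
    set G4 := ∑ y, (T w g y) ^ 4 with hG4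
    set H4 := ∑ y, (T w h y) ^ 4 with hH4
    set GH := ∑ y, (T w g y) ^ 2 * (T w h y) ^ 2 with hGH
    set a := ∑ y, (g y) ^ 2 with ha
    set b := ∑ y, (h y) ^ 2 with hb
    have ha0 : 0 ≤ a := Finset.sum_nonneg fun y _ => sq_nonneg _
    have hb0 : 0 ≤ b := Finset.sum_nonneg fun y _ => sq_nonneg _
    have hcs : GH ^ 2 ≤ G4 * H4 := by
      have := Finset.sum_mul_sq_le_sq_mul_sq univ (fun y => (T w g y) ^ 2) (fun y => (T w h y) ^ 2)
      calc GH ^ 2 ≤ (∑ i, ((T w g i) ^ 2) ^ 2) * ∑ i, ((T w h i) ^ 2) ^ 2 := this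
        _ = G4 * H4 := by
            rw [hG4, hH4]
            congr 1 <;> refine Finset.sum_congr rfl fun y _ => ?_ <;> ring
    have hGHle : 2 ^ n * GH ≤ a * b := by
      have hp : (0:ℝ) < 2 ^ n := by positivity
      have h1 : (2 ^ n * GH) ^ 2 ≤ (a * b) ^ 2 := by
        calc (2 ^ n * GH) ^ 2 = (2 ^ n) ^ 2 * GH ^ 2 := by ring
          _ ≤ (2 ^ n) ^ 2 * (G4 * H4) := mul_le_mul_of_nonneg_left hcs (by positivity)
          _ = (2 ^ n * G4) * (2 ^ n * H4) := by ring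
          _ ≤ a ^ 2 * b ^ 2 := by
              refine mul_le_mul ihg ihh ?_ (by positivity)
              exact mul_nonneg hp.le (Finset.sum_nonneg fun y _ => by positivity)
          _ = (a * b) ^ 2 := by ring
      have hGH0 : 0 ≤ 2 ^ n * GH :=
        mul_nonneg hp.le (Finset.sum_nonneg fun y _ => by positivity)
      exact (pow_le_pow_iff_left₀ hGH0 (by positivity) two_ne_zero).mp h1
    have hL : ∑ x, (T w f x) ^ 4 = 2 * G4 + 4 * GH + 2 / 9 * H4 := by
      rw [sum_cube_succ]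
      have : ∀ y, (T w f (Fin.cons false y)) ^ 4 + (T w f (Fin.cons true y)) ^ 4 =
          2 * (T w g y) ^ 4 + 4 * ((T w g y) ^ 2 * (T w h y) ^ 2) + 2 / 9 * (T w h y) ^ 4 := by
        intro y
        rw [hT0, hT1]
        have hw4 : w ^ 4 = 1 / 9 := by
          calc w ^ 4 = (w ^ 2) ^ 2 := by ring
            _ = 1 / 9 := by rw [hw]; norm_num
        have e : (T w g y + w * T w h y) ^ 4 + (T w g y - w * T w h y) ^ 4 =
          2 * (T w g y) ^ 4 + 12 * w ^ 2 * ((T w g y) ^ 2 * (T w h y) ^ 2) +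
            2 * w ^ 4 * (T w h y) ^ 4 := by ring
        rw [e, hw, hw4]; ring
      rw [Finset.sum_congr rfl (fun y _ => this y), Finset.sum_add_distrib,
        Finset.sum_add_distrib, ← Finset.mul_sum, ← Finset.mul_sum, ← Finset.mul_sum]
    have hRt : ∑ x, (f x) ^ 2 = 2 * (a + b) := by
      rw [sum_cube_succ, ha, hb, ← Finset.sum_add_distrib, Finset.mul_sum]
      refine Finset.sum_congr rfl fun y _ => ?_
      simp only [hg, hh, hf0, hf1]
      ring
    rw [hL, hRt]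
    have hH40 : 0 ≤ H4 := Finset.sum_nonneg fun y _ => by positivity
    have hp : (0:ℝ) < 2 ^ n := by positivity
    have e1 : (2:ℝ) ^ (n + 1) * (2 * G4 + 4 * GH + 2 / 9 * H4) =
        4 * (2 ^ n * G4) + 8 * (2 ^ n * GH) + 4 / 9 * (2 ^ n * H4) := by
      rw [pow_succ]; ring
    rw [e1]
    have : 0 ≤ 2 ^ n * H4 := by positivity
    nlinarith

/-- small sets -/
theorem small_set {n : ℕ} {w : ℝ} (hw : w ^ 2 = 1 / 3)
    (A : Finset (Fin n → Bool)) :
    2 ^ n * (∑ x, (T w (fun y => if y ∈ A then (1:ℝ) else 0) x) ^ 2) ^ 2 ≤ (A.card : ℝ) ^ 3 := by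
  set φ : (Fin n → Bool) → ℝ := fun y => if y ∈ A then (1:ℝ) else 0 with hφ
  set X := ∑ x, (T w φ x) ^ 2 with hX
  have hX0 : 0 ≤ X := Finset.sum_nonneg fun x _ => sq_nonneg _
  have h1 : X = ∑ x ∈ A, T w (T w φ) x := by
    have e1 : X = ∑ x, φ x * T w (T w φ) x := by
      rw [← T_selfadj, hX]
      refine Finset.sum_congr rfl fun x _ => ?_
      ring
    rw [e1]
    simp only [hφ, ite_mul, one_mul, zero_mul, Finset.sum_ite_mem, Finset.univ_inter]
  have h2 : X ^ 2 ≤ A.card * ∑ x ∈ A, (T w (T w φ) x) ^ 2 := by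
    rw [h1]; exact sq_sum_le_card_mul_sum_sq
  have h3 : (∑ x ∈ A, (T w (T w φ) x) ^ 2) ^ 2 ≤ A.card * ∑ x ∈ A, (T w (T w φ) x) ^ 4 := by
    refine (sq_sum_le_card_mul_sum_sq (s := A) (f := fun x => (T w (T w φ) x) ^ 2)).trans
      (le_of_eq ?_)
    congr 1
    refine Finset.sum_congr rfl fun x _ => ?_
    ring
  have h4 : ∑ x ∈ A, (T w (T w φ) x) ^ 4 ≤ ∑ x, (T w (T w φ) x) ^ 4 :=
    Finset.sum_le_univ_sum_of_nonneg fun x => by positivity
  have h5 := bonami hw (T w φ)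
  set Y := ∑ x ∈ A, (T w (T w φ) x) ^ 2 with hY
  have hY0 : 0 ≤ Y := Finset.sum_nonneg fun x _ => sq_nonneg _
  set Z := ∑ x, (T w (T w φ) x) ^ 4 with hZ
  have hN : (0:ℝ) ≤ A.card := Nat.cast_nonneg _
  have hp : (0:ℝ) < 2 ^ n := by positivity
  -- X^4 ≤ N^3 Z, 2^n Z ≤ X^2
  have h6 : X ^ 4 ≤ (A.card : ℝ) ^ 3 * Z := by
    calc X ^ 4 = (X ^ 2) ^ 2 := by ring
      _ ≤ (A.card * Y) ^ 2 := pow_le_pow_left₀ (sq_nonneg _) h2 2
      _ = (A.card : ℝ) ^ 2 * Y ^ 2 := by ring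
      _ ≤ (A.card : ℝ) ^ 2 * (A.card * Z) :=
          mul_le_mul_of_nonneg_left (h3.trans (mul_le_mul_of_nonneg_left h4 hN)) (by positivity)
      _ = _ := by ring
  have h7 : X ^ 2 * (2 ^ n * X ^ 2) ≤ X ^ 2 * (A.card : ℝ) ^ 3 := by
    calc X ^ 2 * (2 ^ n * X ^ 2) = 2 ^ n * X ^ 4 := by ring
      _ ≤ 2 ^ n * ((A.card : ℝ) ^ 3 * Z) := mul_le_mul_of_nonneg_left h6 hp.le
      _ = (A.card : ℝ) ^ 3 * (2 ^ n * Z) := by ring
      _ ≤ (A.card : ℝ) ^ 3 * X ^ 2 := mul_le_mul_of_nonneg_left h5 (by positivity)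
      _ = _ := by ring
  rcases hX0.eq_or_lt with h | h
  · rw [← h]; simp
  · exact le_of_mul_le_mul_left h7 (by positivity)

lemma exp_neg_sq_rpow (a lam : ℝ) : (Real.exp (-a) ^ 2) ^ lam = Real.exp (-(a * lam)) ^ 2 := by
  rw [← Real.exp_nat_mul, ← Real.exp_nat_mul, ← Real.exp_mul]
  congr 1
  push_cast; ring

lemma exp_neg_nat_mul (s : ℝ) (k : ℕ) : Real.exp (-s) ^ k = Real.exp (-(s * k)) := by
  rw [← Real.exp_nat_mul]; congr 1; ring

lemma n2_eq {n : ℕ} (w : ℝ) (f : (Fin n → Bool) → ℝ) :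
    ∑ x, (T w f x) ^ 2 = 2 ^ n * ∑ S : Finset (Fin n), (w ^ S.card * co f S) ^ 2 := by
  rw [← parseval_r]
  refine Finset.sum_congr rfl fun x _ => ?_
  rw [T_expand]

/-- monotonicity in time -/
lemma n2_mono {n : ℕ} {s τ : ℝ} (hsτ : s ≤ τ) (f : (Fin n → Bool) → ℝ) :
    ∑ x, (T (Real.exp (-τ)) f x) ^ 2 ≤ ∑ x, (T (Real.exp (-s)) f x) ^ 2 := by
  rw [n2_eq, n2_eq]
  refine mul_le_mul_of_nonneg_left ?_ (by positivity)
  refine Finset.sum_le_sum fun S _ => ?_
  rw [mul_pow, mul_pow]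
  refine mul_le_mul_of_nonneg_right ?_ (sq_nonneg _)
  refine pow_le_pow_left₀ (by positivity) ?_ 2
  exact pow_le_pow_left₀ (Real.exp_pos _).le (Real.exp_le_exp.mpr (by linarith)) _

/-- log-convexity in time -/
lemma logconv {n : ℕ} {s τ : ℝ} (hs : 0 < s) (hsτ : s < τ) (f : (Fin n → Bool) → ℝ) :
    ∑ x, (T (Real.exp (-s)) f x) ^ 2 ≤
      (∑ x, (T (Real.exp (-τ)) f x) ^ 2) ^ (s / τ) * (∑ x, (f x) ^ 2) ^ (1 - s / τ) := by
  have hτ : 0 < τ := hs.trans hsτ
  set lam := s / τ with hlam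
  have hl0 : 0 < lam := by positivity
  have hl1 : lam < 1 := by rw [hlam, div_lt_one hτ]; exact hsτ
  rw [n2_eq, n2_eq, parseval_f]
  have hp : (0:ℝ) ≤ 2 ^ n := by positivity
  have hA0 : 0 ≤ ∑ S : Finset (Fin n), (Real.exp (-τ) ^ S.card * co f S) ^ 2 :=
    Finset.sum_nonneg fun S _ => sq_nonneg _
  have hB0 : 0 ≤ ∑ S : Finset (Fin n), (co f S) ^ 2 :=
    Finset.sum_nonneg fun S _ => sq_nonneg _
  rw [Real.mul_rpow hp hA0, Real.mul_rpow hp hB0]
  have hpow : ((2:ℝ) ^ n) ^ lam * ((2:ℝ) ^ n) ^ (1 - lam) = 2 ^ n := by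
    rw [← Real.rpow_add (by positivity)]
    rw [add_sub_cancel, Real.rpow_one]
  have hconj : Real.HolderConjugate (1 / lam) (1 / (1 - lam)) := by
    rw [Real.holderConjugate_iff]
    constructor
    · rw [lt_div_iff₀ hl0]; linarith
    · have : 1 - lam ≠ 0 := by linarith
      field_simp
      ring
  have hH := Real.inner_le_Lp_mul_Lq_of_nonneg (univ : Finset (Finset (Fin n))) hconj
    (f := fun S => ((Real.exp (-τ) ^ S.card * co f S) ^ 2) ^ lam)
    (g := fun S => ((co f S) ^ 2) ^ (1 - lam))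
    (fun S _ => by positivity) (fun S _ => by positivity)
  have e1 : ∀ S : Finset (Fin n), (((Real.exp (-τ) ^ S.card * co f S) ^ 2) ^ lam) ^ (1 / lam) =
      (Real.exp (-τ) ^ S.card * co f S) ^ 2 := by
    intro S
    rw [← Real.rpow_mul (sq_nonneg _), mul_one_div_cancel hl0.ne', Real.rpow_one]
  have e2 : ∀ S : Finset (Fin n), (((co f S) ^ 2) ^ (1 - lam)) ^ (1 / (1 - lam)) =
      (co f S) ^ 2 := by
    intro S
    have : 1 - lam ≠ 0 := by linarith
    rw [← Real.rpow_mul (sq_nonneg _), mul_one_div_cancel this, Real.rpow_one]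
  simp only [e1, e2, one_div_one_div] at hH
  have e3 : ∀ S : Finset (Fin n), ((Real.exp (-τ) ^ S.card * co f S) ^ 2) ^ lam *
      ((co f S) ^ 2) ^ (1 - lam) = (Real.exp (-s) ^ S.card * co f S) ^ 2 := by
    intro S
    rw [mul_pow, mul_pow, Real.mul_rpow (by positivity) (sq_nonneg _), mul_assoc]
    have e4 : ((co f S) ^ 2) ^ lam * ((co f S) ^ 2) ^ (1 - lam) = (co f S) ^ 2 := by
      rcases (sq_nonneg (co f S)).eq_or_lt with h | h
      · rw [← h, Real.zero_rpow hl0.ne', zero_mul]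
      · rw [← Real.rpow_add h, add_sub_cancel, Real.rpow_one]
    rw [e4]
    congr 1
    rw [exp_neg_nat_mul τ, exp_neg_nat_mul s, exp_neg_sq_rpow]
    have e5 : τ * (S.card : ℝ) * lam = s * S.card := by
      rw [hlam]; field_simp
    rw [e5]
  calc (2:ℝ) ^ n * ∑ S : Finset (Fin n), (Real.exp (-s) ^ S.card * co f S) ^ 2
      = 2 ^ n * ∑ S : Finset (Fin n), ((Real.exp (-τ) ^ S.card * co f S) ^ 2) ^ lam *
      ((co f S) ^ 2) ^ (1 - lam) := by
        congr 1
        exact Finset.sum_congr rfl fun S _ => (e3 S).symm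
    _ ≤ 2 ^ n * ((∑ S : Finset (Fin n), (Real.exp (-τ) ^ S.card * co f S) ^ 2) ^ lam *
        (∑ S : Finset (Fin n), (co f S) ^ 2) ^ (1 - lam)) :=
        mul_le_mul_of_nonneg_left hH hp
    _ = _ := by
        calc _ = (((2:ℝ) ^ n) ^ lam * ((2:ℝ) ^ n) ^ (1 - lam)) *
            ((∑ S : Finset (Fin n), (Real.exp (-τ) ^ S.card * co f S) ^ 2) ^ lam *
            (∑ S : Finset (Fin n), (co f S) ^ 2) ^ (1 - lam)) := by rw [hpow]
          _ = _ := by ring

end Pool.Agent.H81.HS
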