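import Pool.Agent.H81.HS.Level

set_option autoImplicit false

/-! `‖f - P_s f‖_p ≤ s ‖Δ f‖_p`. -/

namespace Pool.Agent.H81.HS

open Finset

variable {n : ℕ}

/-- the generator -/
noncomputable def gen (f : (Fin n → Bool) → ℝ) (x : Fin n → Bool) : ℝ :=
  ∑ i : Fin n, (f x - f (flip x i)) / 2

lemma ker_flip_flip (w : ℝ) (x y : Fin n → Bool) (i : Fin n) :
    ker w (flip x i) (flip y i) = ker w x y := by
  unfold ker
  refine Finset.prod_congr rfl fun j _ => ?_
  by_cases h : j = i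
  · subst h
    rw [flip_same, flip_same, sg_not, sg_not]; ring
  · rw [flip_ne x i j h, flip_ne y i j h]

lemma T_flip (w : ℝ) (f : (Fin n → Bool) → ℝ) (x : Fin n → Bool) (i : Fin n) :
    T w f (flip x i) = ∑ y, ker w x y * f (flip y i) := by
  unfold T
  rw [← sum_flip i (fun y => ker w (flip x i) y * f y)]
  refine Finset.sum_congr rfl fun y _ => ?_
  rw [ker_flip_flip]

lemma gen_T (w : ℝ) (f : (Fin n → Bool) → ℝ) (x : Fin n → Bool) :
    gen (T w f) x = T w (gen f) x := by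
  unfold gen
  simp_rw [T_flip]
  unfold T
  simp_rw [Finset.mul_sum]
  rw [Finset.sum_comm]
  refine Finset.sum_congr rfl fun i _ => ?_
  rw [← Finset.sum_sub_distrib, Finset.sum_div]
  refine Finset.sum_congr rfl fun y _ => ?_
  ring

lemma gen_T_expand (w : ℝ) (f : (Fin n → Bool) → ℝ) (x : Fin n → Bool) :
    gen (T w f) x = ∑ S : Finset (Fin n), (S.card : ℝ) * (w ^ S.card * co f S * chi S x) := by
  unfold gen
  simp_rw [T_expand, ← Finset.sum_sub_distrib, Finset.sum_div]
  rw [Finset.sum_comm]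
  refine Finset.sum_congr rfl fun S _ => ?_
  calc ∑ i : Fin n, (w ^ S.card * co f S * chi S x - w ^ S.card * co f S * chi S (flip x i)) / 2
      = w ^ S.card * co f S * ∑ i : Fin n, (chi S x - chi S (flip x i)) / 2 := by
        rw [Finset.mul_sum]
        refine Finset.sum_congr rfl fun i _ => ?_
        ring
    _ = _ := by rw [gen_chi]; ring

lemma T_hasDerivAt (f : (Fin n → Bool) → ℝ) (x : Fin n → Bool) (s : ℝ) :
    HasDerivAt (fun s : ℝ => T (Real.exp (-s)) f x) (-(T (Real.exp (-s)) (gen f) x)) s := by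
  rw [← gen_T, gen_T_expand]
  have h1 : ∀ S : Finset (Fin n), HasDerivAt
      (fun s : ℝ => Real.exp (-s) ^ S.card * co f S * chi S x)
      (-((S.card : ℝ) * (Real.exp (-s) ^ S.card * co f S * chi S x))) s := by
    intro S
    have h2 : HasDerivAt (fun s : ℝ => Real.exp (-(s * S.card)))
        (Real.exp (-(s * S.card)) * (-(1 * (S.card : ℝ)))) s :=
      (((hasDerivAt_id s).mul_const (S.card : ℝ)).neg).exp
    have h3 := (h2.mul_const (co f S)).mul_const (chi S x)
    have h4 : (fun s : ℝ => Real.exp (-s) ^ S.card * co f S * chi S x) =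
        fun s : ℝ => Real.exp (-(s * S.card)) * co f S * chi S x := by
      funext s; rw [exp_neg_nat_mul]
    rw [h4]
    refine h3.congr_deriv ?_
    rw [exp_neg_nat_mul]; ring
  have h5 := HasDerivAt.fun_sum (u := (Finset.univ : Finset (Finset (Fin n)))) (fun S _ => h1 S)
  have h6 : (fun s : ℝ => T (Real.exp (-s)) f x) =
      fun s : ℝ => ∑ S : Finset (Fin n), Real.exp (-s) ^ S.card * co f S * chi S x := by
    funext s; rw [T_expand]
  rw [h6]
  refine h5.congr_deriv ?_
  rw [Finset.sum_neg_distrib]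

/-- contraction in `L^p` including time zero -/
lemma sum_T_rpow_le' {t p : ℝ} (ht : 0 ≤ t) (hp : 1 ≤ p) (f : (Fin n → Bool) → ℝ) :
    ∑ x, |T (Real.exp (-t)) f x| ^ p ≤ ∑ x, |f x| ^ p := by
  have h1 : Real.exp (-t) ≤ 1 := by rw [Real.exp_le_one_iff]; linarith
  calc ∑ x, |T (Real.exp (-t)) f x| ^ p
      ≤ ∑ x, T (Real.exp (-t)) (fun y => |f y| ^ p) x :=
        Finset.sum_le_sum fun x _ => T_rpow_le (Real.exp_pos _).le h1 hp f x
    _ = _ := sum_T _ _

theorem sub_le {p s : ℝ} (hp : 1 < p) (hs : 0 < s) (f : (Fin n → Bool) → ℝ) :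
    (∑ x, |f x - T (Real.exp (-s)) f x| ^ p) ^ (1 / p) ≤
      s * (∑ x, |gen f x| ^ p) ^ (1 / p) := by
  have hp0 : 0 < p := by linarith
  set φ : (Fin n → Bool) → ℝ := fun x => f x - T (Real.exp (-s)) f x with hφ
  set Φ := ∑ x, |φ x| ^ p with hΦ
  set Γ := ∑ x, |gen f x| ^ p with hΓ
  have hΦ0 : 0 ≤ Φ := Finset.sum_nonneg fun x _ => by positivity
  have hΓ0 : 0 ≤ Γ := Finset.sum_nonneg fun x _ => by positivity
  rcases hΦ0.eq_or_lt with h | h
  · rw [← h, Real.zero_rpow (by positivity)]; positivity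
  set q := p / (p - 1) with hq
  have hp1 : 0 < p - 1 := by linarith
  have hconj : Real.HolderConjugate p q := by
    rw [Real.holderConjugate_iff]
    refine ⟨hp, ?_⟩
    rw [hq]; field_simp; ring
  set ψ : (Fin n → Bool) → ℝ := fun x => (SignType.sign (φ x) : ℝ) * |φ x| ^ (p - 1) with hψ
  have hψabs : ∀ x, |ψ x| ≤ |φ x| ^ (p - 1) := by
    intro x
    simp only [hψ]
    rw [abs_mul, abs_of_nonneg (Real.rpow_nonneg (abs_nonneg (φ x)) (p - 1))]
    refine mul_le_of_le_one_left (Real.rpow_nonneg (abs_nonneg _) _) ?_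
    rcases lt_trichotomy (φ x) 0 with h1 | h1 | h1
    · simp [h1]
    · simp [h1]
    · simp [h1]
  have hφψ : ∀ x, φ x * ψ x = |φ x| ^ p := by
    intro x
    simp only [hψ]
    have h1 : φ x * ((SignType.sign (φ x) : ℝ) * |φ x| ^ (p - 1)) =
        |φ x| * |φ x| ^ (p - 1) := by
      rw [← mul_assoc]
      congr 1
      rcases lt_trichotomy (φ x) 0 with h1 | h1 | h1
      · simp [h1, abs_of_neg h1]
      · simp [h1]
      · simp [h1, abs_of_pos h1]
    rw [h1]
    rcases (abs_nonneg (φ x)).eq_or_lt with h2 | h2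
    · rw [← h2, Real.zero_rpow hp0.ne', zero_mul]
    · rw [mul_comm, ← Real.rpow_add_one h2.ne']; congr 1; ring
  have hψq : ∑ x, |ψ x| ^ q ≤ Φ := by
    refine Finset.sum_le_sum fun x _ => ?_
    calc |ψ x| ^ q ≤ (|φ x| ^ (p - 1)) ^ q :=
          Real.rpow_le_rpow (abs_nonneg _) (hψabs x) (by positivity)
      _ = |φ x| ^ p := by
          rw [← Real.rpow_mul (abs_nonneg _), hq]
          congr 1; field_simp
  set H : ℝ → ℝ := fun σ => ∑ x, T (Real.exp (-σ)) f x * ψ x with hH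
  have hHd : ∀ σ, HasDerivAt H (∑ x, -(T (Real.exp (-σ)) (gen f) x) * ψ x) σ := by
    intro σ
    exact HasDerivAt.fun_sum (fun x _ => (T_hasDerivAt f x σ).mul_const (ψ x))
  obtain ⟨c, hc, hslope⟩ := exists_hasDerivAt_eq_slope H
    (fun σ => ∑ x, -(T (Real.exp (-σ)) (gen f) x) * ψ x) hs
    (fun σ _ => (hHd σ).continuousAt.continuousWithinAt) (fun σ _ => hHd σ)
  have hH0 : H 0 - H s = Φ := by
    simp only [hH, neg_zero, Real.exp_zero, T_one]
    rw [← Finset.sum_sub_distrib]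
    refine Finset.sum_congr rfl fun x _ => ?_
    rw [← hφψ]
    simp only [hφ]
    ring
  have hΦeq : Φ = s * ∑ x, T (Real.exp (-c)) (gen f) x * ψ x := by
    rw [← hH0]
    have h1 : H s - H 0 = s * ∑ x, -(T (Real.exp (-c)) (gen f) x) * ψ x := by
      rw [hslope, sub_zero]; field_simp
    have h2 : ∑ x, -(T (Real.exp (-c)) (gen f) x) * ψ x =
        -∑ x, T (Real.exp (-c)) (gen f) x * ψ x := by
      rw [← Finset.sum_neg_distrib]
      refine Finset.sum_congr rfl fun x _ => ?_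
      ring
    rw [h2] at h1
    linarith
  have hHol : ∑ x, T (Real.exp (-c)) (gen f) x * ψ x ≤ Γ ^ (1 / p) * Φ ^ (1 / q) := by
    refine (Real.inner_le_Lp_mul_Lq univ _ _ hconj).trans ?_
    refine mul_le_mul ?_ ?_ (by positivity) (by positivity)
    · exact Real.rpow_le_rpow (Finset.sum_nonneg fun x _ => by positivity)
        (sum_T_rpow_le' hc.1.le hp.le (gen f)) (by positivity)
    · exact Real.rpow_le_rpow (Finset.sum_nonneg fun x _ => by positivity) hψq (by positivity)
  have h1 : Φ ^ (1 / p) * Φ ^ (1 / q) ≤ (s * Γ ^ (1 / p)) * Φ ^ (1 / q) := by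
    rw [← Real.rpow_add h]
    have : 1 / p + 1 / q = 1 := by rw [hq]; field_simp; ring
    rw [this, Real.rpow_one]
    calc Φ = s * ∑ x, T (Real.exp (-c)) (gen f) x * ψ x := hΦeq
      _ ≤ s * (Γ ^ (1 / p) * Φ ^ (1 / q)) := mul_le_mul_of_nonneg_left hHol hs.le
      _ = _ := by ring
  exact le_of_mul_le_mul_right h1 (by positivity)

end Pool.Agent.H81.HS
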