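import Pool.Agent.H81.HS.Basic

set_option autoImplicit false

/-! Weighted energy estimate for the complex heat semigroup. -/

namespace Pool.Agent.H81.HS

open Finset

/-- the complex-time heat flow -/
noncomputable def Fz {n : ℕ} (f : (Fin n → Bool) → ℝ) (z : ℂ) (x : Fin n → Bool) : ℂ :=
  ∑ S : Finset (Fin n), Complex.exp (-(z * (S.card : ℂ))) * (co f S : ℂ) * (chi S x : ℂ)

lemma Fz_real {n : ℕ} (f : (Fin n → Bool) → ℝ) (s : ℝ) (x : Fin n → Bool) :
    Fz f (s : ℂ) x = (T (Real.exp (-s)) f x : ℂ) := by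
  rw [T_expand]
  unfold Fz
  push_cast
  refine Finset.sum_congr rfl fun S _ => ?_
  rw [← Complex.exp_nat_mul]
  congr 3
  ring

lemma Fz_zero {n : ℕ} (f : (Fin n → Bool) → ℝ) (x : Fin n → Bool) :
    Fz f 0 x = (f x : ℂ) := by
  have h := Fz_real f 0 x
  simp only [Complex.ofReal_zero, neg_zero, Real.exp_zero, T_one] at h
  exact h

lemma chi_flip {n : ℕ} (S : Finset (Fin n)) (x : Fin n → Bool) (i : Fin n) :
    chi S (flip x i) = if i ∈ S then - chi S x else chi S x := by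
  unfold chi
  split_ifs with h
  · rw [← Finset.mul_prod_erase S _ h, ← Finset.mul_prod_erase S (fun i => sg (x i)) h,
      flip_same, sg_not, neg_mul]
    congr 2
    refine Finset.prod_congr rfl fun j hj => ?_
    rw [flip_ne x i j (Finset.ne_of_mem_erase hj)]
  · refine Finset.prod_congr rfl fun j hj => ?_
    rw [flip_ne x i j (fun hji => h (hji ▸ hj))]

lemma gen_chi {n : ℕ} (S : Finset (Fin n)) (x : Fin n → Bool) :
    ∑ i : Fin n, (chi S x - chi S (flip x i)) / 2 = (S.card : ℝ) * chi S x := by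
  simp_rw [chi_flip]
  have : ∀ i : Fin n, (chi S x - (if i ∈ S then - chi S x else chi S x)) / 2 =
      if i ∈ S then chi S x else 0 := by
    intro i; split_ifs <;> ring
  simp_rw [this]
  rw [Finset.sum_ite_mem, Finset.univ_inter, Finset.sum_const, nsmul_eq_mul]

lemma gen_Fz {n : ℕ} (f : (Fin n → Bool) → ℝ) (z : ℂ) (x : Fin n → Bool) :
    ∑ i : Fin n, (Fz f z x - Fz f z (flip x i)) / 2 =
      ∑ S : Finset (Fin n), (S.card : ℂ) *
        (Complex.exp (-(z * (S.card : ℂ))) * (co f S : ℂ) * (chi S x : ℂ)) := by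
  unfold Fz
  simp_rw [← Finset.sum_sub_distrib, Finset.sum_div]
  rw [Finset.sum_comm]
  refine Finset.sum_congr rfl fun S _ => ?_
  have h := gen_chi S x
  have h' : ∑ i : Fin n, (((chi S x : ℝ) : ℂ) - ((chi S (flip x i) : ℝ) : ℂ)) / 2 =
      (S.card : ℂ) * ((chi S x : ℝ) : ℂ) := by
    have := congrArg (fun r : ℝ => (r : ℂ)) h
    push_cast at this
    exact this
  calc ∑ i : Fin n, (Complex.exp (-(z * (S.card : ℂ))) * (co f S : ℂ) * (chi S x : ℂ) -
        Complex.exp (-(z * (S.card : ℂ))) * (co f S : ℂ) * (chi S (flip x i) : ℂ)) / 2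
      = (Complex.exp (-(z * (S.card : ℂ))) * (co f S : ℂ)) *
        ∑ i : Fin n, (((chi S x : ℝ) : ℂ) - ((chi S (flip x i) : ℝ) : ℂ)) / 2 := by
        rw [Finset.mul_sum]
        refine Finset.sum_congr rfl fun i _ => ?_
        ring
    _ = _ := by rw [h']; ring

lemma Fz_hasDerivAt {n : ℕ} (f : (Fin n → Bool) → ℝ) (e : ℂ) (x : Fin n → Bool) (r : ℝ) :
    HasDerivAt (fun r : ℝ => Fz f ((r : ℂ) * e) x)
      (-(e * ∑ i : Fin n, (Fz f ((r : ℂ) * e) x - Fz f ((r : ℂ) * e) (flip x i)) / 2)) r := by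
  rw [gen_Fz]
  unfold Fz
  have h1 : ∀ S : Finset (Fin n), HasDerivAt
      (fun r : ℝ => Complex.exp (-((r : ℂ) * e * (S.card : ℂ))) * (co f S : ℂ) * (chi S x : ℂ))
      (-(e * (S.card : ℂ)) * (Complex.exp (-((r : ℂ) * e * (S.card : ℂ))) * (co f S : ℂ) *
        (chi S x : ℂ))) r := by
    intro S
    have h2 : HasDerivAt (fun r : ℝ => -((r : ℂ) * e * (S.card : ℂ))) (-(1 * e * (S.card : ℂ))) r :=
      ((((Complex.ofRealCLM.hasDerivAt (x := r)).mul_const e).mul_const (S.card : ℂ)).neg)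
    have h3 := ((h2.cexp).mul_const (co f S : ℂ)).mul_const (chi S x : ℂ)
    refine h3.congr_deriv ?_
    ring
  have h4 := HasDerivAt.fun_sum (u := (Finset.univ : Finset (Finset (Fin n)))) (fun S _ => h1 S)
  refine h4.congr_deriv ?_
  rw [Finset.mul_sum, ← Finset.sum_neg_distrib]
  refine Finset.sum_congr rfl fun S _ => ?_
  ring

/-- the edge inequality -/
lemma edge {a b e : ℂ} {A B : ℝ} (hA : 0 < A) (hB : 0 < B) (he : ‖e‖ = 1) (hc : 0 < e.re) :
    -(e * (a - b) * ((A : ℂ) ^ 2 * (starRingEnd ℂ) a - (B : ℂ) ^ 2 * (starRingEnd ℂ) b)).re ≤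
      2 / e.re * (A - B) ^ 2 * (‖a‖ ^ 2 + ‖b‖ ^ 2) := by
  wlog h : B ≤ A generalizing a b A B with H
  · have := H (a := b) (b := a) hB hA (le_of_not_ge h)
    calc -(e * (a - b) * ((A : ℂ) ^ 2 * (starRingEnd ℂ) a - (B : ℂ) ^ 2 * (starRingEnd ℂ) b)).re
        = -(e * (b - a) * ((B : ℂ) ^ 2 * (starRingEnd ℂ) b -
            (A : ℂ) ^ 2 * (starRingEnd ℂ) a)).re := by
          congr 2; ring
      _ ≤ _ := this
      _ = _ := by ring
  have hc1 : e.re ≤ 1 := by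
    calc e.re ≤ |e.re| := le_abs_self _
      _ ≤ ‖e‖ := Complex.abs_re_le_norm e
      _ = 1 := he
  set c := e.re with hcdef
  set X := ‖a - b‖ with hX
  set Y := ‖a + b‖ with hY
  set D := A - B with hD
  have hD0 : 0 ≤ D := by rw [hD]; linarith
  have hX0 : 0 ≤ X := norm_nonneg _
  have hY0 : 0 ≤ Y := norm_nonneg _
  have hXle : X ≤ ‖a‖ + ‖b‖ := norm_sub_le a b
  have hY2 : Y ^ 2 ≤ 2 * (‖a‖ ^ 2 + ‖b‖ ^ 2) := by
    have h1 : Y ≤ ‖a‖ + ‖b‖ := norm_add_le a b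
    nlinarith [sq_nonneg (‖a‖ - ‖b‖), norm_nonneg a, norm_nonneg b]
  -- identity
  have hid : e * (a - b) * ((A : ℂ) ^ 2 * (starRingEnd ℂ) a - (B : ℂ) ^ 2 * (starRingEnd ℂ) b) =
      ((A * B : ℝ) : ℂ) * (e * ((a - b) * (starRingEnd ℂ) (a - b))) +
      e * (a - b) * ((D : ℂ) * ((D : ℂ) * (starRingEnd ℂ) a +
        (B : ℂ) * (starRingEnd ℂ) (a + b))) := by
    rw [hD]
    push_cast
    simp only [map_sub, map_add]
    ring
  have h1 : (((A * B : ℝ) : ℂ) * (e * ((a - b) * (starRingEnd ℂ) (a - b)))).re =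
      A * B * (c * X ^ 2) := by
    rw [Complex.re_ofReal_mul, Complex.mul_conj, Complex.normSq_eq_norm_sq, Complex.re_mul_ofReal]
  have h2 : -(e * (a - b) * ((D : ℂ) * ((D : ℂ) * (starRingEnd ℂ) a +
        (B : ℂ) * (starRingEnd ℂ) (a + b)))).re ≤ X * (D * (D * ‖a‖ + B * Y)) := by
    refine (neg_le_abs _).trans ((Complex.abs_re_le_norm _).trans ?_)
    rw [norm_mul, norm_mul, he, one_mul, norm_mul, Complex.norm_real, Real.norm_of_nonneg hD0]
    refine mul_le_mul_of_nonneg_left (mul_le_mul_of_nonneg_left ?_ hD0) hX0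
    refine (norm_add_le _ _).trans ?_
    rw [norm_mul, norm_mul, Complex.norm_real, Complex.norm_real, Real.norm_of_nonneg hD0,
      Real.norm_of_nonneg hB.le, Complex.norm_conj, Complex.norm_conj]
  rw [hid, Complex.add_re, h1]
  have h3 : X * (D * (D * ‖a‖ + B * Y)) ≤ A * B * (c * X ^ 2) +
      2 / c * D ^ 2 * (‖a‖ ^ 2 + ‖b‖ ^ 2) := by
    have e1 : X * ‖a‖ ≤ 3 / 2 * (‖a‖ ^ 2 + ‖b‖ ^ 2) := by
      nlinarith [sq_nonneg (‖a‖ - ‖b‖), norm_nonneg a, norm_nonneg b]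
    have e2 : D * B * X * Y ≤ c * B ^ 2 * X ^ 2 + D ^ 2 * Y ^ 2 / (4 * c) := by
      have : 0 ≤ (2 * c * B * X - D * Y) ^ 2 / (4 * c) := by positivity
      have e3 : (2 * c * B * X - D * Y) ^ 2 / (4 * c) =
          c * B ^ 2 * X ^ 2 - D * B * X * Y + D ^ 2 * Y ^ 2 / (4 * c) := by
        field_simp
        ring
      linarith
    have e4 : c * B ^ 2 * X ^ 2 ≤ A * B * (c * X ^ 2) := by
      have : 0 ≤ c * X ^ 2 * B * (A - B) := by
        have : 0 ≤ A - B := by linarith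
        positivity
      nlinarith
    have e5 : D ^ 2 * Y ^ 2 / (4 * c) ≤ D ^ 2 * (‖a‖ ^ 2 + ‖b‖ ^ 2) * (1 / (2 * c)) := by
      rw [div_le_iff₀ (by positivity)]
      have : D ^ 2 * (‖a‖ ^ 2 + ‖b‖ ^ 2) * (1 / (2 * c)) * (4 * c) =
          D ^ 2 * (2 * (‖a‖ ^ 2 + ‖b‖ ^ 2)) := by
        field_simp; ring
      rw [this]
      exact mul_le_mul_of_nonneg_left hY2 (sq_nonneg _)
    have e6 : (3 / 2 : ℝ) ≤ 3 / (2 * c) := by
      rw [div_le_div_iff₀ (by norm_num) (by positivity)]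
      nlinarith
    have e7 : D ^ 2 * (‖a‖ ^ 2 + ‖b‖ ^ 2) * (3 / 2) ≤
        D ^ 2 * (‖a‖ ^ 2 + ‖b‖ ^ 2) * (3 / (2 * c)) :=
      mul_le_mul_of_nonneg_left e6 (by positivity)
    have e8 : D ^ 2 * (‖a‖ ^ 2 + ‖b‖ ^ 2) * (3 / (2 * c)) +
        D ^ 2 * (‖a‖ ^ 2 + ‖b‖ ^ 2) * (1 / (2 * c)) = 2 / c * D ^ 2 * (‖a‖ ^ 2 + ‖b‖ ^ 2) := by
      field_simp; ring
    have e9 : D ^ 2 * (X * ‖a‖) ≤ D ^ 2 * (3 / 2 * (‖a‖ ^ 2 + ‖b‖ ^ 2)) :=
      mul_le_mul_of_nonneg_left e1 (sq_nonneg _)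
    nlinarith
  linarith

/-- weighted energy of a complex function -/
noncomputable def en {n : ℕ} (α : (Fin n → Bool) → ℝ) (g : (Fin n → Bool) → ℂ) : ℝ :=
  ∑ x, (α x) ^ 2 * ‖g x‖ ^ 2

lemma en_deriv_le {n : ℕ} {α : (Fin n → Bool) → ℝ} (hα : ∀ x, 0 < α x) {L : ℝ}
    (hcl : ∀ x, ∑ i : Fin n, (α x - α (flip x i)) ^ 2 ≤ L * (α x) ^ 2)
    (g : (Fin n → Bool) → ℂ) {e : ℂ} (he : ‖e‖ = 1) (hc : 0 < e.re) :
    ∑ x, (α x) ^ 2 * (2 * (-(e * ∑ i : Fin n, (g x - g (flip x i)) / 2) *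
      (starRingEnd ℂ) (g x)).re) ≤ 2 * L / e.re * en α g := by
  set Q : Fin n → (Fin n → Bool) → ℝ := fun i x =>
    -(e * (g x - g (flip x i)) * ((α x : ℂ) ^ 2 * (starRingEnd ℂ) (g x) -
      (α (flip x i) : ℂ) ^ 2 * (starRingEnd ℂ) (g (flip x i)))).re with hQ
  have h1 : ∑ x, (α x) ^ 2 * (2 * (-(e * ∑ i : Fin n, (g x - g (flip x i)) / 2) *
      (starRingEnd ℂ) (g x)).re) = ∑ i : Fin n, ∑ x, Q i x / 2 := by
    have e1 : ∀ x, (α x) ^ 2 * (2 * (-(e * ∑ i : Fin n, (g x - g (flip x i)) / 2) *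
      (starRingEnd ℂ) (g x)).re) = ∑ i : Fin n,
        -(e * (g x - g (flip x i)) * ((α x : ℂ) ^ 2 * (starRingEnd ℂ) (g x))).re := by
      intro x
      rw [Finset.mul_sum, ← Finset.sum_neg_distrib, Finset.sum_mul, Complex.re_sum,
        Finset.mul_sum, Finset.mul_sum]
      refine Finset.sum_congr rfl fun i _ => ?_
      have : e * (g x - g (flip x i)) * ((α x : ℂ) ^ 2 * (starRingEnd ℂ) (g x)) =
          (((α x) ^ 2 : ℝ) : ℂ) * (e * (g x - g (flip x i)) * (starRingEnd ℂ) (g x)) := by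
        push_cast; ring
      rw [this, Complex.re_ofReal_mul]
      have : -(e * ((g x - g (flip x i)) / 2)) * (starRingEnd ℂ) (g x) =
          ((-(1 / 2) : ℝ) : ℂ) * (e * (g x - g (flip x i)) * (starRingEnd ℂ) (g x)) := by
        push_cast; ring
      rw [this, Complex.re_ofReal_mul]
      ring
    rw [Finset.sum_congr rfl (fun x _ => e1 x), Finset.sum_comm]
    refine Finset.sum_congr rfl fun i _ => ?_
    -- symmetrise
    set P : (Fin n → Bool) → ℝ := fun x =>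
      -(e * (g x - g (flip x i)) * ((α x : ℂ) ^ 2 * (starRingEnd ℂ) (g x))).re with hP
    have e2 : ∑ x, P (flip x i) = ∑ x, P x := sum_flip i P
    have e3 : ∀ x, Q i x / 2 = (P x + P (flip x i)) / 2 := by
      intro x
      simp only [hQ, hP, flip_flip]
      rw [← neg_add, ← Complex.add_re]
      congr 3
      ring
    rw [Finset.sum_congr rfl (fun x _ => e3 x), ← Finset.sum_div, Finset.sum_add_distrib, e2]
    ring
  rw [h1]
  have h2 : ∀ i x, Q i x / 2 ≤ (1 / e.re) * ((α x - α (flip x i)) ^ 2 * ‖g x‖ ^ 2 +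
      (α x - α (flip x i)) ^ 2 * ‖g (flip x i)‖ ^ 2) := by
    intro i x
    have := edge (a := g x) (b := g (flip x i)) (hα x) (hα (flip x i)) he hc
    have e4 : (1 / e.re) * ((α x - α (flip x i)) ^ 2 * ‖g x‖ ^ 2 +
      (α x - α (flip x i)) ^ 2 * ‖g (flip x i)‖ ^ 2) =
      (2 / e.re * (α x - α (flip x i)) ^ 2 * (‖g x‖ ^ 2 + ‖g (flip x i)‖ ^ 2)) / 2 := by
      field_simp
    rw [e4]
    exact div_le_div_of_nonneg_right this (by norm_num)
  calc ∑ i : Fin n, ∑ x, Q i x / 2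
      ≤ ∑ i : Fin n, ∑ x, (1 / e.re) * ((α x - α (flip x i)) ^ 2 * ‖g x‖ ^ 2 +
      (α x - α (flip x i)) ^ 2 * ‖g (flip x i)‖ ^ 2) :=
        Finset.sum_le_sum fun i _ => Finset.sum_le_sum fun x _ => h2 i x
    _ = ∑ i : Fin n, (1 / e.re) * (2 * ∑ x, (α x - α (flip x i)) ^ 2 * ‖g x‖ ^ 2) := by
        refine Finset.sum_congr rfl fun i _ => ?_
        rw [← Finset.mul_sum, Finset.sum_add_distrib]
        congr 1
        have := sum_flip i (fun x => (α x - α (flip x i)) ^ 2 * ‖g x‖ ^ 2)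
        simp only [flip_flip] at this
        rw [two_mul]
        congr 1
        rw [← this]
        refine Finset.sum_congr rfl fun x _ => ?_
        ring
    _ = (2 / e.re) * ∑ x, (∑ i : Fin n, (α x - α (flip x i)) ^ 2) * ‖g x‖ ^ 2 := by
        simp_rw [Finset.sum_mul]
        rw [Finset.sum_comm, Finset.mul_sum]
        refine Finset.sum_congr rfl fun i _ => ?_
        ring
    _ ≤ (2 / e.re) * ∑ x, (L * (α x) ^ 2) * ‖g x‖ ^ 2 := by
        refine mul_le_mul_of_nonneg_left ?_ (by positivity)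
        exact Finset.sum_le_sum fun x _ => mul_le_mul_of_nonneg_right (hcl x) (sq_nonneg _)
    _ = 2 * L / e.re * en α g := by
        unfold en
        rw [Finset.mul_sum, Finset.mul_sum]
        refine Finset.sum_congr rfl fun x _ => ?_
        ring

/-- weighted energy estimate -/
theorem energy {n : ℕ} {α : (Fin n → Bool) → ℝ} (hα : ∀ x, 0 < α x) {L : ℝ}
    (hcl : ∀ x, ∑ i : Fin n, (α x - α (flip x i)) ^ 2 ≤ L * (α x) ^ 2)
    (f : (Fin n → Bool) → ℝ) {e : ℂ} (he : ‖e‖ = 1) (hc : 0 < e.re) {r : ℝ} (hr : 0 ≤ r) :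
    en α (Fz f ((r : ℂ) * e)) ≤ Real.exp (2 * L * r / e.re) * ∑ x, (α x) ^ 2 * (f x) ^ 2 := by
  set E : ℝ → ℝ := fun r => en α (Fz f ((r : ℂ) * e)) with hE
  have hder : ∀ r : ℝ, HasDerivAt E (∑ x, (α x) ^ 2 *
      (2 * (-(e * ∑ i : Fin n, (Fz f ((r : ℂ) * e) x - Fz f ((r : ℂ) * e) (flip x i)) / 2) *
      (starRingEnd ℂ) (Fz f ((r : ℂ) * e) x)).re)) r := by
    intro r
    have h1 : ∀ x, HasDerivAt (fun r : ℝ => (α x) ^ 2 * ‖Fz f ((r : ℂ) * e) x‖ ^ 2)
        ((α x) ^ 2 * (2 * (-(e * ∑ i : Fin n, (Fz f ((r : ℂ) * e) x -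
          Fz f ((r : ℂ) * e) (flip x i)) / 2) *
          (starRingEnd ℂ) (Fz f ((r : ℂ) * e) x)).re)) r := by
      intro x
      have h2 := ((Fz_hasDerivAt f e x r).norm_sq).const_mul ((α x) ^ 2)
      refine h2.congr_deriv ?_
      congr 2
    exact HasDerivAt.fun_sum (fun x _ => h1 x)
  set G : ℝ → ℝ := fun r => E r * Real.exp (-(2 * L / e.re) * r) with hG
  have hGder : ∀ r : ℝ, HasDerivAt G ((∑ x, (α x) ^ 2 *
      (2 * (-(e * ∑ i : Fin n, (Fz f ((r : ℂ) * e) x - Fz f ((r : ℂ) * e) (flip x i)) / 2) *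
      (starRingEnd ℂ) (Fz f ((r : ℂ) * e) x)).re)) * Real.exp (-(2 * L / e.re) * r) +
      E r * (Real.exp (-(2 * L / e.re) * r) * (-(2 * L / e.re)))) r := by
    intro r
    have h3 : HasDerivAt (fun r : ℝ => Real.exp (-(2 * L / e.re) * r))
        (Real.exp (-(2 * L / e.re) * r) * (-(2 * L / e.re))) r := by
      have := ((hasDerivAt_id r).const_mul (-(2 * L / e.re))).exp
      simpa using this
    exact (hder r).mul h3
  have hanti : Antitone G := by
    refine antitone_of_deriv_nonpos (fun r => (hGder r).differentiableAt) ?_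
    intro r
    rw [(hGder r).deriv]
    have h4 := en_deriv_le hα hcl (Fz f ((r : ℂ) * e)) he hc
    have h5 : (0 : ℝ) < Real.exp (-(2 * L / e.re) * r) := Real.exp_pos _
    have h6 : E r = en α (Fz f ((r : ℂ) * e)) := rfl
    rw [h6]
    nlinarith
  have h7 := hanti hr
  simp only [hG] at h7
  have h8 : E 0 = ∑ x, (α x) ^ 2 * (f x) ^ 2 := by
    simp only [hE, en]
    refine Finset.sum_congr rfl fun x _ => ?_
    rw [Complex.ofReal_zero, zero_mul, Fz_zero, Complex.norm_real, Real.norm_eq_abs, sq_abs]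
  rw [h8, mul_zero, Real.exp_zero, mul_one] at h7
  have h9 : en α (Fz f ((r : ℂ) * e)) =
      Real.exp (2 * L * r / e.re) * (E r * Real.exp (-(2 * L / e.re) * r)) := by
    have : Real.exp (2 * L * r / e.re) * Real.exp (-(2 * L / e.re) * r) = 1 := by
      rw [← Real.exp_add]
      have : 2 * L * r / e.re + -(2 * L / e.re) * r = 0 := by ring
      rw [this, Real.exp_zero]
    calc en α (Fz f ((r : ℂ) * e)) = E r * 1 := by rw [mul_one]
      _ = E r * (Real.exp (2 * L * r / e.re) * Real.exp (-(2 * L / e.re) * r)) := by rw [this]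
      _ = _ := by ring
  rw [h9]
  exact mul_le_mul_of_nonneg_left h7 (Real.exp_pos _).le

end Pool.Agent.H81.HS
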