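import Mathlib

set_option autoImplicit false

/-! Elementary summation lemmas over dyadic levels. -/

namespace Pool.Agent.H81.HS

open Finset

lemma geo1 {c M : ℝ} (hc : 0 < c) (hM : 0 ≤ M) (J : ℕ) :
    ∑ j ∈ range J, (if c * 2 ^ j ≤ M then c * 2 ^ j else 0) ≤ 2 * M := by
  have h : ∀ J : ℕ, ∑ j ∈ range J, (if c * 2 ^ j ≤ M then c * 2 ^ j else 0) ≤ 2 * M ∧
      ∑ j ∈ range J, (if c * 2 ^ j ≤ M then c * 2 ^ j else 0) ≤ c * 2 ^ J := by
    intro J
    induction J with
    | zero => simp; exact ⟨hM, hc.le⟩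
    | succ J ih =>
      rw [Finset.sum_range_succ]
      split_ifs with h1
      · constructor
        · linarith [ih.2]
        · rw [pow_succ]; linarith [ih.2]
      · constructor
        · linarith [ih.1]
        · have : 0 < c * 2 ^ J := by positivity
          rw [pow_succ]; linarith [ih.2]
  exact (h J).1

lemma geo2 {c M s : ℝ} (hc : 0 < c) (hM : 0 < M) (hs : 0 < s) (J : ℕ) :
    ∑ j ∈ range J, (if c * 2 ^ j ≤ M then 0 else (M / (c * 2 ^ j)) ^ s) ≤
      1 / (1 - (1 / 2 : ℝ) ^ s) := by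
  set ρ : ℝ := (1 / 2 : ℝ) ^ s with hρ
  have hρ0 : 0 < ρ := by positivity
  have hρ1 : ρ < 1 := Real.rpow_lt_one (by norm_num) (by norm_num) hs
  set y : ℕ → ℝ := fun j => (M / (c * 2 ^ j)) ^ s with hy
  have hy0 : ∀ j, 0 < y j := fun j => by simp only [hy]; positivity
  have hys : ∀ j, y (j + 1) = ρ * y j := by
    intro j
    simp only [hy, hρ]
    rw [← Real.mul_rpow (by norm_num) (by positivity)]
    congr 1
    rw [pow_succ]; field_simp
  have h : ∀ J : ℕ, ∑ j ∈ range J, (if c * 2 ^ j ≤ M then 0 else y j) ≤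
      1 / (1 - ρ) - 1 / (1 - ρ) * min 1 (y J) := by
    intro J
    have h1ρ : 0 < 1 / (1 - ρ) := by
      have : 0 < 1 - ρ := by linarith
      positivity
    induction J with
    | zero =>
      simp only [range_zero, sum_empty]
      have : min 1 (y 0) ≤ 1 := min_le_left _ _
      nlinarith
    | succ J ih =>
      rw [Finset.sum_range_succ]
      split_ifs with h1
      · have h2 : 1 ≤ y J := by
          simp only [hy]
          refine Real.one_le_rpow ?_ hs.le
          rw [le_div_iff₀ (by positivity), one_mul]; exact h1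
        rw [min_eq_left h2, mul_one, sub_self] at ih
        have h3 : min 1 (y (J + 1)) ≤ 1 := min_le_left _ _
        nlinarith
      · push Not at h1
        have h2 : y J < 1 := by
          simp only [hy]
          refine Real.rpow_lt_one (by positivity) ?_ hs
          rw [div_lt_one (by positivity)]; exact h1
        rw [min_eq_right h2.le] at ih
        have h3 : y (J + 1) < 1 := by
          rw [hys]; nlinarith [hy0 J]
        rw [min_eq_right h3.le, hys]
        have h4 : 1 / (1 - ρ) * (ρ * y J) = 1 / (1 - ρ) * y J - y J := by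
          have : 1 - ρ ≠ 0 := by linarith
          field_simp
          ring
        rw [h4]
        linarith
  have h2 := h J
  have h3 : 0 ≤ 1 / (1 - ρ) * min 1 (y J) := by
    have : 0 < 1 - ρ := by linarith
    have := hy0 J
    positivity
  linarith

/-- level sum lemma -/
lemma level_sum {c θ r : ℝ} (hc : 0 < c) (hθ0 : 0 < θ) (hθ1 : θ < 1) (hr : 1 ≤ r) (J : ℕ)
    (g : ℕ → ℝ) (hg0 : ∀ j, 0 ≤ g j) (hg1 : ∀ j, g j ≤ 1) :
    (∑ j ∈ range J, c * 2 ^ j * g j) ^ r ≤
      (2 + 1 / (1 - (1 / 2 : ℝ) ^ (1 / θ - 1))) ^ r *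
        ∑ j ∈ range J, (c * 2 ^ j) ^ r * (g j) ^ (θ * r) := by
  have hr0 : 0 < r := by linarith
  set s := 1 / θ - 1 with hs
  have hs0 : 0 < s := by
    rw [hs]
    have : 1 < 1 / θ := by rw [lt_div_iff₀ hθ0]; linarith
    linarith
  set C := 2 + 1 / (1 - (1 / 2 : ℝ) ^ s) with hC
  have hρ1 : (1 / 2 : ℝ) ^ s < 1 := Real.rpow_lt_one (by norm_num) (by norm_num) hs0
  have hC0 : 0 < C := by
    have : 0 < 1 - (1 / 2 : ℝ) ^ s := by linarith
    positivity
  set Q := ∑ j ∈ range J, (c * 2 ^ j) ^ r * (g j) ^ (θ * r) with hQ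
  have hQ0 : 0 ≤ Q := Finset.sum_nonneg fun j _ => by
    have := hg0 j; positivity
  set M := Q ^ (1 / r) with hM
  have hM0 : 0 ≤ M := by positivity
  have hMr : M ^ r = Q := by
    rw [hM, ← Real.rpow_mul hQ0, one_div_mul_cancel hr0.ne', Real.rpow_one]
  have hterm : ∀ j ∈ range J, c * 2 ^ j * (g j) ^ θ ≤ M := by
    intro j hj
    have h1 : (c * 2 ^ j * (g j) ^ θ) ^ r ≤ Q := by
      rw [Real.mul_rpow (by positivity) (by have := hg0 j; positivity), ← Real.rpow_mul (hg0 j)]
      exact Finset.single_le_sum (f := fun j => (c * 2 ^ j) ^ r * (g j) ^ (θ * r))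
        (fun i _ => by have := hg0 i; positivity) hj
    rw [← hMr] at h1
    exact (Real.rpow_le_rpow_iff (by have := hg0 j; positivity) hM0 hr0).mp h1
  rcases hM0.eq_or_lt with h | h
  · -- all terms vanish
    have hz : ∀ j ∈ range J, g j = 0 := by
      intro j hj
      have h1 := hterm j hj
      rw [← h] at h1
      have h2 : 0 ≤ (g j) ^ θ := Real.rpow_nonneg (hg0 j) _
      have h3 : (g j) ^ θ = 0 := by
        have hcj : 0 < c * 2 ^ j := by positivity
        by_contra hne
        have : 0 < (g j) ^ θ := lt_of_le_of_ne h2 (Ne.symm hne)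
        have : 0 < c * 2 ^ j * (g j) ^ θ := by positivity
        linarith
      exact (Real.rpow_eq_zero (hg0 j) hθ0.ne').mp h3
    have : ∑ j ∈ range J, c * 2 ^ j * g j = 0 :=
      Finset.sum_eq_zero fun j hj => by rw [hz j hj, mul_zero]
    rw [this, Real.zero_rpow hr0.ne']
    positivity
  · have hsum : ∑ j ∈ range J, c * 2 ^ j * g j ≤ C * M := by
      have h1 : ∀ j ∈ range J, c * 2 ^ j * g j ≤
          (if c * 2 ^ j ≤ M then c * 2 ^ j else 0) +
          M * (if c * 2 ^ j ≤ M then 0 else (M / (c * 2 ^ j)) ^ s) := by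
        intro j hj
        have hcj : 0 < c * 2 ^ j := by positivity
        split_ifs with h2
        · rw [mul_zero, add_zero]
          exact mul_le_of_le_one_right hcj.le (hg1 j)
        · rw [zero_add]
          have h3 : (g j) ^ θ ≤ M / (c * 2 ^ j) := by
            rw [le_div_iff₀ hcj, mul_comm]; exact hterm j hj
          have h4 : g j ≤ (M / (c * 2 ^ j)) ^ (1 / θ) := by
            calc g j = ((g j) ^ θ) ^ (1 / θ) := by
                  rw [← Real.rpow_mul (hg0 j), mul_one_div_cancel hθ0.ne', Real.rpow_one]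
              _ ≤ _ := Real.rpow_le_rpow (Real.rpow_nonneg (hg0 j) _) h3 (by positivity)
          calc c * 2 ^ j * g j ≤ c * 2 ^ j * (M / (c * 2 ^ j)) ^ (1 / θ) :=
                mul_le_mul_of_nonneg_left h4 hcj.le
            _ = M * (M / (c * 2 ^ j)) ^ s := by
                rw [show 1 / θ = 1 + s by rw [hs]; ring, Real.rpow_add (by positivity),
                  Real.rpow_one]
                field_simp
      calc ∑ j ∈ range J, c * 2 ^ j * g j
          ≤ ∑ j ∈ range J, ((if c * 2 ^ j ≤ M then c * 2 ^ j else 0) +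
          M * (if c * 2 ^ j ≤ M then 0 else (M / (c * 2 ^ j)) ^ s)) := Finset.sum_le_sum h1
        _ ≤ 2 * M + M * (1 / (1 - (1 / 2 : ℝ) ^ s)) := by
            rw [Finset.sum_add_distrib, ← Finset.mul_sum]
            exact add_le_add (geo1 hc hM0 J) (mul_le_mul_of_nonneg_left (geo2 hc h hs0 J) hM0)
        _ = C * M := by rw [hC]; ring
    have h0 : 0 ≤ ∑ j ∈ range J, c * 2 ^ j * g j :=
      Finset.sum_nonneg fun j _ => by have := hg0 j; positivity
    calc (∑ j ∈ range J, c * 2 ^ j * g j) ^ r ≤ (C * M) ^ r := Real.rpow_le_rpow h0 hsum hr0.le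
      _ = C ^ r * Q := by rw [Real.mul_rpow hC0.le hM0, hMr]

/-- dyadic layer-cake upper bound -/
lemma layer {c W : ℝ} (J : ℕ) (hJ : W ≤ c * 2 ^ J) :
    W ≤ c + ∑ j ∈ range J, c * 2 ^ j * (if c * 2 ^ j < W then (1:ℝ) else 0) := by
  have h : ∀ J : ℕ, min W (c * 2 ^ J) ≤
      c + ∑ j ∈ range J, c * 2 ^ j * (if c * 2 ^ j < W then (1:ℝ) else 0) := by
    intro J
    induction J with
    | zero => simp
    | succ J ih =>
      rw [Finset.sum_range_succ]
      split_ifs with h1
      · rw [min_eq_right h1.le] at ih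
        have : min W (c * 2 ^ (J + 1)) ≤ c * 2 ^ (J + 1) := min_le_right _ _
        rw [pow_succ] at this ⊢
        linarith
      · push Not at h1
        rw [min_eq_left h1] at ih
        have : min W (c * 2 ^ (J + 1)) ≤ W := min_le_left _ _
        linarith
  have h2 := h J
  rwa [min_eq_left hJ] at h2

/-- converse bound for powers -/
lemma layer_rpow {c W r : ℝ} (hc : 0 < c) (hW : 0 ≤ W) (hr : 1 ≤ r) (J : ℕ) :
    ∑ j ∈ range J, (c * 2 ^ j) ^ r * (if c * 2 ^ j < W then (1:ℝ) else 0) ≤ 2 * W ^ r := by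
  have h1 : ∀ j ∈ range J, (c * 2 ^ j) ^ r * (if c * 2 ^ j < W then (1:ℝ) else 0) ≤
      W ^ (r - 1) * (if c * 2 ^ j ≤ W then c * 2 ^ j else 0) := by
    intro j _
    have hcj : 0 < c * 2 ^ j := by positivity
    by_cases h : c * 2 ^ j < W
    · rw [if_pos h, if_pos h.le, mul_one]
      calc (c * 2 ^ j) ^ r = (c * 2 ^ j) ^ (r - 1) * (c * 2 ^ j) := by
            rw [← Real.rpow_add_one hcj.ne']; congr 1; ring
        _ ≤ W ^ (r - 1) * (c * 2 ^ j) :=
            mul_le_mul_of_nonneg_right (Real.rpow_le_rpow hcj.le h.le (by linarith)) hcj.le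
    · rw [if_neg h, mul_zero]
      split_ifs <;> positivity
  calc _ ≤ ∑ j ∈ range J, W ^ (r - 1) * (if c * 2 ^ j ≤ W then c * 2 ^ j else 0) :=
        Finset.sum_le_sum h1
    _ = W ^ (r - 1) * ∑ j ∈ range J, (if c * 2 ^ j ≤ W then c * 2 ^ j else 0) := by
        rw [Finset.mul_sum]
    _ ≤ W ^ (r - 1) * (2 * W) := mul_le_mul_of_nonneg_left (geo1 hc hW J) (by positivity)
    _ = 2 * W ^ r := by
        rcases hW.eq_or_lt with h | h
        · rw [← h, Real.zero_rpow (by linarith : r ≠ 0)]; ring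
        · rw [show r = (r - 1) + 1 by ring, Real.rpow_add_one h.ne']; ring_nf

end Pool.Agent.H81.HS
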