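import Pool.Agent.H81.HS.Basic

set_option autoImplicit false

/-! Pointwise gradient estimate for the logarithm of the noise operator. -/

namespace Pool.Agent.H81.HS

open Finset

/-- one-site kernel weights -/
noncomputable def kap {n : ℕ} (w : ℝ) (x : Fin n → Bool) (i : Fin n) (b : Bool) : ℝ :=
  (1 + w * (sg (x i) * sg b)) / 2

lemma kap_pos {n : ℕ} {w : ℝ} (h0 : 0 < w) (h1 : w < 1) (x : Fin n → Bool) (i : Fin n) (b : Bool) :
    0 < kap w x i b := by
  unfold kap
  cases hx : x i <;> cases b <;> simp [sg] <;> linarith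

lemma ker_eq {n : ℕ} (w : ℝ) (x y : Fin n → Bool) : ker w x y = ∏ i, kap w x i (y i) := rfl

lemma ker_pos {n : ℕ} {w : ℝ} (h0 : 0 < w) (h1 : w < 1) (x y : Fin n → Bool) :
    0 < ker w x y := by
  rw [ker_eq]
  exact Finset.prod_pos fun i _ => kap_pos h0 h1 x i (y i)

lemma ker_flip {n : ℕ} {w : ℝ} (h0 : 0 < w) (h1 : w < 1) (x y : Fin n → Bool) (i : Fin n) :
    ker w (flip x i) y = ker w x y * ((1 - w * (sg (x i) * sg (y i))) / (1 + w * (sg (x i) * sg (y i)))) := by
  rw [ker_eq, ker_eq, ← Finset.mul_prod_erase univ _ (Finset.mem_univ i),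
    ← Finset.mul_prod_erase univ (fun j => kap w x j (y j)) (Finset.mem_univ i)]
  have h2 : ∀ j ∈ univ.erase i, kap w (flip x i) j (y j) = kap w x j (y j) := by
    intro j hj
    unfold kap
    rw [flip_ne x i j (Finset.ne_of_mem_erase hj)]
  rw [Finset.prod_congr rfl h2]
  have h3 : kap w (flip x i) i (y i) = kap w x i (y i) *
      ((1 - w * (sg (x i) * sg (y i))) / (1 + w * (sg (x i) * sg (y i)))) := by
    unfold kap
    rw [flip_same, sg_not]
    have h4 := kap_pos h0 h1 x i (y i)
    unfold kap at h4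
    have h5 : 1 + w * (sg (x i) * sg (y i)) ≠ 0 := by
      intro h; rw [h] at h4; norm_num at h4
    have h6 : -sg (x i) * sg (y i) = -(sg (x i) * sg (y i)) := by ring
    rw [h6]
    generalize sg (x i) * sg (y i) = ε at h5 ⊢
    field_simp
    ring
  rw [h3]; ring

lemma sqrt_mix {s v : ℝ} (hs0 : 0 ≤ s) (hs1 : s ≤ 1) (hv : 0 ≤ v) :
    (1 - s) + s * Real.sqrt v ≤ Real.sqrt (1 - s + s * v) := by
  have hy := Real.sqrt_nonneg v
  have hy2 := Real.sq_sqrt hv
  refine Real.le_sqrt_of_sq_le ?_
  have : 0 ≤ s * (1 - s) * (1 - Real.sqrt v) ^ 2 := by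
    have : 0 ≤ 1 - s := by linarith
    positivity
  nlinarith

/-- two-point entropy lower bound -/
lemma ent_ge {q k : ℝ} (hq : 0 ≤ q) (hk : 0 < k) :
    q - k + (Real.sqrt q - Real.sqrt k) ^ 2 ≤ q * Real.log (q / k) := by
  rcases hq.eq_or_lt with h | h
  · rw [← h]; simp [Real.sq_sqrt hk.le]
  · have hsk : 0 < Real.sqrt k := Real.sqrt_pos.mpr hk
    have hsq : 0 < Real.sqrt q := Real.sqrt_pos.mpr h
    set a := Real.sqrt q with ha
    set b := Real.sqrt k with hb
    have hqa : q = a ^ 2 := (Real.sq_sqrt hq).symm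
    have hkb : k = b ^ 2 := (Real.sq_sqrt hk.le).symm
    rw [hqa, hkb]
    have h1 : Real.log (a ^ 2 / b ^ 2) = 2 * Real.log (a / b) := by
      rw [← div_pow, Real.log_pow]; push_cast; ring
    rw [h1]
    have h2 : 1 - (a / b)⁻¹ ≤ Real.log (a / b) := Real.one_sub_inv_le_log_of_pos (by positivity)
    rw [inv_div] at h2
    have h3 : a ^ 2 * (2 * (1 - b / a)) ≤ a ^ 2 * (2 * Real.log (a / b)) := by
      have : 0 ≤ a ^ 2 := sq_nonneg _
      nlinarith
    have h4 : a ^ 2 * (2 * (1 - b / a)) = 2 * a ^ 2 - 2 * a * b := by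
      field_simp
    nlinarith

/-- the main gradient estimate -/
theorem grad {n : ℕ} {w : ℝ} (h0 : 0 < w) (h1 : w < 1) {g : (Fin n → Bool) → ℝ}
    (hg0 : ∀ y, 0 ≤ g y) (hg1 : ∀ y, g y ≤ 1) (x : Fin n → Bool) (hx : 0 < T w g x) :
    ∑ i : Fin n, (1 - Real.sqrt (T w g (flip x i) / T w g x)) ^ 2 ≤
      4 * w / (1 - w ^ 2) * Real.log (1 / T w g x) := by
  set h := T w g x with hh
  set q : (Fin n → Bool) → ℝ := fun y => ker w x y * g y / h with hq
  have hq0 : ∀ y, 0 ≤ q y := fun y =>
    div_nonneg (mul_nonneg (ker_nonneg h0.le h1.le x y) (hg0 y)) hx.le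
  have hqsum : ∑ y, q y = 1 := by
    simp only [hq]
    rw [← Finset.sum_div]
    exact div_self hx.ne'
  set Q : Fin n → Bool → ℝ := fun i b => ∑ y, if y i = b then q y else 0 with hQ
  have hQ0 : ∀ i b, 0 ≤ Q i b := fun i b => Finset.sum_nonneg fun y _ => by
    split_ifs
    · exact hq0 y
    · exact le_rfl
  have hQsum : ∀ i, Q i false + Q i true = 1 := by
    intro i
    simp only [hQ]
    rw [← Finset.sum_add_distrib, ← hqsum]
    refine Finset.sum_congr rfl fun y _ => ?_
    cases y i <;> simp
  have hQpos : ∀ i y, 0 < q y → 0 < Q i (y i) := by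
    intro i y hy
    refine lt_of_lt_of_le hy ?_
    have := Finset.single_le_sum (f := fun z => if z i = y i then q z else 0)
      (fun z _ => by split_ifs; exacts [hq0 z, le_rfl]) (Finset.mem_univ y)
    simpa using this
  -- Gibbs
  have hgibbs : ∀ y, q y - ∏ i, Q i (y i) ≤
      q y * (Real.log (1 / h) - ∑ i, Real.log (Q i (y i) / kap w x i (y i))) := by
    intro y
    rcases (hq0 y).eq_or_lt with hy | hy
    · rw [← hy, zero_mul, zero_sub, neg_nonpos]
      exact Finset.prod_nonneg fun i _ => hQ0 i _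
    · have hP : 0 < ∏ i, Q i (y i) := Finset.prod_pos fun i _ => hQpos i y hy
      have hk : 0 < ker w x y := ker_pos h0 h1 x y
      have e1 : ∑ i, Real.log (Q i (y i) / kap w x i (y i)) =
          Real.log ((∏ i, Q i (y i)) / ker w x y) := by
        rw [ker_eq, ← Finset.prod_div_distrib, Real.log_prod]
        intro i _
        exact (div_pos (hQpos i y hy) (kap_pos h0 h1 x i (y i))).ne'
      rw [e1]
      have e2 : Real.log (q y / ker w x y) ≤ Real.log (1 / h) := by
        refine Real.log_le_log (div_pos hy hk) ?_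
        rw [div_le_div_iff₀ hk hx]
        simp only [hq]
        rw [div_mul_cancel₀ _ hx.ne', one_mul]
        exact mul_le_of_le_one_right hk.le (hg1 y)
      have e3 : Real.log (q y / ker w x y) - Real.log ((∏ i, Q i (y i)) / ker w x y) =
          Real.log (q y / ∏ i, Q i (y i)) := by
        rw [Real.log_div hy.ne' hk.ne', Real.log_div hP.ne' hk.ne', Real.log_div hy.ne' hP.ne']
        ring
      have e4 : 1 - (q y / ∏ i, Q i (y i))⁻¹ ≤ Real.log (q y / ∏ i, Q i (y i)) :=
        Real.one_sub_inv_le_log_of_pos (div_pos hy hP)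
      rw [inv_div] at e4
      have e5 : q y * (1 - (∏ i, Q i (y i)) / q y) = q y - ∏ i, Q i (y i) := by
        field_simp
      rw [← e5]
      refine mul_le_mul_of_nonneg_left ?_ hy.le
      linarith
  have hsum := Finset.sum_le_sum (s := univ) (fun y _ => hgibbs y)
  rw [Finset.sum_sub_distrib, hqsum] at hsum
  have hprod : ∑ y : Fin n → Bool, ∏ i, Q i (y i) = 1 := by
    rw [sum_prod_cube (fun i b => Q i b)]
    exact Finset.prod_eq_one fun i _ => hQsum i
  rw [hprod, sub_self] at hsum
  have hexp : ∑ y, q y * (Real.log (1 / h) - ∑ i, Real.log (Q i (y i) / kap w x i (y i))) =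
      Real.log (1 / h) - ∑ i, (Q i false * Real.log (Q i false / kap w x i false) +
        Q i true * Real.log (Q i true / kap w x i true)) := by
    simp_rw [mul_sub]
    rw [Finset.sum_sub_distrib, ← Finset.sum_mul, hqsum, one_mul]
    congr 1
    simp_rw [Finset.mul_sum]
    rw [Finset.sum_comm]
    refine Finset.sum_congr rfl fun i _ => ?_
    simp only [hQ]
    rw [Finset.sum_mul, Finset.sum_mul, ← Finset.sum_add_distrib]
    refine Finset.sum_congr rfl fun y _ => ?_
    cases hyi : y i <;> simp
  rw [hexp] at hsum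
  -- per coordinate
  have hcoord : ∀ i, (1 - Real.sqrt (T w g (flip x i) / h)) ^ 2 ≤
      4 * w / (1 - w ^ 2) * (Q i false * Real.log (Q i false / kap w x i false) +
        Q i true * Real.log (Q i true / kap w x i true)) := by
    intro i
    have hkf := kap_pos h0 h1 x i false
    have hkt := kap_pos h0 h1 x i true
    have e1 := ent_ge (hQ0 i false) hkf
    have e2 := ent_ge (hQ0 i true) hkt
    have hksum : kap w x i false + kap w x i true = 1 := by
      unfold kap; simp [sg]; ring
    have e3 : ∀ b : Bool, (Real.sqrt (Q i b) - Real.sqrt (kap w x i b)) ^ 2 ≤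
        Q i false * Real.log (Q i false / kap w x i false) +
        Q i true * Real.log (Q i true / kap w x i true) := by
      intro b
      have s1 := sq_nonneg (Real.sqrt (Q i false) - Real.sqrt (kap w x i false))
      have s2 := sq_nonneg (Real.sqrt (Q i true) - Real.sqrt (kap w x i true))
      have := hQsum i
      cases b <;> linarith
    -- ratio
    have hratio : T w g (flip x i) / h = Q i (x i) * ((1 - w) / (1 + w)) +
        Q i (!x i) * ((1 + w) / (1 - w)) := by
      simp only [hQ]
      rw [Finset.sum_mul, Finset.sum_mul, ← Finset.sum_add_distrib]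
      unfold T
      rw [Finset.sum_div]
      refine Finset.sum_congr rfl fun y _ => ?_
      rw [ker_flip h0 h1]
      simp only [hq]
      have hw1 : 1 + w ≠ 0 := by positivity
      have hw2 : 1 - w ≠ 0 := by linarith
      have hw3 : 1 + -w ≠ 0 := by intro h; apply hw2; linarith
      cases hxi : x i <;> cases hyi : y i <;> simp [sg] <;> field_simp <;> ring
    set u : ℝ := (1 - w) / 2 with hu
    have hu0 : 0 < u := by rw [hu]; linarith
    have hku : kap w x i (!x i) = u := by
      unfold kap
      rw [hu]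
      cases hxi : x i <;> simp [sg] <;> ring
    have e4 := e3 (!x i)
    rw [hku] at e4
    set v : ℝ := Q i (!x i) / u with hv
    have hv0 : 0 ≤ v := div_nonneg (hQ0 i _) hu0.le
    set s : ℝ := 2 * w / (1 + w) with hs
    have hs0 : 0 ≤ s := by rw [hs]; positivity
    have hs1 : s ≤ 1 := by
      rw [hs, div_le_one (by positivity)]; linarith
    have hQx : Q i (x i) = 1 - Q i (!x i) := by
      have := hQsum i
      cases x i <;> simp <;> linarith
    have hρ : T w g (flip x i) / h = 1 - s + s * v := by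
      rw [hratio, hQx, hs, hv, hu]
      have hw1 : 1 + w ≠ 0 := by positivity
      have hw2 : 1 - w ≠ 0 := by linarith
      field_simp
      ring
    have hρ0 : 0 ≤ 1 - s + s * v := by nlinarith
    rw [hρ]
    have e5 := sqrt_mix hs0 hs1 hv0
    have e6 : (1 - Real.sqrt (1 - s + s * v)) ^ 2 ≤ s * (1 - Real.sqrt v) ^ 2 := by
      have := Real.sq_sqrt hρ0
      have := Real.sq_sqrt hv0
      nlinarith
    have e7 : s * (1 - Real.sqrt v) ^ 2 = s / u * (Real.sqrt (Q i (!x i)) - Real.sqrt u) ^ 2 := by
      rw [hv, Real.sqrt_div' _ hu0.le]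
      have : Real.sqrt u ≠ 0 := (Real.sqrt_pos.mpr hu0).ne'
      have h5 : u = Real.sqrt u ^ 2 := (Real.sq_sqrt hu0.le).symm
      set su := Real.sqrt u with hsu
      rw [h5]
      field_simp
      ring
    have e8 : s / u = 4 * w / (1 - w ^ 2) := by
      rw [hs, hu]
      have hw1 : 1 + w ≠ 0 := by positivity
      have hw2 : 1 - w ≠ 0 := by linarith
      have hw3 : 1 - w ^ 2 ≠ 0 := by nlinarith
      field_simp
      ring
    rw [e7, e8] at e6
    refine e6.trans (mul_le_mul_of_nonneg_left e4 ?_)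
    have : 0 < 1 - w ^ 2 := by nlinarith
    positivity
  calc ∑ i : Fin n, (1 - Real.sqrt (T w g (flip x i) / h)) ^ 2
      ≤ ∑ i, 4 * w / (1 - w ^ 2) * (Q i false * Real.log (Q i false / kap w x i false) +
        Q i true * Real.log (Q i true / kap w x i true)) :=
        Finset.sum_le_sum fun i _ => hcoord i
    _ = 4 * w / (1 - w ^ 2) * ∑ i, (Q i false * Real.log (Q i false / kap w x i false) +
        Q i true * Real.log (Q i true / kap w x i true)) := by rw [Finset.mul_sum]
    _ ≤ 4 * w / (1 - w ^ 2) * Real.log (1 / h) := by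
        refine mul_le_mul_of_nonneg_left (by linarith) ?_
        have : 0 < 1 - w ^ 2 := by nlinarith
        positivity

end Pool.Agent.H81.HS
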