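import Pool.Agent.H81.HS.Scale
import Pool.Agent.H81.HS.Geom

set_option autoImplicit false

/-! Estimates for one level set. -/

namespace Pool.Agent.H81.HS

open Finset

lemma log3_half_pos : 0 < Real.log 3 / 2 := by
  have : 0 < Real.log 3 := Real.log_pos (by norm_num)
  positivity

lemma log3_half_le : Real.log 3 / 2 ≤ 1 := by
  have h : Real.log 3 ≤ 2 := by
    have := Real.log_le_sub_one_of_pos (show (0:ℝ) < 3 by norm_num)
    linarith
  linarith

/-- smoothing of tiny sets -/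
lemma tiny {n : ℕ} {A : Finset (Fin n → Bool)} {t M : ℝ} (ht : 0 < t)
    (hM : 0 ≤ M) (hA : (A.card : ℝ) ≤ 2 ^ n * Real.exp (-M)) :
    ∑ x, (T (Real.exp (-t)) (ind A) x) ^ 2 ≤ Real.exp (-(M / 2 * min 1 t)) * A.card := by
  set τ := Real.log 3 / 2 with hτ
  have hτ0 : 0 < τ := log3_half_pos
  have hτ1 : τ ≤ 1 := log3_half_le
  set X := ∑ x, (T (Real.exp (-τ)) (ind A) x) ^ 2 with hX
  have hX0 : 0 ≤ X := Finset.sum_nonneg fun x _ => sq_nonneg _
  have hw : (Real.exp (-τ)) ^ 2 = 1 / 3 := by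
    rw [← Real.exp_nat_mul, hτ]
    have : ((2:ℕ):ℝ) * -(Real.log 3 / 2) = - Real.log 3 := by push_cast; ring
    rw [this, Real.exp_neg, Real.exp_log (by norm_num)]
    norm_num
  have h1 : 2 ^ n * X ^ 2 ≤ (A.card : ℝ) ^ 3 := small_set hw A
  have hN : (0:ℝ) ≤ A.card := Nat.cast_nonneg _
  have hp : (0:ℝ) < 2 ^ n := by positivity
  have h2 : X ≤ Real.exp (-(M / 2)) * A.card := by
    have h3 : X ^ 2 ≤ (Real.exp (-(M / 2)) * A.card) ^ 2 := by
      have h4 : 2 ^ n * X ^ 2 ≤ 2 ^ n * (Real.exp (-(M / 2)) * A.card) ^ 2 := by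
        calc 2 ^ n * X ^ 2 ≤ (A.card : ℝ) ^ 3 := h1
          _ = A.card * (A.card : ℝ) ^ 2 := by ring
          _ ≤ (2 ^ n * Real.exp (-M)) * (A.card : ℝ) ^ 2 :=
              mul_le_mul_of_nonneg_right hA (sq_nonneg _)
          _ = _ := by
              rw [mul_pow, ← Real.exp_nat_mul]
              have : ((2:ℕ):ℝ) * -(M / 2) = -M := by push_cast; ring
              rw [this]; ring
      exact le_of_mul_le_mul_left h4 hp
    exact (pow_le_pow_iff_left₀ hX0 (by positivity) two_ne_zero).mp h3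
  by_cases h : t < τ
  · have h3 := logconv ht h (ind A)
    rw [sum_ind_sq] at h3
    refine h3.trans ?_
    have hr0 : 0 < t / τ := by positivity
    have h4 : X ^ (t / τ) ≤ (Real.exp (-(M / 2)) * A.card) ^ (t / τ) :=
      Real.rpow_le_rpow hX0 h2 hr0.le
    calc X ^ (t / τ) * (A.card : ℝ) ^ (1 - t / τ)
        ≤ (Real.exp (-(M / 2)) * A.card) ^ (t / τ) * (A.card : ℝ) ^ (1 - t / τ) :=
          mul_le_mul_of_nonneg_right h4 (by positivity)
      _ = Real.exp (-(M / 2) * (t / τ)) * A.card := by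
          rw [Real.mul_rpow (Real.exp_pos _).le hN, ← Real.exp_mul, mul_assoc]
          congr 1
          rcases hN.eq_or_lt with h | h
          · rw [← h, Real.zero_rpow hr0.ne', zero_mul]
          · rw [← Real.rpow_add h, add_sub_cancel, Real.rpow_one]
      _ ≤ _ := by
          refine mul_le_mul_of_nonneg_right (Real.exp_le_exp.mpr ?_) hN
          have h5 : min 1 t ≤ t / τ := by
            refine (min_le_right _ _).trans ?_
            rw [le_div_iff₀ hτ0]
            exact mul_le_of_le_one_right ht.le hτ1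
          have : M / 2 * min 1 t ≤ M / 2 * (t / τ) := mul_le_mul_of_nonneg_left h5 (by positivity)
          linarith
  · push Not at h
    refine (n2_mono h (ind A)).trans (h2.trans ?_)
    refine mul_le_mul_of_nonneg_right (Real.exp_le_exp.mpr ?_) hN
    have : M / 2 * min 1 t ≤ M / 2 * 1 :=
      mul_le_mul_of_nonneg_left (min_le_left _ _) (by positivity)
    linarith

/-- interpolation of `L^ρ`, `1<ρ<2` between `L^1` and `L^2` -/
lemma interp {ι : Type*} (s : Finset ι) {ρ : ℝ} (h1 : 1 < ρ) (h2 : ρ < 2) (g : ι → ℝ)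
    (hg : ∀ i ∈ s, 0 ≤ g i) :
    ∑ i ∈ s, (g i) ^ ρ ≤ (∑ i ∈ s, g i) ^ (2 - ρ) * (∑ i ∈ s, (g i) ^ 2) ^ (ρ - 1) := by
  have ha : 0 < 2 - ρ := by linarith
  have hb : 0 < ρ - 1 := by linarith
  have hconj : Real.HolderConjugate (1 / (2 - ρ)) (1 / (ρ - 1)) := by
    rw [Real.holderConjugate_iff]
    constructor
    · rw [lt_div_iff₀ ha]; linarith
    · field_simp; ring
  have hH := Real.inner_le_Lp_mul_Lq_of_nonneg s hconj (f := fun i => (g i) ^ (2 - ρ))
    (g := fun i => ((g i) ^ 2) ^ (ρ - 1))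
    (fun i hi => Real.rpow_nonneg (hg i hi) _) (fun i hi => by positivity)
  simp only [one_div_one_div] at hH
  have e1 : ∀ i ∈ s, ((g i) ^ (2 - ρ)) ^ (1 / (2 - ρ)) = g i := by
    intro i hi
    rw [← Real.rpow_mul (hg i hi), mul_one_div_cancel ha.ne', Real.rpow_one]
  have e2 : ∀ i ∈ s, (((g i) ^ 2) ^ (ρ - 1)) ^ (1 / (ρ - 1)) = (g i) ^ 2 := by
    intro i hi
    rw [← Real.rpow_mul (sq_nonneg _), mul_one_div_cancel hb.ne', Real.rpow_one]
  rw [Finset.sum_congr rfl e1, Finset.sum_congr rfl e2] at hH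
  have e3 : ∀ i ∈ s, (g i) ^ (2 - ρ) * ((g i) ^ 2) ^ (ρ - 1) = (g i) ^ ρ := by
    intro i hi
    rcases (hg i hi).eq_or_lt with h | h
    · rw [← h, Real.zero_rpow ha.ne', Real.zero_rpow (by linarith : ρ ≠ 0), zero_mul]
    · rw [← Real.rpow_natCast, ← Real.rpow_mul h.le, ← Real.rpow_add h]
      congr 1
      push_cast; ring
  rw [Finset.sum_congr rfl e3] at hH
  exact hH

/-- numerical data and its constraints -/
structure Par (d : ℕ) where
  t : ℝ
  lam : ℝ
  b : ℝ
  c2 : ℝ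
  ρ : ℝ
  R : ℝ
  M : ℝ
  ε : ℝ
  K : ℕ
  ht : 0 < t
  hlam : 0 < lam
  hb : 1 < b
  hc2 : 0 ≤ c2
  hlt : 1 ≤ lam * t
  hρ1 : 1 < ρ
  hρ2 : ρ < 2
  hρb : b * (2 + c2) ≤ ρ * c2
  hM : 0 ≤ M
  hKM : M ≤ ρ * c2 * lam * tau t b K
  hR : 2 * t * Real.exp 1 ≤ R
  hRw : c2 * lam * tau t b K / 2 ≤ d * R / 4
  hL : 100 * ((K + 1) * ((3 + c2) * lam)) * (Real.log (R / (2 * t))) ^ 2 ≤ d
  hε1 : ((K : ℝ) + 1) ^ 2 * Real.exp (-(2 * lam * t)) ≤ ε
  hε2 : Real.exp (-(M / 2 * min 1 t)) ≤ ε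

variable {n d : ℕ}

open Classical in
/-- the first weight of a level set -/
noncomputable def g1 (P : Par d) (A : Finset (Fin n → Bool)) (x : Fin n → Bool) : ℝ :=
  if 2 ^ n * Real.exp (-P.M) < (A.card : ℝ) then (wt A P.t P.lam P.b P.c2 P.K x) ^ 2 else 0

open Classical in
/-- the bad part of a level set -/
noncomputable def Bd (P : Par d) (A : Finset (Fin n → Bool)) : Finset (Fin n → Bool) :=
  if 2 ^ n * Real.exp (-P.M) < (A.card : ℝ) then A \ core A P.t P.lam P.b P.K else A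

/-- the second weight -/
noncomputable def g2 (P : Par d) (A : Finset (Fin n → Bool)) (x : Fin n → Bool) : ℝ :=
  T (Real.exp (-P.t)) (ind (Bd P A)) x

lemma Bd_subset (P : Par d) (A : Finset (Fin n → Bool)) : Bd P A ⊆ A := by
  unfold Bd
  split_ifs
  · exact Finset.sdiff_subset
  · exact Finset.Subset.refl _

lemma g1_nonneg (P : Par d) (A : Finset (Fin n → Bool)) (x : Fin n → Bool) : 0 ≤ g1 P A x := by
  unfold g1; split_ifs <;> positivity

lemma g1_le_one (P : Par d) (A : Finset (Fin n → Bool)) (x : Fin n → Bool) : g1 P A x ≤ 1 := by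
  unfold g1; split_ifs
  · exact pow_le_one₀ (wt_pos P.K x).le (wt_le_one P.ht P.hb.le P.hlam P.hc2 P.K x)
  · norm_num

lemma exp_neg_le_one {t : ℝ} (ht : 0 < t) : Real.exp (-t) ≤ 1 := by
  rw [Real.exp_le_one_iff]; linarith

lemma g2_nonneg (P : Par d) (A : Finset (Fin n → Bool)) (x : Fin n → Bool) : 0 ≤ g2 P A x :=
  T_nonneg (Real.exp_pos _).le (exp_neg_le_one P.ht) (ind_nonneg _) x

lemma g2_le_one (P : Par d) (A : Finset (Fin n → Bool)) (x : Fin n → Bool) : g2 P A x ≤ 1 :=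
  T_le_one (Real.exp_pos _).le (exp_neg_le_one P.ht) (ind_le_one _) x

lemma nonempty_of_big (P : Par d) {A : Finset (Fin n → Bool)}
    (h : 2 ^ n * Real.exp (-P.M) < (A.card : ℝ)) : A.Nonempty := by
  rw [← Finset.card_pos]
  have : (0:ℝ) < A.card := lt_trans (by positivity) h
  exact_mod_cast this

lemma g1_sum (P : Par d) (A : Finset (Fin n → Bool)) :
    ∑ x, (g1 P A x) ^ P.ρ ≤
      (Real.exp ((2 + P.c2) * P.lam * P.t) + P.K + 1) * A.card := by
  have hρ0 : 0 < P.ρ := lt_trans one_pos P.hρ1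
  unfold g1
  split_ifs with h
  · have h1 := wt_sum_le (A := A) P.ht P.hb.le P.hlam P.hc2 hρ0 P.hρb (nonempty_of_big P h) P.K (by
      refine le_trans ?_ h.le
      refine mul_le_mul_of_nonneg_left (Real.exp_le_exp.mpr ?_) (by positivity)
      linarith [P.hKM])
    refine le_trans (le_of_eq ?_) h1
    refine Finset.sum_congr rfl fun x _ => ?_
    rw [← Real.rpow_natCast, ← Real.rpow_mul (wt_pos P.K x).le]
    push_cast
    rfl
  · simp only [Real.zero_rpow hρ0.ne', Finset.sum_const_zero]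
    have := Real.exp_pos ((2 + P.c2) * P.lam * P.t)
    positivity

lemma g2_sum (P : Par d) (A : Finset (Fin n → Bool)) :
    ∑ x, (g2 P A x) ^ P.ρ ≤ P.ε ^ (P.ρ - 1) * A.card := by
  have hε0 : 0 < P.ε := lt_of_lt_of_le (Real.exp_pos _) P.hε2
  have hN : (0:ℝ) ≤ A.card := Nat.cast_nonneg _
  have h1 : ∑ x, g2 P A x ≤ A.card := by
    unfold g2
    rw [sum_T, sum_ind]
    exact_mod_cast Finset.card_le_card (Bd_subset P A)
  have h2 : ∑ x, (g2 P A x) ^ 2 ≤ P.ε * A.card := by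
    unfold g2 Bd
    split_ifs with h
    · exact (bad_part P.ht P.hb P.K).trans (mul_le_mul_of_nonneg_right P.hε1 hN)
    · push Not at h
      exact (tiny P.ht P.hM h).trans (mul_le_mul_of_nonneg_right P.hε2 hN)
  have h0 : 0 ≤ ∑ x : Fin n → Bool, g2 P A x := Finset.sum_nonneg fun x _ => g2_nonneg P A x
  have h00 : 0 ≤ ∑ x : Fin n → Bool, (g2 P A x) ^ 2 := Finset.sum_nonneg fun x _ => sq_nonneg _
  have hρ1 := P.hρ1
  have hρ2 := P.hρ2
  refine (interp univ P.hρ1 P.hρ2 (g2 P A) (fun x _ => g2_nonneg P A x)).trans ?_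
  calc (∑ x, g2 P A x) ^ (2 - P.ρ) * (∑ x, (g2 P A x) ^ 2) ^ (P.ρ - 1)
      ≤ (A.card : ℝ) ^ (2 - P.ρ) * (P.ε * A.card) ^ (P.ρ - 1) := by
        refine mul_le_mul (Real.rpow_le_rpow h0 h1 (by linarith))
          (Real.rpow_le_rpow h00 h2 (by linarith)) (by positivity) (by positivity)
    _ = P.ε ^ (P.ρ - 1) * A.card := by
        rw [Real.mul_rpow hε0.le hN]
        rcases hN.eq_or_lt with h | h
        · rw [← h, Real.zero_rpow (by linarith : P.ρ - 1 ≠ 0),
            Real.zero_rpow (by linarith : 2 - P.ρ ≠ 0)]; ring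
        · calc (A.card : ℝ) ^ (2 - P.ρ) * (P.ε ^ (P.ρ - 1) * (A.card : ℝ) ^ (P.ρ - 1))
              = P.ε ^ (P.ρ - 1) * ((A.card : ℝ) ^ (2 - P.ρ) * (A.card : ℝ) ^ (P.ρ - 1)) := by ring
            _ = _ := by
                rw [← Real.rpow_add h]
                congr 1
                rw [show 2 - P.ρ + (P.ρ - 1) = 1 by ring, Real.rpow_one]

/-- the level estimate -/
lemma level (P : Par d) (A : Finset (Fin n → Bool)) {f : (Fin n → Bool) → ℝ}
    (hf : ∀ S : Finset (Fin n), S.card < d → co f S = 0) :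
    ∑ x ∈ A, (T (Real.exp (-(2 * P.t))) f x) ^ 2 ≤
      Real.exp (-(3 / 25 * d * P.t)) * ∑ x, (f x) ^ 2 * g1 P A x +
      ∑ x, (T (Real.exp (-P.t)) f x) ^ 2 * g2 P A x := by
  set u := T (Real.exp (-(2 * P.t))) f with hu
  set v := T (Real.exp (-P.t)) f with hv
  have ht := P.ht
  have ht1 := exp_neg_le_one P.ht
  have huv : u = T (Real.exp (-P.t)) v := by
    rw [hu, hv, T_comp, ← Real.exp_add]
    congr 2; ring
  -- bad part for any subset
  have hbad : ∀ B : Finset (Fin n → Bool), ∑ x ∈ B, (u x) ^ 2 ≤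
      ∑ x, (v x) ^ 2 * T (Real.exp (-P.t)) (ind B) x := by
    intro B
    rw [← T_selfadj]
    calc ∑ x ∈ B, (u x) ^ 2 ≤ ∑ x ∈ B, T (Real.exp (-P.t)) (fun y => (v y) ^ 2) x := by
          refine Finset.sum_le_sum fun x _ => ?_
          rw [huv]
          exact T_sq_le (Real.exp_pos _).le ht1 v x
      _ = _ := by
          unfold ind
          simp
  by_cases h : 2 ^ n * Real.exp (-P.M) < (A.card : ℝ)
  · have hne := nonempty_of_big P h
    have hg1 : ∀ x, g1 P A x = (wt A P.t P.lam P.b P.c2 P.K x) ^ 2 := by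
      intro x; unfold g1; rw [if_pos h]
    have hBd : Bd P A = A \ core A P.t P.lam P.b P.K := by
      unfold Bd; rw [if_pos h]
    have hcore : core A P.t P.lam P.b P.K ⊆ A := by unfold core; exact Finset.filter_subset _ _
    have hsplit := Finset.sum_sdiff (f := fun x => (u x) ^ 2) hcore
    rw [← hsplit, add_comm]
    refine add_le_add ?_ ?_
    · have hα0 : ∀ x, Real.exp (-(d * P.R / 4)) ≤ wt A P.t P.lam P.b P.c2 P.K x := fun x =>
        le_trans (Real.exp_le_exp.mpr (by linarith [P.hRw]))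
          (wt_ge P.ht P.hb.le P.hlam P.hc2 P.K x)
      have hs := sector (t := 2 * P.t) (R := P.R) hα0
        (wt_le_one P.ht P.hb.le P.hlam P.hc2 P.K)
        (fun x => wt_class P.ht P.hb.le P.hlam P.hc2 P.hlt hne P.K x) hf (by linarith)
        P.hR P.hL
      calc ∑ x ∈ core A P.t P.lam P.b P.K, (u x) ^ 2
          = ∑ x ∈ core A P.t P.lam P.b P.K,
            (wt A P.t P.lam P.b P.c2 P.K x) ^ 2 * (u x) ^ 2 := by
            refine Finset.sum_congr rfl fun x hx => ?_
            have hx2 : ∀ k ≤ P.K, Real.exp (-(2 * P.lam * tau P.t P.b k)) ≤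
                hk A P.t P.b k x := by
              unfold core at hx
              exact (Finset.mem_filter.mp hx).2
            rw [wt_core P.ht P.hb.le P.hlam P.hc2 P.K x hx2]
            ring
        _ ≤ ∑ x, (wt A P.t P.lam P.b P.c2 P.K x) ^ 2 * (u x) ^ 2 :=
            Finset.sum_le_univ_sum_of_nonneg fun x => by positivity
        _ ≤ Real.exp (-(3 / 50 * d * (2 * P.t))) *
            ∑ x, (wt A P.t P.lam P.b P.c2 P.K x) ^ 2 * (f x) ^ 2 := hs
        _ = _ := by
            rw [show -(3 / 50 * (d:ℝ) * (2 * P.t)) = -(3 / 25 * d * P.t) by ring]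
            congr 1
            refine Finset.sum_congr rfl fun x _ => ?_
            rw [hg1]; ring
    · have := hbad (A \ core A P.t P.lam P.b P.K)
      unfold g2
      rw [hBd]
      exact this
  · have hg1 : ∀ x, g1 P A x = 0 := by
      intro x; unfold g1; rw [if_neg h]
    have hBd : Bd P A = A := by
      unfold Bd; rw [if_neg h]
    simp only [hg1, mul_zero, Finset.sum_const_zero, zero_add]
    unfold g2
    rw [hBd]
    exact hbad A

end Pool.Agent.H81.HS
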