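import Pool.Agent.H81.HS.Assemble

set_option autoImplicit false

/-! Choice of the parameters. -/

namespace Pool.Agent.H81.HS

open Finset Filter Topology

lemma mul_exp_neg_le {a x : ℝ} (ha : 0 < a) : x * Real.exp (-(a * x)) ≤ 1 / a := by
  have h1 : a * x ≤ Real.exp (a * x) := by
    have := Real.add_one_le_exp (a * x)
    linarith
  have h2 : 0 < Real.exp (a * x) := Real.exp_pos _
  rw [Real.exp_neg, ← div_eq_mul_inv, div_le_div_iff₀ h2 ha]
  linarith

lemma small_tendsto (A B C a s : ℝ) (ha : 0 < a) (hs : 0 < s) :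
    Tendsto (fun κ : ℝ => 4 / 3 * (A / κ + C * (2 * (B / κ) ^ a) ^ s)) atTop (𝓝 0) := by
  have h1 : Tendsto (fun κ : ℝ => A / κ) atTop (𝓝 0) := tendsto_const_nhds.div_atTop tendsto_id
  have h2 : Tendsto (fun κ : ℝ => B / κ) atTop (𝓝 0) := tendsto_const_nhds.div_atTop tendsto_id
  have h3 : Tendsto (fun κ : ℝ => (B / κ) ^ a) atTop (𝓝 0) := by
    have hc := (Real.continuousAt_rpow_const 0 a (Or.inr ha.le)).tendsto
    rw [Real.zero_rpow ha.ne'] at hc
    exact hc.comp h2
  have h4 : Tendsto (fun κ : ℝ => 2 * (B / κ) ^ a) atTop (𝓝 0) := by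
    have := h3.const_mul 2
    rwa [mul_zero] at this
  have h5 : Tendsto (fun κ : ℝ => (2 * (B / κ) ^ a) ^ s) atTop (𝓝 0) := by
    have hc := (Real.continuousAt_rpow_const 0 s (Or.inr hs.le)).tendsto
    rw [Real.zero_rpow hs.ne'] at hc
    exact hc.comp h4
  have h6 := (h1.add (h5.const_mul C)).const_mul (4 / 3)
  simpa using h6

theorem params {p : ℝ} (hp : 2 < p) :
    ∃ κ : ℝ, 0 < κ ∧ ∀ d : ℕ, 1 ≤ d → ∃ P : Par d,
      P.t = κ * (Real.log ((d : ℝ) + 2)) ^ 4 / d ∧
      P.ρ < p / (p - 2) ∧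
      4 / 3 * (Real.exp (-(3 / 25 * d * P.t)) *
        ((2 + 1 / (1 - (1 / 2 : ℝ) ^ (1 / (P.ρ / (p / (p - 2))) - 1))) *
          (2 * (Real.exp ((2 + P.c2) * P.lam * P.t) + P.K + 1)) ^ (1 / (p / (p - 2)))) +
        (2 + 1 / (1 - (1 / 2 : ℝ) ^ (1 / (P.ρ / (p / (p - 2))) - 1))) *
          (2 * P.ε ^ (P.ρ - 1)) ^ (1 / (p / (p - 2)))) ≤ 1 / 4 := by
  have hp2 : 0 < p - 2 := by linarith
  set r := p / (p - 2) with hr
  have hr1 : 1 < r := by rw [hr, lt_div_iff₀ hp2]; linarith
  have hr0 : 0 < r := by linarith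
  set ρ := (1 + min r 2) / 2 with hρ
  have hmin1 : 1 < min r 2 := lt_min hr1 (by norm_num)
  have hρ1 : 1 < ρ := by rw [hρ]; linarith
  have hρ2 : ρ < 2 := by
    have : min r 2 ≤ 2 := min_le_right _ _
    rw [hρ]; linarith
  have hρr : ρ < r := by
    have : min r 2 ≤ r := min_le_left _ _
    rw [hρ]; linarith
  set b := (1 + ρ) / 2 with hb
  have hb1 : 1 < b := by rw [hb]; linarith
  have hbρ : b < ρ := by rw [hb]; linarith
  have hρb0 : 0 < ρ - b := by linarith
  set c2 := 2 * b / (ρ - b) with hc2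
  have hc21 : 1 ≤ c2 := by
    rw [hc2, le_div_iff₀ hρb0]; linarith
  have hc20 : 0 ≤ c2 := by linarith
  have hρbc : b * (2 + c2) ≤ ρ * c2 := by
    have : (ρ - b) * c2 = 2 * b := by rw [hc2]; field_simp
    nlinarith
  set lb := Real.log b with hlb
  have hlb0 : 0 < lb := Real.log_pos hb1
  set Cb := 3 / lb + 2 with hCb
  have hCb2 : 2 ≤ Cb := by
    have : 0 < 3 / lb := by positivity
    rw [hCb]; linarith
  set CR := 8 * b * c2 + 6 with hCR
  have hCR6 : 6 ≤ CR := by
    have : 0 ≤ 8 * b * c2 := by positivity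
    rw [hCR]; linarith
  have hlCR : 0 ≤ Real.log CR := Real.log_nonneg (by linarith)
  set Cl := Real.log CR + 1 with hCl
  have hCl1 : 1 ≤ Cl := by rw [hCl]; linarith
  set η := 1 / (100 * Cb * (3 + c2) * Cl ^ 2) with hη
  have hη0 : 0 < η := by positivity
  have hη1 : (3 + c2) * η ≤ 1 / 100 := by
    have h1 : (3 + c2) * η = 1 / (100 * Cb * Cl ^ 2) := by
      rw [hη]; field_simp
    rw [h1]
    refine one_div_le_one_div_of_le (by norm_num) ?_
    have : 1 ≤ Cl ^ 2 := one_le_pow₀ hCl1
    nlinarith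
  have hηle : η ≤ 1 := by nlinarith
  set C := 2 + 1 / (1 - (1 / 2 : ℝ) ^ (1 / (ρ / r) - 1)) with hC
  have hC0 : 0 < C := by
    have hs0 : 0 < 1 / (ρ / r) - 1 := by
      have : 1 < 1 / (ρ / r) := by
        rw [one_div_div, lt_div_iff₀ (by linarith)]; linarith
      linarith
    have : (1 / 2 : ℝ) ^ (1 / (ρ / r) - 1) < 1 :=
      Real.rpow_lt_one (by norm_num) (by norm_num) hs0
    have : 0 < 1 - (1 / 2 : ℝ) ^ (1 / (ρ / r) - 1) := by linarith
    rw [hC]; positivity
  -- choose κ
  have hlim := small_tendsto (C * (2 * (10 + 9 * Cb))) (Cb / η) C (2 * (ρ - 1)) (1 / r)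
    (by linarith) (by positivity)
  have hev := (hlim.eventually (ge_mem_nhds (show (0:ℝ) < 1 / 4 by norm_num))).and
    (eventually_ge_atTop (max 1 (1 / η)))
  obtain ⟨κ, hκs, hκm⟩ := hev.exists
  have hκ1 : 1 ≤ κ := (le_max_left _ _).trans hκm
  have hκη : 1 ≤ η * κ := by
    have : 1 / η ≤ κ := (le_max_right _ _).trans hκm
    rw [div_le_iff₀ hη0] at this
    linarith
  have hκ0 : 0 < κ := by linarith
  refine ⟨κ, hκ0, ?_⟩
  intro d hd
  have hd1 : (1:ℝ) ≤ d := by exact_mod_cast hd
  have hd0 : (0:ℝ) < d := by linarith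
  set D := Real.log ((d : ℝ) + 2) with hD
  have hD1 : 1 ≤ D := by
    rw [hD, Real.le_log_iff_exp_le (by linarith)]
    have := Real.exp_one_lt_d9
    linarith
  have hD0 : 0 < D := by linarith
  have hD4 : D ≤ D ^ 4 := by
    calc D = D ^ 1 := (pow_one D).symm
      _ ≤ D ^ 4 := pow_le_pow_right₀ hD1 (by norm_num)
  have hD41 : 1 ≤ D ^ 4 := one_le_pow₀ hD1
  have h4d : Real.log (4 * d) ≤ 3 * D := by
    have h1 : (4:ℝ) * d ≤ ((d:ℝ) + 2) ^ 3 := by nlinarith [sq_nonneg (d:ℝ), mul_pos hd0 hd0]
    calc Real.log (4 * d) ≤ Real.log (((d:ℝ) + 2) ^ 3) := Real.log_le_log (by positivity) h1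
      _ = 3 * D := by rw [Real.log_pow, hD]; push_cast; ring
  have h4d0 : 0 ≤ Real.log (4 * d) := Real.log_nonneg (by linarith)
  set K := ⌈Real.log (4 * d) / lb⌉₊ with hK
  have hKge : Real.log (4 * d) / lb ≤ K := Nat.le_ceil _
  have hKlt : (K : ℝ) < Real.log (4 * d) / lb + 1 := Nat.ceil_lt_add_one (by positivity)
  have hbK : b ^ K = Real.exp (K * lb) := by
    rw [hlb, ← Real.log_pow, Real.exp_log (pow_pos (by linarith) K)]
  have hbKge : 4 * (d:ℝ) ≤ b ^ K := by
    rw [hbK]
    calc 4 * (d:ℝ) = Real.exp (Real.log (4 * d)) := (Real.exp_log (by positivity)).symm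
      _ ≤ _ := Real.exp_le_exp.mpr (by rwa [div_le_iff₀ hlb0] at hKge)
  have hbKle : b ^ K ≤ 4 * d * b := by
    rw [hbK]
    calc Real.exp (K * lb) ≤ Real.exp (Real.log (4 * d) + lb) := by
          refine Real.exp_le_exp.mpr ?_
          have : (K:ℝ) * lb ≤ (Real.log (4 * d) / lb + 1) * lb :=
            mul_le_mul_of_nonneg_right hKlt.le hlb0.le
          have h2 : (Real.log (4 * d) / lb + 1) * lb = Real.log (4 * d) + lb := by
            field_simp
          linarith
      _ = 4 * d * b := by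
          rw [Real.exp_add, Real.exp_log (by positivity), hlb, Real.exp_log (by linarith)]
  have hK1 : (K:ℝ) + 1 ≤ Cb * D := by
    have h1 : Real.log (4 * d) / lb ≤ 3 * D / lb := div_le_div_of_nonneg_right h4d hlb0.le
    have h2 : Cb * D = 3 * D / lb + 2 * D := by rw [hCb]; ring
    rw [h2]; linarith
  have hCbD : 1 ≤ Cb * D := by nlinarith
  have hltc : η * (d:ℝ) / D ^ 3 * (κ * D ^ 4 / d) = η * κ * D := by
    field_simp
  have hηκD : 1 ≤ η * κ * D := by nlinarith
  have htau : tau (κ * D ^ 4 / d) b K = κ * D ^ 4 / d * b ^ K := rfl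
  -- the parameter record
  refine ⟨{ t := κ * D ^ 4 / d
            lam := η * d / D ^ 3
            b := b
            c2 := c2
            ρ := ρ
            R := CR * κ * D ^ 4
            M := 4 * (η * κ * D) * d
            ε := (Cb * D) ^ 2 * Real.exp (-(2 * (η * κ * D)))
            K := K
            ht := by positivity
            hlam := by positivity
            hb := hb1
            hc2 := hc20
            hlt := by rw [hltc]; exact hηκD
            hρ1 := hρ1
            hρ2 := hρ2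
            hρb := hρbc
            hM := by positivity
            hKM := ?_
            hR := ?_
            hRw := ?_
            hL := ?_
            hε1 := ?_
            hε2 := ?_ }, rfl, hρr, ?_⟩
  · -- hKM
    rw [htau]
    have h1 : ρ * c2 * (η * d / D ^ 3) * (κ * D ^ 4 / d * b ^ K) =
        (ρ * c2) * ((η * d / D ^ 3 * (κ * D ^ 4 / d)) * b ^ K) := by ring
    rw [h1, hltc]
    have h2 : 1 ≤ ρ * c2 := by nlinarith
    calc 4 * (η * κ * D) * d = (η * κ * D) * (4 * d) := by ring
      _ ≤ (η * κ * D) * b ^ K := mul_le_mul_of_nonneg_left hbKge (by positivity)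
      _ ≤ _ := le_mul_of_one_le_left (by positivity) h2
  · -- hR
    have h1 : Real.exp 1 ≤ 3 := by have := Real.exp_one_lt_d9; linarith
    calc 2 * (κ * D ^ 4 / d) * Real.exp 1 ≤ 2 * (κ * D ^ 4 / 1) * 3 := by
          refine mul_le_mul (mul_le_mul_of_nonneg_left ?_ (by norm_num)) h1
            (Real.exp_pos _).le (by positivity)
          exact div_le_div_of_nonneg_left (by positivity) (by norm_num) hd1
      _ = 6 * (κ * D ^ 4) := by ring
      _ ≤ CR * (κ * D ^ 4) := mul_le_mul_of_nonneg_right hCR6 (by positivity)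
      _ = _ := by ring
  · -- hRw
    rw [htau]
    have h1 : c2 * (η * d / D ^ 3) * (κ * D ^ 4 / d * b ^ K) / 2 =
        c2 * (η * d / D ^ 3 * (κ * D ^ 4 / d)) * b ^ K / 2 := by ring
    rw [h1, hltc]
    calc c2 * (η * κ * D) * b ^ K / 2 ≤ c2 * (1 * κ * D ^ 4) * (4 * d * b) / 2 := by
          have h2 : η * κ * D ≤ 1 * κ * D ^ 4 := by
            refine mul_le_mul (mul_le_mul_of_nonneg_right hηle hκ0.le) hD4 hD0.le (by positivity)
          have h3 : c2 * (η * κ * D) * b ^ K ≤ c2 * (1 * κ * D ^ 4) * (4 * d * b) :=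
            mul_le_mul (mul_le_mul_of_nonneg_left h2 hc20) hbKle (by positivity) (by positivity)
          linarith
      _ = (d * κ * D ^ 4 / 4) * (8 * b * c2) := by ring
      _ ≤ (d * κ * D ^ 4 / 4) * CR := by
          refine mul_le_mul_of_nonneg_left ?_ (by positivity)
          rw [hCR]; linarith
      _ = _ := by ring
  · -- hL
    have h1 : CR * κ * D ^ 4 / (2 * (κ * D ^ 4 / d)) = CR * d / 2 := by field_simp
    rw [h1]
    have h2 : Real.log (CR * d / 2) ≤ Cl * D := by
      calc Real.log (CR * d / 2) ≤ Real.log (CR * (d + 2)) := by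
            refine Real.log_le_log (by positivity) ?_
            nlinarith
        _ = Real.log CR + D := by
            rw [Real.log_mul (by positivity) (by positivity)]
        _ ≤ Cl * D := by rw [hCl]; nlinarith
    have h3 : 0 ≤ Real.log (CR * d / 2) := Real.log_nonneg (by nlinarith)
    have h4 : (Real.log (CR * d / 2)) ^ 2 ≤ (Cl * D) ^ 2 := pow_le_pow_left₀ h3 h2 2
    calc 100 * (((K:ℝ) + 1) * ((3 + c2) * (η * d / D ^ 3))) * (Real.log (CR * d / 2)) ^ 2
        ≤ 100 * ((Cb * D) * ((3 + c2) * (η * d / D ^ 3))) * (Cl * D) ^ 2 := by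
          refine mul_le_mul ?_ h4 (by positivity) (by positivity)
          refine mul_le_mul_of_nonneg_left ?_ (by norm_num)
          exact mul_le_mul_of_nonneg_right hK1 (by positivity)
      _ = d * (η * (100 * Cb * (3 + c2) * Cl ^ 2)) := by
          field_simp
      _ = d := by
          have : η * (100 * Cb * (3 + c2) * Cl ^ 2) = 1 := by rw [hη]; field_simp
          rw [this, mul_one]
  · -- hε1
    have h1 : 2 * (η * d / D ^ 3) * (κ * D ^ 4 / d) = 2 * (η * κ * D) := by
      rw [← hltc]; ring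
    rw [h1]
    exact mul_le_mul_of_nonneg_right (pow_le_pow_left₀ (by positivity) hK1 2) (Real.exp_pos _).le
  · -- hε2
    have h1 : 2 * (η * κ * D) ≤ 4 * (η * κ * D) * d / 2 * min 1 (κ * D ^ 4 / d) := by
      have h2 : 1 ≤ d * min 1 (κ * D ^ 4 / d) := by
        rcases min_choice 1 (κ * D ^ 4 / d) with h | h
        · rw [h]; linarith
        · rw [h]
          have : (d:ℝ) * (κ * D ^ 4 / d) = κ * D ^ 4 := by field_simp
          rw [this]; nlinarith
      calc 2 * (η * κ * D) = 2 * (η * κ * D) * 1 := (mul_one _).symm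
        _ ≤ 2 * (η * κ * D) * (d * min 1 (κ * D ^ 4 / d)) :=
            mul_le_mul_of_nonneg_left h2 (by positivity)
        _ = _ := by ring
    calc Real.exp (-(4 * (η * κ * D) * d / 2 * min 1 (κ * D ^ 4 / d)))
        ≤ Real.exp (-(2 * (η * κ * D))) := Real.exp_le_exp.mpr (by linarith)
      _ ≤ _ := le_mul_of_one_le_left (Real.exp_pos _).le (one_le_pow₀ hCbD)
  · -- smallness
    simp only
    rw [← hC]
    refine le_trans ?_ hκs
    refine mul_le_mul_of_nonneg_left (add_le_add ?_ ?_) (by norm_num)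
    · -- first term
      have h1 : 3 / 25 * (d:ℝ) * (κ * D ^ 4 / d) = 3 / 25 * κ * D ^ 4 := by field_simp
      have h2 : (2 + c2) * (η * d / D ^ 3) * (κ * D ^ 4 / d) = (2 + c2) * (η * κ * D) := by
        rw [← hltc]; ring
      rw [h1, h2]
      set E1 := Real.exp ((2 + c2) * (η * κ * D)) + K + 1 with hE1
      have hE11 : 1 ≤ 2 * E1 := by
        have := Real.exp_pos ((2 + c2) * (η * κ * D))
        have h0 : (0:ℝ) ≤ K := Nat.cast_nonneg K
        rw [hE1]; linarith
      have h3 : (2 * E1) ^ (1 / r) ≤ 2 * E1 := by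
        calc (2 * E1) ^ (1 / r) ≤ (2 * E1) ^ (1:ℝ) :=
              Real.rpow_le_rpow_of_exponent_le hE11 (by
                rw [div_le_one hr0]; exact hr1.le)
          _ = _ := Real.rpow_one _
      have h4 : E1 ≤ Real.exp (κ * D / 100) + Cb * D := by
        have h5 : (2 + c2) * (η * κ * D) ≤ κ * D / 100 := by
          have : (2 + c2) * η ≤ 1 / 100 := by nlinarith
          calc (2 + c2) * (η * κ * D) = ((2 + c2) * η) * (κ * D) := by ring
            _ ≤ 1 / 100 * (κ * D) := mul_le_mul_of_nonneg_right this (by positivity)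
            _ = _ := by ring
        have h6 := Real.exp_le_exp.mpr h5
        rw [hE1]; linarith
      have h5 : Real.exp (-(3 / 25 * κ * D ^ 4)) ≤ Real.exp (-(3 / 25 * κ * D)) := by
        refine Real.exp_le_exp.mpr ?_
        have : 3 / 25 * κ * D ≤ 3 / 25 * κ * D ^ 4 := mul_le_mul_of_nonneg_left hD4 (by positivity)
        linarith
      have h6 : Real.exp (-(3 / 25 * κ * D)) * Real.exp (κ * D / 100) ≤ 10 / κ := by
        rw [← Real.exp_add]
        have e1 : -(3 / 25 * κ * D) + κ * D / 100 ≤ -(1 / 10 * κ) := by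
          have : κ ≤ κ * D := le_mul_of_one_le_right hκ0.le hD1
          nlinarith
        refine (Real.exp_le_exp.mpr e1).trans ?_
        have := mul_exp_neg_le (a := κ / 10) (x := 1) (by positivity)
        calc Real.exp (-(1 / 10 * κ)) = 1 * Real.exp (-(κ / 10 * 1)) := by
              rw [one_mul]; congr 1; ring
          _ ≤ 1 / (κ / 10) := this
          _ = 10 / κ := by field_simp
      have h7 : Real.exp (-(3 / 25 * κ * D)) * (Cb * D) ≤ 9 * Cb / κ := by
        have := mul_exp_neg_le (a := 3 / 25 * κ) (x := D) (by positivity)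
        calc Real.exp (-(3 / 25 * κ * D)) * (Cb * D) = Cb * (D * Real.exp (-(3 / 25 * κ * D))) := by
              ring
          _ ≤ Cb * (1 / (3 / 25 * κ)) := mul_le_mul_of_nonneg_left this (by linarith)
          _ ≤ 9 * Cb / κ := by
              rw [div_eq_mul_one_div (9 * Cb) κ]
              have : 1 / (3 / 25 * κ) = 25 / 3 * (1 / κ) := by field_simp
              rw [this]
              have h0 : 0 < 1 / κ := by positivity
              nlinarith
      calc Real.exp (-(3 / 25 * κ * D ^ 4)) * (C * (2 * E1) ^ (1 / r))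
          ≤ Real.exp (-(3 / 25 * κ * D)) * (C * (2 * (Real.exp (κ * D / 100) + Cb * D))) := by
            refine mul_le_mul h5 ?_ (by positivity) (Real.exp_pos _).le
            refine mul_le_mul_of_nonneg_left (h3.trans ?_) hC0.le
            linarith
        _ = C * (2 * (Real.exp (-(3 / 25 * κ * D)) * Real.exp (κ * D / 100) +
            Real.exp (-(3 / 25 * κ * D)) * (Cb * D))) := by ring
        _ ≤ C * (2 * (10 / κ + 9 * Cb / κ)) := by
            refine mul_le_mul_of_nonneg_left ?_ hC0.le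
            linarith
        _ = C * (2 * (10 + 9 * Cb)) / κ := by ring
    · -- second term
      refine mul_le_mul_of_nonneg_left ?_ hC0.le
      refine Real.rpow_le_rpow (by positivity) ?_ (by positivity)
      refine mul_le_mul_of_nonneg_left ?_ (by norm_num)
      have h1 : (Cb * D) ^ 2 * Real.exp (-(2 * (η * κ * D))) =
          (Cb * (D * Real.exp (-(η * κ * D)))) ^ 2 := by
        have : Real.exp (-(2 * (η * κ * D))) = Real.exp (-(η * κ * D)) ^ 2 := by
          rw [← Real.exp_nat_mul]; congr 1; push_cast; ring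
        rw [this]; ring
      have h2 : Cb * (D * Real.exp (-(η * κ * D))) ≤ Cb / η / κ := by
        have := mul_exp_neg_le (a := η * κ) (x := D) (by positivity)
        calc Cb * (D * Real.exp (-(η * κ * D))) ≤ Cb * (1 / (η * κ)) :=
              mul_le_mul_of_nonneg_left this (by linarith)
          _ = _ := by field_simp
      rw [h1, ← Real.rpow_natCast, ← Real.rpow_mul (by positivity)]
      push_cast
      exact Real.rpow_le_rpow (by positivity) h2 (by nlinarith)

end Pool.Agent.H81.HS
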