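import Pool.Agent.H81.HS.Grad
import Pool.Agent.H81.HS.Bonami

set_option autoImplicit false

/-! Multi-scale weights attached to a set. -/

namespace Pool.Agent.H81.HS

open Finset

/-- indicator -/
noncomputable def ind {n : ℕ} (A : Finset (Fin n → Bool)) : (Fin n → Bool) → ℝ :=
  fun y => if y ∈ A then (1:ℝ) else 0

lemma ind_nonneg {n : ℕ} (A : Finset (Fin n → Bool)) (y : Fin n → Bool) : 0 ≤ ind A y := by
  unfold ind; split_ifs <;> norm_num

lemma ind_le_one {n : ℕ} (A : Finset (Fin n → Bool)) (y : Fin n → Bool) : ind A y ≤ 1 := by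
  unfold ind; split_ifs <;> norm_num

lemma sum_ind {n : ℕ} (A : Finset (Fin n → Bool)) : ∑ y, ind A y = A.card := by
  unfold ind; simp

lemma sum_ind_sq {n : ℕ} (A : Finset (Fin n → Bool)) : ∑ y, (ind A y) ^ 2 = A.card := by
  unfold ind; simp

/-- the clipping function -/
noncomputable def clip (P σ : ℝ) : ℝ := max P (min σ 1)

lemma clip_pos {P σ : ℝ} (hP : 0 < P) : 0 < clip P σ := lt_of_lt_of_le hP (le_max_left _ _)

lemma clip_ge {P σ : ℝ} : P ≤ clip P σ := le_max_left _ _

lemma clip_le_one {P σ : ℝ} (hP : P ≤ 1) : clip P σ ≤ 1 := max_le hP (min_le_right _ _)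

lemma clip_small {P σ : ℝ} (hP : P ≤ 1) (h : σ ≤ P) : clip P σ = P := by
  unfold clip
  rw [min_eq_left (h.trans hP), max_eq_left h]

lemma clip_big {P σ : ℝ} (hP : P ≤ 1) (h : 1 ≤ σ) : clip P σ = 1 := by
  unfold clip
  rw [min_eq_right h, max_eq_right hP]

/-- ratio of clipped values -/
lemma clip_ratio {P σ σ' : ℝ} (hP0 : 0 < P) (hP1 : P ≤ 1) (hσ : 0 < σ) (_hσ' : 0 < σ') :
    (1 - clip P σ' / clip P σ) ^ 2 ≤ (min (σ / P) 1) ^ 2 * (1 - σ' / σ) ^ 2 := by
  have hC := clip_pos (σ := σ) hP0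
  have hC' := clip_pos (σ := σ') hP0
  by_cases h : P ≤ σ
  · have hm : min (σ / P) 1 = 1 := min_eq_right (by rw [le_div_iff₀ hP0]; linarith)
    rw [hm, one_pow, one_mul]
    have hβ : clip P σ = min σ 1 := by
      unfold clip
      exact max_eq_right (le_min h hP1)
    rcases lt_trichotomy (clip P σ') (clip P σ) with h1 | h1 | h1
    · -- β' < β
      have h2 : clip P σ ≤ σ := by rw [hβ]; exact min_le_left _ _
      have h3 : clip P σ ≤ 1 := clip_le_one hP1
      have h4 : σ' ≤ clip P σ' := by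
        have h5 : min σ' 1 ≤ clip P σ' := le_max_right _ _
        rcases min_choice σ' 1 with h6 | h6
        · rw [h6] at h5; exact h5
        · rw [h6] at h5; linarith
      have h5 : σ' / σ ≤ clip P σ' / clip P σ :=
        div_le_div₀ hC'.le h4 hC h2
      have h6 : clip P σ' / clip P σ < 1 := by rw [div_lt_one hC]; exact h1
      nlinarith
    · rw [h1, div_self hC.ne', sub_self, zero_pow two_ne_zero]
      positivity
    · have h2 : clip P σ < 1 := lt_of_lt_of_le h1 (clip_le_one hP1)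
      have h3 : clip P σ = σ := by
        rw [hβ]
        rcases min_choice σ 1 with h6 | h6
        · exact h6
        · rw [hβ, h6] at h2; exact absurd h2 (lt_irrefl _)
      have h4 : clip P σ' ≤ σ' := by
        have h5 : P < clip P σ' := by
          calc P ≤ clip P σ := clip_ge
            _ < _ := h1
        have h6 : clip P σ' = min σ' 1 := by
          unfold clip at h5 ⊢
          rcases max_choice P (min σ' 1) with h7 | h7
          · rw [h7] at h5; exact absurd h5 (lt_irrefl _)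
          · exact h7
        rw [h6]; exact min_le_left _ _
      have h5 : clip P σ' / clip P σ ≤ σ' / σ := by
        rw [h3]
        exact div_le_div_of_nonneg_right h4 hσ.le
      have h6 : 1 < clip P σ' / clip P σ := by rw [one_lt_div hC]; exact h1
      nlinarith
  · push Not at h
    have hm : min (σ / P) 1 = σ / P := min_eq_left (by rw [div_le_one hP0]; exact h.le)
    rw [hm, clip_small hP1 h.le]
    rcases (clip_ge (P := P) (σ := σ')).eq_or_lt with h1 | h1
    · rw [← h1, div_self hP0.ne', sub_self, zero_pow two_ne_zero]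
      positivity
    · have h4 : clip P σ' ≤ σ' := by
        have h6 : clip P σ' = min σ' 1 := by
          unfold clip at h1 ⊢
          rcases max_choice P (min σ' 1) with h7 | h7
          · rw [h7] at h1; exact absurd h1 (lt_irrefl _)
          · exact h7
        rw [h6]; exact min_le_left _ _
      have h5 : 1 < clip P σ' / P := by rw [one_lt_div hP0]; exact h1
      have h6 : clip P σ' / P ≤ σ' / P := div_le_div_of_nonneg_right h4 hP0.le
      have h7 : (σ / P) ^ 2 * (1 - σ' / σ) ^ 2 = (σ / P - σ' / P) ^ 2 := by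
        rw [← mul_pow]
        congr 1
        field_simp
      rw [h7]
      have h8 : σ / P < 1 := by rw [div_lt_one hP0]; exact h
      nlinarith

lemma four_w_le {s : ℝ} (hs : 0 < s) :
    4 * Real.exp (-s) / (1 - Real.exp (-s) ^ 2) ≤ 2 / s := by
  have h1 : s ≤ Real.sinh s := Real.self_le_sinh_iff.mpr hs.le
  rw [Real.sinh_eq] at h1
  have h2 : Real.exp s * Real.exp (-s) = 1 := by
    rw [← Real.exp_add, add_neg_cancel, Real.exp_zero]
  have h3 : 0 < Real.exp (-s) := Real.exp_pos _
  have h4 : Real.exp (-s) < 1 := by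
    rw [Real.exp_lt_one_iff]; linarith
  rw [div_le_div_iff₀ (by nlinarith) hs]
  nlinarith

section weights

variable {n : ℕ} (A : Finset (Fin n → Bool)) (t lam b c2 : ℝ)

/-- time scales -/
noncomputable def tau (k : ℕ) : ℝ := t * b ^ k

/-- smoothed indicator at scale `k` -/
noncomputable def hk (k : ℕ) (x : Fin n → Bool) : ℝ :=
  T (Real.exp (-(2 * tau t b k))) (ind A) x

/-- the weight at scale `k` -/
noncomputable def ak (k : ℕ) (x : Fin n → Bool) : ℝ :=
  clip (Real.exp (-(c2 * lam * tau t b k / 2)))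
    (Real.sqrt (hk A t b k x) / Real.exp (-(lam * tau t b k)))

/-- the multi-scale weight -/
noncomputable def wt (K : ℕ) (x : Fin n → Bool) : ℝ :=
  (range (K + 1)).inf' nonempty_range_add_one (fun k => ak A t lam b c2 k x)

end weights

section lemmas

variable {n : ℕ} {A : Finset (Fin n → Bool)} {t lam b c2 : ℝ}

lemma tau_pos (ht : 0 < t) (hb : 1 ≤ b) (k : ℕ) : 0 < tau t b k := by
  unfold tau; have : 0 < b := by linarith
  positivity

lemma tau_ge (ht : 0 < t) (hb : 1 ≤ b) (k : ℕ) : t ≤ tau t b k := by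
  unfold tau
  exact le_mul_of_one_le_right ht.le (one_le_pow₀ hb)

lemma tau_mono (ht : 0 < t) (hb : 1 ≤ b) {j k : ℕ} (h : j ≤ k) : tau t b j ≤ tau t b k := by
  unfold tau
  exact mul_le_mul_of_nonneg_left (pow_le_pow_right₀ hb h) ht.le

lemma hk_pos (ht : 0 < t) (hb : 1 ≤ b) (hA : A.Nonempty) (k : ℕ) (x : Fin n → Bool) :
    0 < hk A t b k x := by
  have hτ := tau_pos ht hb k
  unfold hk T
  obtain ⟨y, hy⟩ := hA
  refine Finset.sum_pos' (fun z _ => mul_nonneg (ker_nonneg (Real.exp_pos _).le ?_ x z)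
    (ind_nonneg A z)) ⟨y, Finset.mem_univ y, ?_⟩
  · rw [Real.exp_le_one_iff]; linarith
  · refine mul_pos (ker_pos (Real.exp_pos _) ?_ x y) ?_
    · rw [Real.exp_lt_one_iff]; linarith
    · unfold ind; simp [hy]

lemma hk_le_one (ht : 0 < t) (hb : 1 ≤ b) (k : ℕ) (x : Fin n → Bool) :
    hk A t b k x ≤ 1 := by
  have hτ := tau_pos ht hb k
  unfold hk
  refine T_le_one (Real.exp_pos _).le ?_ (ind_le_one A) x
  rw [Real.exp_le_one_iff]; linarith

/-- class estimate at a single scale -/
lemma ak_class (ht : 0 < t) (hb : 1 ≤ b) (hlam : 0 < lam) (hc2 : 0 ≤ c2) (hlt : 1 ≤ lam * t)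
    (hA : A.Nonempty) (k : ℕ) (x : Fin n → Bool) :
    ∑ i : Fin n, (1 - ak A t lam b c2 k (flip x i) / ak A t lam b c2 k x) ^ 2 ≤
      (3 + c2) * lam := by
  have hτ := tau_pos ht hb k
  set τ := tau t b k with hτdef
  set P := Real.exp (-(c2 * lam * τ / 2)) with hP
  set q := Real.exp (-(lam * τ)) with hq
  have hP0 : 0 < P := Real.exp_pos _
  have hP1 : P ≤ 1 := by
    rw [hP, Real.exp_le_one_iff]
    have : 0 ≤ c2 * lam * τ / 2 := by positivity
    linarith
  have hq0 : 0 < q := Real.exp_pos _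
  have hh := fun y => hk_pos (A := A) ht hb hA k y
  set σ := Real.sqrt (hk A t b k x) / q with hσ
  have hσ0 : 0 < σ := div_pos (Real.sqrt_pos.mpr (hh x)) hq0
  set m := min (σ / P) 1 with hm
  have hm0 : 0 < m := lt_min (div_pos hσ0 hP0) one_pos
  have hm1 : m ≤ 1 := min_le_right _ _
  -- pointwise
  have h1 : ∀ i : Fin n, (1 - ak A t lam b c2 k (flip x i) / ak A t lam b c2 k x) ^ 2 ≤
      m ^ 2 * (1 - Real.sqrt (hk A t b k (flip x i) / hk A t b k x)) ^ 2 := by
    intro i
    have h2 := clip_ratio hP0 hP1 hσ0 (div_pos (Real.sqrt_pos.mpr (hh (flip x i))) hq0)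
    have h3 : Real.sqrt (hk A t b k (flip x i)) / q / σ =
        Real.sqrt (hk A t b k (flip x i) / hk A t b k x) := by
      rw [hσ, Real.sqrt_div' _ (hh x).le]
      have := (Real.sqrt_pos.mpr (hh x)).ne'
      field_simp
    rw [h3] at h2
    exact h2
  have h2 : ∑ i : Fin n, (1 - Real.sqrt (hk A t b k (flip x i) / hk A t b k x)) ^ 2 ≤
      1 / τ * Real.log (1 / hk A t b k x) := by
    have h3 := grad (w := Real.exp (-(2 * τ))) (Real.exp_pos _)
      (by rw [Real.exp_lt_one_iff]; linarith) (ind_nonneg A) (ind_le_one A) x (hh x)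
    have h4 := four_w_le (s := 2 * τ) (by linarith)
    have h5 : 0 ≤ Real.log (1 / hk A t b k x) := by
      refine Real.log_nonneg ?_
      rw [le_div_iff₀ (hh x), one_mul]
      exact hk_le_one ht hb k x
    refine h3.trans ?_
    refine mul_le_mul_of_nonneg_right (h4.trans (le_of_eq ?_)) h5
    field_simp
  have h3 : ∑ i : Fin n, (1 - ak A t lam b c2 k (flip x i) / ak A t lam b c2 k x) ^ 2 ≤
      m ^ 2 * (1 / τ * Real.log (1 / hk A t b k x)) := by
    calc _ ≤ ∑ i : Fin n, m ^ 2 * (1 - Real.sqrt (hk A t b k (flip x i) / hk A t b k x)) ^ 2 :=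
          Finset.sum_le_sum fun i _ => h1 i
      _ = m ^ 2 * ∑ i : Fin n, (1 - Real.sqrt (hk A t b k (flip x i) / hk A t b k x)) ^ 2 := by
          rw [Finset.mul_sum]
      _ ≤ _ := mul_le_mul_of_nonneg_left h2 (sq_nonneg _)
  refine h3.trans ?_
  -- log(1/h) ≤ (2 + c2) lam τ + log (1/m^2)
  have h4 : Real.log (1 / hk A t b k x) ≤ (2 + c2) * lam * τ + Real.log (1 / m ^ 2) := by
    have h5 : hk A t b k x = (σ * q) ^ 2 := by
      rw [hσ, div_mul_cancel₀ _ hq0.ne', Real.sq_sqrt (hh x).le]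
    have h6 : m * P ≤ σ := by
      calc m * P ≤ σ / P * P := mul_le_mul_of_nonneg_right (min_le_left _ _) hP0.le
        _ = σ := div_mul_cancel₀ _ hP0.ne'
    have h7 : (m * P * q) ^ 2 ≤ hk A t b k x := by
      rw [h5]
      exact pow_le_pow_left₀ (by positivity) (mul_le_mul_of_nonneg_right h6 hq0.le) 2
    have h8 : 1 / hk A t b k x ≤ 1 / (m * P * q) ^ 2 :=
      one_div_le_one_div_of_le (by positivity) h7
    calc Real.log (1 / hk A t b k x) ≤ Real.log (1 / (m * P * q) ^ 2) :=
          Real.log_le_log (one_div_pos.mpr (hh x)) h8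
      _ = (2 + c2) * lam * τ + Real.log (1 / m ^ 2) := by
          rw [Real.log_div one_ne_zero (by positivity), Real.log_div one_ne_zero (by positivity),
            Real.log_one, Real.log_pow, Real.log_pow, Real.log_mul (by positivity) hq0.ne',
            Real.log_mul hm0.ne' hP0.ne', hP, hq, Real.log_exp, Real.log_exp]
          push_cast; ring
  have h5 : m ^ 2 * Real.log (1 / m ^ 2) ≤ 1 := by
    have h6 : Real.log (1 / m ^ 2) ≤ 1 / m ^ 2 := by
      have := Real.log_le_sub_one_of_pos (x := 1 / m ^ 2) (by positivity)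
      linarith
    calc m ^ 2 * Real.log (1 / m ^ 2) ≤ m ^ 2 * (1 / m ^ 2) :=
          mul_le_mul_of_nonneg_left h6 (sq_nonneg _)
      _ = 1 := by field_simp
  have hm2 : m ^ 2 ≤ 1 := pow_le_one₀ hm0.le hm1
  have h6 : 1 / τ ≤ lam := by
    rw [div_le_iff₀ hτ]
    calc 1 ≤ lam * t := hlt
      _ ≤ lam * τ := mul_le_mul_of_nonneg_left (tau_ge ht hb k) hlam.le
  calc m ^ 2 * (1 / τ * Real.log (1 / hk A t b k x))
      ≤ m ^ 2 * (1 / τ * ((2 + c2) * lam * τ + Real.log (1 / m ^ 2))) := by
        refine mul_le_mul_of_nonneg_left (mul_le_mul_of_nonneg_left h4 ?_) (sq_nonneg _)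
        positivity
    _ = m ^ 2 * ((2 + c2) * lam) + 1 / τ * (m ^ 2 * Real.log (1 / m ^ 2)) := by
        field_simp
    _ ≤ 1 * ((2 + c2) * lam) + lam * 1 := by
        refine add_le_add (mul_le_mul_of_nonneg_right hm2 (by positivity)) ?_
        have h7 : 0 ≤ m ^ 2 * Real.log (1 / m ^ 2) := by
          refine mul_nonneg (sq_nonneg _) (Real.log_nonneg ?_)
          rw [le_div_iff₀ (by positivity)]; linarith
        exact mul_le_mul h6 h5 h7 hlam.le
    _ = (3 + c2) * lam := by ring

lemma ak_pos (k : ℕ) (x : Fin n → Bool) : 0 < ak A t lam b c2 k x := clip_pos (Real.exp_pos _)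

lemma ak_le_one (ht : 0 < t) (hb : 1 ≤ b) (hlam : 0 < lam) (hc2 : 0 ≤ c2) (k : ℕ)
    (x : Fin n → Bool) : ak A t lam b c2 k x ≤ 1 := by
  have hτ := tau_pos ht hb k
  refine clip_le_one ?_
  rw [Real.exp_le_one_iff]
  have : 0 ≤ c2 * lam * tau t b k / 2 := by positivity
  linarith

lemma wt_le_ak {K k : ℕ} (hk : k ≤ K) (x : Fin n → Bool) :
    wt A t lam b c2 K x ≤ ak A t lam b c2 k x :=
  Finset.inf'_le _ (Finset.mem_range.mpr (Nat.lt_succ_of_le hk))

lemma wt_exists (K : ℕ) (x : Fin n → Bool) :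
    ∃ k ≤ K, wt A t lam b c2 K x = ak A t lam b c2 k x := by
  obtain ⟨k, hk, h⟩ := Finset.exists_mem_eq_inf' (s := range (K + 1)) nonempty_range_add_one
    (fun k => ak A t lam b c2 k x)
  exact ⟨k, Nat.lt_succ_iff.mp (Finset.mem_range.mp hk), h⟩

lemma wt_pos (K : ℕ) (x : Fin n → Bool) : 0 < wt A t lam b c2 K x := by
  obtain ⟨k, _, h⟩ := wt_exists (A := A) (t := t) (lam := lam) (b := b) (c2 := c2) K x
  rw [h]; exact ak_pos k x

lemma wt_le_one (ht : 0 < t) (hb : 1 ≤ b) (hlam : 0 < lam) (hc2 : 0 ≤ c2) (K : ℕ)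
    (x : Fin n → Bool) : wt A t lam b c2 K x ≤ 1 :=
  (wt_le_ak (Nat.zero_le K) x).trans (ak_le_one ht hb hlam hc2 0 x)

lemma wt_ge (ht : 0 < t) (hb : 1 ≤ b) (hlam : 0 < lam) (hc2 : 0 ≤ c2) (K : ℕ)
    (x : Fin n → Bool) :
    Real.exp (-(c2 * lam * tau t b K / 2)) ≤ wt A t lam b c2 K x := by
  obtain ⟨k, hk, h⟩ := wt_exists (A := A) (t := t) (lam := lam) (b := b) (c2 := c2) K x
  rw [h]
  refine le_trans (Real.exp_le_exp.mpr ?_) (clip_ge)
  have := tau_mono ht hb hk
  have : c2 * lam * tau t b k ≤ c2 * lam * tau t b K :=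
    mul_le_mul_of_nonneg_left this (by positivity)
  linarith

/-- class estimate for the multi-scale weight -/
lemma wt_class (ht : 0 < t) (hb : 1 ≤ b) (hlam : 0 < lam) (hc2 : 0 ≤ c2) (hlt : 1 ≤ lam * t)
    (hA : A.Nonempty) (K : ℕ) (x : Fin n → Bool) :
    ∑ i : Fin n, (wt A t lam b c2 K x - wt A t lam b c2 K (flip x i)) ^ 2 ≤
      ((K + 1) * ((3 + c2) * lam)) * (wt A t lam b c2 K x) ^ 2 := by
  set α := wt A t lam b c2 K with hα
  have hpos : ∀ y, 0 < α y := fun y => wt_pos K y
  have h1 : ∀ i : Fin n, (α x - α (flip x i)) ^ 2 ≤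
      ∑ k ∈ range (K + 1), (α x) ^ 2 *
        (1 - ak A t lam b c2 k (flip x i) / ak A t lam b c2 k x) ^ 2 := by
    intro i
    have hterm : ∀ k ≤ K, (α x) ^ 2 *
        (1 - ak A t lam b c2 k (flip x i) / ak A t lam b c2 k x) ^ 2 ≤
        ∑ k ∈ range (K + 1), (α x) ^ 2 *
        (1 - ak A t lam b c2 k (flip x i) / ak A t lam b c2 k x) ^ 2 := by
      intro k hk
      exact Finset.single_le_sum (f := fun k => (α x) ^ 2 *
        (1 - ak A t lam b c2 k (flip x i) / ak A t lam b c2 k x) ^ 2)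
        (fun j _ => by positivity) (Finset.mem_range.mpr (Nat.lt_succ_of_le hk))
    by_cases h : α x ≤ α (flip x i)
    · obtain ⟨k, hk, hk2⟩ := wt_exists (A := A) (t := t) (lam := lam) (b := b) (c2 := c2) K x
      refine le_trans ?_ (hterm k hk)
      have h2 : α (flip x i) ≤ ak A t lam b c2 k (flip x i) := wt_le_ak hk _
      have h3 : α x = ak A t lam b c2 k x := hk2
      have h4 := ak_pos (A := A) (t := t) (lam := lam) (b := b) (c2 := c2) k x
      rw [← mul_pow]
      have h5 : α x * (1 - ak A t lam b c2 k (flip x i) / ak A t lam b c2 k x) =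
          α x - ak A t lam b c2 k (flip x i) := by
        rw [h3]; field_simp
      rw [h5]
      nlinarith
    · push Not at h
      obtain ⟨k, hk, hk2⟩ := wt_exists (A := A) (t := t) (lam := lam) (b := b) (c2 := c2) K (flip x i)
      refine le_trans ?_ (hterm k hk)
      have h2 : α x ≤ ak A t lam b c2 k x := wt_le_ak hk _
      have h3 : α (flip x i) = ak A t lam b c2 k (flip x i) := hk2
      have h4 := ak_pos (A := A) (t := t) (lam := lam) (b := b) (c2 := c2) k x
      rw [← mul_pow, ← h3]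
      have h5 : α (flip x i) / ak A t lam b c2 k x ≤ α (flip x i) / α x :=
        div_le_div_of_nonneg_left (hpos _).le (hpos x) h2
      have h6 : α x * (1 - α (flip x i) / α x) = α x - α (flip x i) := by
        have := (hpos x).ne'
        field_simp
      have h7 : α x - α (flip x i) ≤ α x * (1 - α (flip x i) / ak A t lam b c2 k x) := by
        rw [← h6]
        exact mul_le_mul_of_nonneg_left (by linarith) (hpos x).le
      exact pow_le_pow_left₀ (by linarith) h7 2
  calc ∑ i : Fin n, (α x - α (flip x i)) ^ 2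
      ≤ ∑ i : Fin n, ∑ k ∈ range (K + 1), (α x) ^ 2 *
        (1 - ak A t lam b c2 k (flip x i) / ak A t lam b c2 k x) ^ 2 :=
        Finset.sum_le_sum fun i _ => h1 i
    _ = ∑ k ∈ range (K + 1), (α x) ^ 2 * ∑ i : Fin n,
        (1 - ak A t lam b c2 k (flip x i) / ak A t lam b c2 k x) ^ 2 := by
        rw [Finset.sum_comm]
        refine Finset.sum_congr rfl fun k _ => ?_
        rw [Finset.mul_sum]
    _ ≤ ∑ k ∈ range (K + 1), (α x) ^ 2 * ((3 + c2) * lam) :=
        Finset.sum_le_sum fun k _ => mul_le_mul_of_nonneg_left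
          (ak_class ht hb hlam hc2 hlt hA k x) (sq_nonneg _)
    _ = _ := by
        rw [Finset.sum_const, Finset.card_range, nsmul_eq_mul]
        push_cast; ring

/-- the good part of the set -/
lemma wt_core (ht : 0 < t) (hb : 1 ≤ b) (hlam : 0 < lam) (hc2 : 0 ≤ c2) (K : ℕ)
    (x : Fin n → Bool)
    (hx : ∀ k ≤ K, Real.exp (-(2 * lam * tau t b k)) ≤ hk A t b k x) :
    wt A t lam b c2 K x = 1 := by
  obtain ⟨k, hk, h⟩ := wt_exists (A := A) (t := t) (lam := lam) (b := b) (c2 := c2) K x
  rw [h]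
  have hτ := tau_pos ht hb k
  refine clip_big ?_ ?_
  · rw [Real.exp_le_one_iff]
    have : 0 ≤ c2 * lam * tau t b k / 2 := by positivity
    linarith
  · rw [le_div_iff₀ (Real.exp_pos _), one_mul]
    refine Real.le_sqrt_of_sq_le ?_
    refine le_trans (le_of_eq ?_) (hx k hk)
    rw [← Real.exp_nat_mul]
    congr 1
    push_cast; ring

lemma sum_hk (k : ℕ) : ∑ x, hk A t b k x = A.card := by
  unfold hk
  rw [sum_T, sum_ind]

/-- if `h_k` is below the floor then the weight equals the floor -/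
lemma ak_floor (ht : 0 < t) (hb : 1 ≤ b) (hlam : 0 < lam) (hc2 : 0 ≤ c2) (k : ℕ)
    (x : Fin n → Bool)
    (hx : hk A t b k x < Real.exp (-((2 + c2) * lam * tau t b k))) :
    ak A t lam b c2 k x = Real.exp (-(c2 * lam * tau t b k / 2)) := by
  have hτ := tau_pos ht hb k
  refine clip_small ?_ ?_
  · rw [Real.exp_le_one_iff]
    have : 0 ≤ c2 * lam * tau t b k / 2 := by positivity
    linarith
  · rw [div_le_iff₀ (Real.exp_pos _), ← Real.exp_add]
    rw [Real.sqrt_le_left (Real.exp_pos _).le]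
    refine hx.le.trans (le_of_eq ?_)
    rw [← Real.exp_nat_mul]
    congr 1
    push_cast; ring

/-- pointwise bound for powers of the weight -/
lemma wt_rpow_le (ht : 0 < t) (hb : 1 ≤ b) (hlam : 0 < lam) (hc2 : 0 ≤ c2) {ρ : ℝ}
    (hρ : 0 < ρ) (hA : A.Nonempty) (K : ℕ) (x : Fin n → Bool) :
    (wt A t lam b c2 K x) ^ (2 * ρ) ≤
      hk A t b 0 x / Real.exp (-((2 + c2) * lam * t)) +
      ∑ k ∈ range K, Real.exp (-(ρ * c2 * lam * tau t b k)) *
        (hk A t b (k + 1) x / Real.exp (-((2 + c2) * lam * tau t b (k + 1)))) +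
      Real.exp (-(ρ * c2 * lam * tau t b K)) := by
  have hpos := wt_pos (A := A) (t := t) (lam := lam) (b := b) (c2 := c2) K x
  have hh := fun k => hk_pos (A := A) ht hb hA k x
  have hS : 0 ≤ ∑ k ∈ range K, Real.exp (-(ρ * c2 * lam * tau t b k)) *
        (hk A t b (k + 1) x / Real.exp (-((2 + c2) * lam * tau t b (k + 1)))) :=
    Finset.sum_nonneg fun k _ => by have := hh (k+1); positivity
  have h0 : 0 ≤ hk A t b 0 x / Real.exp (-((2 + c2) * lam * t)) := by
    have := hh 0; positivity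
  have hfloor : ∀ k ≤ K, hk A t b k x < Real.exp (-((2 + c2) * lam * tau t b k)) →
      (wt A t lam b c2 K x) ^ (2 * ρ) ≤ Real.exp (-(ρ * c2 * lam * tau t b k)) := by
    intro k hkK hlt
    have h1 : wt A t lam b c2 K x ≤ Real.exp (-(c2 * lam * tau t b k / 2)) := by
      rw [← ak_floor (A := A) ht hb hlam hc2 k x hlt]
      exact wt_le_ak hkK x
    calc (wt A t lam b c2 K x) ^ (2 * ρ) ≤ (Real.exp (-(c2 * lam * tau t b k / 2))) ^ (2 * ρ) :=
          Real.rpow_le_rpow hpos.le h1 (by positivity)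
      _ = Real.exp (-(ρ * c2 * lam * tau t b k)) := by
          rw [← Real.exp_mul]; congr 1; ring
  by_cases hex : ∃ k, k ≤ K ∧ Real.exp (-((2 + c2) * lam * tau t b k)) ≤ hk A t b k x
  · classical
    have hspec := Nat.find_spec hex
    have hmin : ∀ j < Nat.find hex, ¬ (j ≤ K ∧ Real.exp (-((2 + c2) * lam * tau t b j)) ≤
        hk A t b j x) := fun j hj => Nat.find_min hex hj
    set k := Nat.find hex with hkdef
    obtain ⟨hkK, hge⟩ := hspec
    rcases Nat.eq_zero_or_pos k with h | h
    · rw [h] at hge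
      have h1 : (wt A t lam b c2 K x) ^ (2 * ρ) ≤ 1 :=
        Real.rpow_le_one hpos.le (wt_le_one ht hb hlam hc2 K x) (by positivity)
      have h2 : 1 ≤ hk A t b 0 x / Real.exp (-((2 + c2) * lam * t)) := by
        rw [le_div_iff₀ (Real.exp_pos _), one_mul]
        have : tau t b 0 = t := by unfold tau; simp
        rw [this] at hge
        exact hge
      have := Real.exp_pos (-(ρ * c2 * lam * tau t b K))
      linarith
    · obtain ⟨j, hj⟩ : ∃ j, k = j + 1 := ⟨k - 1, by omega⟩
      have hjlt : j < k := by omega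
      have hjK : j ≤ K := by omega
      have hnot := hmin j hjlt
      have hlt : hk A t b j x < Real.exp (-((2 + c2) * lam * tau t b j)) := by
        by_contra hcon
        push Not at hcon
        exact hnot ⟨hjK, hcon⟩
      have h1 := hfloor j hjK hlt
      have h2 : Real.exp (-(ρ * c2 * lam * tau t b j)) ≤
          Real.exp (-(ρ * c2 * lam * tau t b j)) *
          (hk A t b (j + 1) x / Real.exp (-((2 + c2) * lam * tau t b (j + 1)))) := by
        refine le_mul_of_one_le_right (Real.exp_pos _).le ?_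
        rw [le_div_iff₀ (Real.exp_pos _), one_mul]
        rw [hj] at hge
        exact hge
      have h3 := Finset.single_le_sum (f := fun k => Real.exp (-(ρ * c2 * lam * tau t b k)) *
        (hk A t b (k + 1) x / Real.exp (-((2 + c2) * lam * tau t b (k + 1)))))
        (fun k _ => by have := hh (k+1); positivity)
        (Finset.mem_range.mpr (show j < K by omega))
      have := Real.exp_pos (-(ρ * c2 * lam * tau t b K))
      linarith
  · push Not at hex
    have h1 := hfloor K le_rfl (hex K le_rfl)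
    linarith

/-- integrability of the weight -/
lemma wt_sum_le (ht : 0 < t) (hb : 1 ≤ b) (hlam : 0 < lam) (hc2 : 0 ≤ c2) {ρ : ℝ}
    (hρ : 0 < ρ) (hρb : b * (2 + c2) ≤ ρ * c2) (hA : A.Nonempty) (K : ℕ)
    (hK : 2 ^ n * Real.exp (-(ρ * c2 * lam * tau t b K)) ≤ A.card) :
    ∑ x, (wt A t lam b c2 K x) ^ (2 * ρ) ≤
      (Real.exp ((2 + c2) * lam * t) + K + 1) * A.card := by
  have h1 : ∑ x, (wt A t lam b c2 K x) ^ (2 * ρ) ≤ ∑ x : Fin n → Bool,
      (hk A t b 0 x / Real.exp (-((2 + c2) * lam * t)) +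
      ∑ k ∈ range K, Real.exp (-(ρ * c2 * lam * tau t b k)) *
        (hk A t b (k + 1) x / Real.exp (-((2 + c2) * lam * tau t b (k + 1)))) +
      Real.exp (-(ρ * c2 * lam * tau t b K))) :=
    Finset.sum_le_sum fun x _ => wt_rpow_le ht hb hlam hc2 hρ hA K x
  refine h1.trans ?_
  rw [Finset.sum_add_distrib, Finset.sum_add_distrib, ← Finset.sum_div, sum_hk,
    Finset.sum_comm]
  have h2 : ∑ k ∈ range K, ∑ x : Fin n → Bool, Real.exp (-(ρ * c2 * lam * tau t b k)) *
        (hk A t b (k + 1) x / Real.exp (-((2 + c2) * lam * tau t b (k + 1)))) ≤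
      ∑ k ∈ range K, (A.card : ℝ) := by
    refine Finset.sum_le_sum fun k _ => ?_
    rw [← Finset.mul_sum, ← Finset.sum_div, sum_hk]
    have h3 : Real.exp (-(ρ * c2 * lam * tau t b k)) *
        ((A.card : ℝ) / Real.exp (-((2 + c2) * lam * tau t b (k + 1)))) =
        A.card * Real.exp (-(ρ * c2 * lam * tau t b k) + (2 + c2) * lam * tau t b (k + 1)) := by
      rw [Real.exp_add, Real.exp_neg ((2 + c2) * lam * tau t b (k + 1))]
      field_simp
    rw [h3]
    refine mul_le_of_le_one_right (Nat.cast_nonneg _) ?_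
    rw [Real.exp_le_one_iff]
    have h4 : tau t b (k + 1) = b * tau t b k := by unfold tau; ring
    rw [h4]
    have h5 := tau_pos ht hb k
    have h6 : b * (2 + c2) * (lam * tau t b k) ≤ ρ * c2 * (lam * tau t b k) :=
      mul_le_mul_of_nonneg_right hρb (by positivity)
    nlinarith
  rw [Finset.sum_const, Finset.card_range, nsmul_eq_mul] at h2
  have h3 : ∑ _x : Fin n → Bool, Real.exp (-(ρ * c2 * lam * tau t b K)) =
      2 ^ n * Real.exp (-(ρ * c2 * lam * tau t b K)) := by
    simp
  rw [h3]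
  have h4 : (A.card : ℝ) / Real.exp (-((2 + c2) * lam * t)) =
      Real.exp ((2 + c2) * lam * t) * A.card := by
    rw [Real.exp_neg]; field_simp
  rw [h4]
  linarith

/-- decay of the badly spread part at one scale -/
lemma bad_k (ht : 0 < t) (hb : 1 < b) (k : ℕ)
    (B : Finset (Fin n → Bool)) (hBA : B ⊆ A)
    (hB : ∀ x ∈ B, hk A t b k x ≤ Real.exp (-(2 * lam * tau t b k))) :
    ∑ x, (T (Real.exp (-t)) (ind B) x) ^ 2 ≤ Real.exp (-(2 * lam * t)) * A.card := by
  have hτ := tau_pos ht hb.le k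
  set τ := tau t b k with hτd
  have hcard : (B.card : ℝ) ≤ A.card := by exact_mod_cast Finset.card_le_card hBA
  have hτ1 : Real.exp (-τ) ≤ 1 := by rw [Real.exp_le_one_iff]; linarith
  have h1 : ∑ x, (T (Real.exp (-τ)) (ind B) x) ^ 2 ≤ Real.exp (-(2 * lam * τ)) * B.card := by
    have e1 : ∑ x, (T (Real.exp (-τ)) (ind B) x) ^ 2 =
        ∑ x, ind B x * T (Real.exp (-(2 * τ))) (ind B) x := by
      have : T (Real.exp (-(2 * τ))) (ind B) =
          T (Real.exp (-τ)) (T (Real.exp (-τ)) (ind B)) := by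
        rw [T_comp, ← Real.exp_add]
        congr 2; ring
      rw [this, ← T_selfadj]
      refine Finset.sum_congr rfl fun x _ => ?_
      ring
    rw [e1]
    have e2 : ∀ x, ind B x * T (Real.exp (-(2 * τ))) (ind B) x ≤
        ind B x * Real.exp (-(2 * lam * τ)) := by
      intro x
      by_cases hx : x ∈ B
      · refine mul_le_mul_of_nonneg_left ?_ (ind_nonneg B x)
        refine le_trans ?_ (hB x hx)
        refine T_mono (Real.exp_pos _).le ?_ ?_ x
        · rw [Real.exp_le_one_iff]; linarith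
        · intro y
          unfold ind
          by_cases hy : y ∈ B
          · simp [hy, hBA hy]
          · simp only [hy, if_false]; split_ifs <;> norm_num
      · have : ind B x = 0 := by unfold ind; simp [hx]
        rw [this]; simp
    calc ∑ x, ind B x * T (Real.exp (-(2 * τ))) (ind B) x
        ≤ ∑ x, ind B x * Real.exp (-(2 * lam * τ)) := Finset.sum_le_sum fun x _ => e2 x
      _ = _ := by rw [← Finset.sum_mul, sum_ind]; ring
  have hBc : (0:ℝ) ≤ B.card := Nat.cast_nonneg _
  have hgoal : ∑ x, (T (Real.exp (-t)) (ind B) x) ^ 2 ≤ Real.exp (-(2 * lam * t)) * B.card := by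
    rcases Nat.eq_zero_or_pos k with hk0 | hkpos
    · have : τ = t := by rw [hτd, hk0]; unfold tau; simp
      rw [this] at h1
      exact h1
    · have hlt : t < τ := by
        rw [hτd]; unfold tau
        have : 1 < b ^ k := one_lt_pow₀ hb (by omega)
        nlinarith
      have h2 := logconv ht hlt (ind B)
      rw [sum_ind_sq] at h2
      refine h2.trans ?_
      have h3 : (∑ x, (T (Real.exp (-τ)) (ind B) x) ^ 2) ^ (t / τ) ≤
          (Real.exp (-(2 * lam * τ)) * B.card) ^ (t / τ) :=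
        Real.rpow_le_rpow (Finset.sum_nonneg fun x _ => sq_nonneg _) h1 (by positivity)
      have hr0 : 0 < t / τ := by positivity
      have hr1 : t / τ < 1 := by rw [div_lt_one hτ]; exact hlt
      calc (∑ x, (T (Real.exp (-τ)) (ind B) x) ^ 2) ^ (t / τ) * (B.card : ℝ) ^ (1 - t / τ)
          ≤ (Real.exp (-(2 * lam * τ)) * B.card) ^ (t / τ) * (B.card : ℝ) ^ (1 - t / τ) :=
            mul_le_mul_of_nonneg_right h3 (by positivity)
        _ = Real.exp (-(2 * lam * t)) * B.card := by
            rw [Real.mul_rpow (Real.exp_pos _).le hBc, ← Real.exp_mul, mul_assoc]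
            have e3 : -(2 * lam * τ) * (t / τ) = -(2 * lam * t) := by field_simp
            rw [e3]
            congr 1
            rcases hBc.eq_or_lt with h | h
            · rw [← h, Real.zero_rpow hr0.ne', zero_mul]
            · rw [← Real.rpow_add h, add_sub_cancel, Real.rpow_one]
  exact hgoal.trans (mul_le_mul_of_nonneg_left hcard (Real.exp_pos _).le)

open Classical in
/-- core of `A` -/
noncomputable def core (A : Finset (Fin n → Bool)) (t lam b : ℝ) (K : ℕ) :
    Finset (Fin n → Bool) :=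
  A.filter (fun x => ∀ k ≤ K, Real.exp (-(2 * lam * tau t b k)) ≤ hk A t b k x)

open Classical in
/-- decay of the complement of the core -/
lemma bad_part (ht : 0 < t) (hb : 1 < b) (K : ℕ) :
    ∑ x, (T (Real.exp (-t)) (ind (A \ core A t lam b K)) x) ^ 2 ≤
      ((K : ℝ) + 1) ^ 2 * Real.exp (-(2 * lam * t)) * A.card := by
  set B := A \ core A t lam b K with hB
  set Bk : ℕ → Finset (Fin n → Bool) := fun k =>
    A.filter (fun x => hk A t b k x < Real.exp (-(2 * lam * tau t b k))) with hBk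
  have ht1 : Real.exp (-t) ≤ 1 := by rw [Real.exp_le_one_iff]; linarith
  have h1 : ∀ y, ind B y ≤ ∑ k ∈ range (K + 1), ind (Bk k) y := by
    intro y
    by_cases hy : y ∈ B
    · rw [hB, Finset.mem_sdiff] at hy
      obtain ⟨hyA, hyc⟩ := hy
      unfold core at hyc
      rw [Finset.mem_filter, not_and] at hyc
      have := hyc hyA
      push Not at this
      obtain ⟨k, hkK, hlt⟩ := this
      have hyk : y ∈ Bk k := by
        simp only [hBk, Finset.mem_filter]
        exact ⟨hyA, hlt⟩
      calc ind B y ≤ 1 := ind_le_one B y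
        _ = ind (Bk k) y := by unfold ind; simp [hyk]
        _ ≤ _ := Finset.single_le_sum (f := fun k => ind (Bk k) y)
            (fun j _ => ind_nonneg _ _) (Finset.mem_range.mpr (Nat.lt_succ_of_le hkK))
    · have : ind B y = 0 := by unfold ind; simp [hy]
      rw [this]
      exact Finset.sum_nonneg fun j _ => ind_nonneg _ _
  have h2 : ∀ x, T (Real.exp (-t)) (ind B) x ≤
      ∑ k ∈ range (K + 1), T (Real.exp (-t)) (ind (Bk k)) x := by
    intro x
    calc T (Real.exp (-t)) (ind B) x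
        ≤ T (Real.exp (-t)) (fun y => ∑ k ∈ range (K + 1), ind (Bk k) y) x :=
          T_mono (Real.exp_pos _).le ht1 h1 x
      _ = _ := by
          unfold T
          simp_rw [Finset.mul_sum]
          rw [Finset.sum_comm]
  have h3 : ∀ x, (T (Real.exp (-t)) (ind B) x) ^ 2 ≤
      ((K : ℝ) + 1) * ∑ k ∈ range (K + 1), (T (Real.exp (-t)) (ind (Bk k)) x) ^ 2 := by
    intro x
    have h0 : 0 ≤ T (Real.exp (-t)) (ind B) x :=
      T_nonneg (Real.exp_pos _).le ht1 (ind_nonneg B) x
    calc (T (Real.exp (-t)) (ind B) x) ^ 2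
        ≤ (∑ k ∈ range (K + 1), T (Real.exp (-t)) (ind (Bk k)) x) ^ 2 :=
          pow_le_pow_left₀ h0 (h2 x) 2
      _ ≤ ((range (K + 1)).card : ℝ) * ∑ k ∈ range (K + 1),
          (T (Real.exp (-t)) (ind (Bk k)) x) ^ 2 := sq_sum_le_card_mul_sum_sq
      _ = _ := by rw [Finset.card_range]; push_cast; ring
  calc ∑ x, (T (Real.exp (-t)) (ind B) x) ^ 2
      ≤ ∑ x, ((K : ℝ) + 1) * ∑ k ∈ range (K + 1), (T (Real.exp (-t)) (ind (Bk k)) x) ^ 2 :=
        Finset.sum_le_sum fun x _ => h3 x
    _ = ((K : ℝ) + 1) * ∑ k ∈ range (K + 1), ∑ x, (T (Real.exp (-t)) (ind (Bk k)) x) ^ 2 := by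
        rw [← Finset.mul_sum, Finset.sum_comm]
    _ ≤ ((K : ℝ) + 1) * ∑ _k ∈ range (K + 1), Real.exp (-(2 * lam * t)) * A.card := by
        refine mul_le_mul_of_nonneg_left (Finset.sum_le_sum fun k _ => ?_) (by positivity)
        refine bad_k (A := A) (lam := lam) ht hb k (Bk k) (Finset.filter_subset _ _) ?_
        intro x hx
        simp only [hBk, Finset.mem_filter] at hx
        exact hx.2.le
    _ = _ := by
        rw [Finset.sum_const, Finset.card_range, nsmul_eq_mul]
        push_cast; ring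

end lemmas

end Pool.Agent.H81.HS
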