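import Pool.Agent.H81.HS.Energy

set_option autoImplicit false

/-! Weighted decay of functions of high degree: maximum principle in a sector. -/

namespace Pool.Agent.H81.HS

open Finset

lemma parseval_r {n : ℕ} (a : Finset (Fin n) → ℝ) :
    ∑ x : Fin n → Bool, (∑ S : Finset (Fin n), a S * chi S x) ^ 2 =
      2 ^ n * ∑ S : Finset (Fin n), (a S) ^ 2 := by
  have h1 : ∀ x : Fin n → Bool, (∑ S : Finset (Fin n), a S * chi S x) ^ 2 =
      ∑ S : Finset (Fin n), ∑ S' : Finset (Fin n), a S * a S' * (chi S x * chi S' x) := by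
    intro x
    rw [sq, Finset.sum_mul_sum]
    refine Finset.sum_congr rfl fun S _ => Finset.sum_congr rfl fun S' _ => ?_
    ring
  rw [Finset.sum_congr rfl (fun x _ => h1 x), Finset.sum_comm, Finset.mul_sum]
  refine Finset.sum_congr rfl fun S _ => ?_
  rw [Finset.sum_comm]
  simp_rw [← Finset.mul_sum, chi_orth]
  simp only [mul_ite, mul_zero, Finset.sum_ite_eq, Finset.mem_univ, if_true]
  ring

lemma parseval_c {n : ℕ} (c : Finset (Fin n) → ℂ) :
    ∑ x : Fin n → Bool, ‖∑ S : Finset (Fin n), c S * (chi S x : ℂ)‖ ^ 2 =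
      2 ^ n * ∑ S : Finset (Fin n), ‖c S‖ ^ 2 := by
  have h1 : ∀ x : Fin n → Bool, ‖∑ S : Finset (Fin n), c S * (chi S x : ℂ)‖ ^ 2 =
      (∑ S : Finset (Fin n), (c S).re * chi S x) ^ 2 +
      (∑ S : Finset (Fin n), (c S).im * chi S x) ^ 2 := by
    intro x
    rw [← Complex.normSq_eq_norm_sq, Complex.normSq_apply, Complex.re_sum, Complex.im_sum]
    simp only [Complex.re_mul_ofReal, Complex.im_mul_ofReal]
    ring
  rw [Finset.sum_congr rfl (fun x _ => h1 x), Finset.sum_add_distrib, parseval_r, parseval_r,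
    ← mul_add, ← Finset.sum_add_distrib]
  congr 1
  refine Finset.sum_congr rfl fun S _ => ?_
  rw [← Complex.normSq_eq_norm_sq, Complex.normSq_apply]
  ring

lemma parseval_f {n : ℕ} (f : (Fin n → Bool) → ℝ) :
    ∑ x, (f x) ^ 2 = 2 ^ n * ∑ S : Finset (Fin n), (co f S) ^ 2 := by
  rw [← parseval_r]
  refine Finset.sum_congr rfl fun x _ => ?_
  rw [← expand]

/-- decay of the unweighted norm -/
lemma l2_tail {n d : ℕ} {f : (Fin n → Bool) → ℝ} (hf : ∀ S : Finset (Fin n), S.card < d → co f S = 0)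
    {z : ℂ} (hz : 0 ≤ z.re) :
    ∑ x, ‖Fz f z x‖ ^ 2 ≤ Real.exp (-(2 * d * z.re)) * ∑ x, (f x) ^ 2 := by
  unfold Fz
  rw [parseval_c, parseval_f]
  have : Real.exp (-(2 * d * z.re)) * (2 ^ n * ∑ S : Finset (Fin n), (co f S) ^ 2) =
      2 ^ n * ∑ S : Finset (Fin n), Real.exp (-(2 * d * z.re)) * (co f S) ^ 2 := by
    rw [← Finset.mul_sum]; ring
  rw [this]
  refine mul_le_mul_of_nonneg_left ?_ (by positivity)
  refine Finset.sum_le_sum fun S _ => ?_
  rw [norm_mul, Complex.norm_exp, Complex.norm_real, Real.norm_eq_abs, mul_pow, sq_abs]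
  by_cases h : S.card < d
  · rw [hf S h]; simp
  · push Not at h
    refine mul_le_mul_of_nonneg_right ?_ (sq_nonneg _)
    rw [← Real.exp_nat_mul]
    refine Real.exp_le_exp.mpr ?_
    have h1 : (-(z * (S.card : ℂ))).re = -(z.re * S.card) := by
      simp
    rw [h1]
    push_cast
    have h2 : (d : ℝ) ≤ S.card := by exact_mod_cast h
    nlinarith

/-- Cauchy–Schwarz with weights -/
lemma cs_weight {n : ℕ} (α φ : (Fin n → Bool) → ℝ) (g : (Fin n → Bool) → ℂ) :
    ‖∑ x, (((α x) ^ 2 * φ x : ℝ) : ℂ) * g x‖ ≤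
      Real.sqrt (en α g) * Real.sqrt (∑ x, (α x) ^ 2 * (φ x) ^ 2) := by
  calc ‖∑ x, (((α x) ^ 2 * φ x : ℝ) : ℂ) * g x‖ ≤ ∑ x, ‖(((α x) ^ 2 * φ x : ℝ) : ℂ) * g x‖ :=
        norm_sum_le _ _
    _ = ∑ x, (|α x| * ‖g x‖) * (|α x| * |φ x|) := by
        refine Finset.sum_congr rfl fun x _ => ?_
        rw [norm_mul, Complex.norm_real, Real.norm_eq_abs, abs_mul, abs_pow]
        ring
    _ ≤ Real.sqrt (∑ x, (|α x| * ‖g x‖) ^ 2) * Real.sqrt (∑ x, (|α x| * |φ x|) ^ 2) :=
        Real.sum_mul_le_sqrt_mul_sqrt _ _ _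
    _ = _ := by
        unfold en
        congr 2
        · refine Finset.sum_congr rfl fun x _ => ?_
          rw [mul_pow, sq_abs]
        · refine Finset.sum_congr rfl fun x _ => ?_
          rw [mul_pow, sq_abs, sq_abs]

/-- pairing of the flow against a fixed function is entire -/
lemma Fz_differentiable {n : ℕ} (f : (Fin n → Bool) → ℝ) (x : Fin n → Bool) :
    Differentiable ℂ (fun z => Fz f z x) := by
  unfold Fz
  fun_prop

/-- frontier of the half disc -/
lemma frontier_half {ζ : ℂ} (h : ζ ∈ frontier {ζ : ℂ | 0 < ζ.re ∧ ‖ζ‖ < 1}) :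
    0 ≤ ζ.re ∧ ‖ζ‖ ≤ 1 ∧ (ζ.re = 0 ∨ ‖ζ‖ = 1) := by
  have hopen : IsOpen {ζ : ℂ | 0 < ζ.re ∧ ‖ζ‖ < 1} :=
    (isOpen_lt continuous_const Complex.continuous_re).inter
      (isOpen_lt continuous_norm continuous_const)
  have hcl : closure {ζ : ℂ | 0 < ζ.re ∧ ‖ζ‖ < 1} ⊆ {ζ : ℂ | 0 ≤ ζ.re ∧ ‖ζ‖ ≤ 1} := by
    refine closure_minimal ?_ ?_
    · rintro w ⟨h1, h2⟩; exact ⟨h1.le, h2.le⟩
    · exact (isClosed_le continuous_const Complex.continuous_re).inter
        (isClosed_le continuous_norm continuous_const)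
  rw [hopen.frontier_eq] at h
  obtain ⟨h1, h2⟩ := h
  have h3 := hcl h1
  refine ⟨h3.1, h3.2, ?_⟩
  by_contra hcon
  push Not at hcon
  exact h2 ⟨lt_of_le_of_ne h3.1 (Ne.symm hcon.1), lt_of_le_of_ne h3.2 hcon.2⟩

lemma closure_half {ζ : ℂ} (h : ζ ∈ closure {ζ : ℂ | 0 < ζ.re ∧ ‖ζ‖ < 1}) :
    0 ≤ ζ.re ∧ ‖ζ‖ ≤ 1 := by
  have hcl : closure {ζ : ℂ | 0 < ζ.re ∧ ‖ζ‖ < 1} ⊆ {ζ : ℂ | 0 ≤ ζ.re ∧ ‖ζ‖ ≤ 1} := by
    refine closure_minimal ?_ ?_
    · rintro w ⟨h1, h2⟩; exact ⟨h1.le, h2.le⟩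
    · exact (isClosed_le continuous_const Complex.continuous_re).inter
        (isClosed_le continuous_norm continuous_const)
  exact hcl h

/-- polar form of a real power -/
lemma cpow_polar {ζ : ℂ} (hζ : ζ ≠ 0) (μ : ℝ) :
    ζ ^ (μ : ℂ) = ((‖ζ‖ ^ μ : ℝ) : ℂ) * Complex.exp (((μ * ζ.arg : ℝ) : ℂ) * Complex.I) := by
  rw [Complex.cpow_def_of_ne_zero hζ, Complex.log]
  rw [Real.rpow_def_of_pos (norm_pos_iff.mpr hζ)]
  push_cast
  rw [← Complex.exp_add]
  congr 1
  ring

/-- key bound on the cone: `z = r e` with `e = exp(iθ)` -/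
lemma cone_bound {n : ℕ} {α : (Fin n → Bool) → ℝ} (hα : ∀ x, 0 < α x) {L : ℝ}
    (hcl : ∀ x, ∑ i : Fin n, (α x - α (flip x i)) ^ 2 ≤ L * (α x) ^ 2)
    (f : (Fin n → Bool) → ℝ) {θ r : ℝ} (hr : 0 ≤ r) (hc : 0 < Real.cos θ) :
    Real.sqrt (en α (Fz f ((r : ℂ) * Complex.exp ((θ : ℂ) * Complex.I)))) ≤
      Real.exp (L * r / Real.cos θ) * Real.sqrt (∑ x, (α x) ^ 2 * (f x) ^ 2) := by
  have he : ‖Complex.exp ((θ : ℂ) * Complex.I)‖ = 1 := Complex.norm_exp_ofReal_mul_I θ
  have hre : (Complex.exp ((θ : ℂ) * Complex.I)).re = Real.cos θ :=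
    Complex.exp_ofReal_mul_I_re θ
  have h := energy hα hcl f he (by rw [hre]; exact hc) hr
  rw [hre] at h
  have h0 : 0 ≤ ∑ x, (α x) ^ 2 * (f x) ^ 2 :=
    Finset.sum_nonneg fun x _ => by positivity
  calc Real.sqrt (en α (Fz f ((r : ℂ) * Complex.exp ((θ : ℂ) * Complex.I))))
      ≤ Real.sqrt (Real.exp (2 * L * r / Real.cos θ) * ∑ x, (α x) ^ 2 * (f x) ^ 2) :=
        Real.sqrt_le_sqrt h
    _ = _ := by
        rw [Real.sqrt_mul (Real.exp_pos _).le]
        congr 1
        rw [Real.sqrt_eq_iff_mul_self_eq (Real.exp_pos _).le (Real.exp_pos _).le,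
          ← Real.exp_add]
        congr 1
        ring

/-- far region: unweighted decay -/
lemma far_bound {n d : ℕ} {α : (Fin n → Bool) → ℝ} {R : ℝ}
    (hα0 : ∀ x, Real.exp (-(d * R / 4)) ≤ α x) (hα1 : ∀ x, α x ≤ 1)
    {f : (Fin n → Bool) → ℝ} (hf : ∀ S : Finset (Fin n), S.card < d → co f S = 0)
    {z : ℂ} (hz : 0 ≤ z.re) :
    Real.sqrt (en α (Fz f z)) ≤
      Real.exp (-(d * z.re) + d * R / 4) * Real.sqrt (∑ x, (α x) ^ 2 * (f x) ^ 2) := by
  have hpos : ∀ x, 0 < α x := fun x => (Real.exp_pos _).trans_le (hα0 x)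
  have h1 : en α (Fz f z) ≤ ∑ x, ‖Fz f z x‖ ^ 2 := by
    unfold en
    refine Finset.sum_le_sum fun x _ => ?_
    have : (α x) ^ 2 ≤ 1 := pow_le_one₀ (hpos x).le (hα1 x)
    nlinarith [sq_nonneg ‖Fz f z x‖]
  have h2 : ∑ x, (f x) ^ 2 ≤ Real.exp (d * R / 2) * ∑ x, (α x) ^ 2 * (f x) ^ 2 := by
    rw [Finset.mul_sum]
    refine Finset.sum_le_sum fun x _ => ?_
    have h3 : 1 ≤ Real.exp (d * R / 2) * (α x) ^ 2 := by
      have h4 : (Real.exp (-(d * R / 4))) ^ 2 ≤ (α x) ^ 2 :=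
        pow_le_pow_left₀ (Real.exp_pos _).le (hα0 x) 2
      have h5 : Real.exp (d * R / 2) * (Real.exp (-(d * R / 4))) ^ 2 = 1 := by
        rw [← Real.exp_nat_mul, ← Real.exp_add]
        rw [show ((d : ℝ) * R / 2 + ((2 : ℕ) : ℝ) * -((d : ℝ) * R / 4)) = 0 by push_cast; ring]
        exact Real.exp_zero
      calc (1 : ℝ) = Real.exp (d * R / 2) * (Real.exp (-(d * R / 4))) ^ 2 := h5.symm
        _ ≤ _ := mul_le_mul_of_nonneg_left h4 (Real.exp_pos _).le
    calc (f x) ^ 2 = 1 * (f x) ^ 2 := (one_mul _).symm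
      _ ≤ (Real.exp (d * R / 2) * (α x) ^ 2) * (f x) ^ 2 :=
          mul_le_mul_of_nonneg_right h3 (sq_nonneg _)
      _ = _ := by ring
  have h3 := l2_tail hf hz
  have h4 : en α (Fz f z) ≤ (Real.exp (-(d * z.re) + d * R / 4)) ^ 2 *
      ∑ x, (α x) ^ 2 * (f x) ^ 2 := by
    calc en α (Fz f z) ≤ Real.exp (-(2 * d * z.re)) * ∑ x, (f x) ^ 2 := h1.trans h3
      _ ≤ Real.exp (-(2 * d * z.re)) * (Real.exp (d * R / 2) * ∑ x, (α x) ^ 2 * (f x) ^ 2) :=
          mul_le_mul_of_nonneg_left h2 (Real.exp_pos _).le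
      _ = _ := by
          rw [← mul_assoc, ← Real.exp_add, ← Real.exp_nat_mul]
          congr 2
          push_cast; ring
  calc Real.sqrt (en α (Fz f z)) ≤ Real.sqrt ((Real.exp (-(d * z.re) + d * R / 4)) ^ 2 *
      ∑ x, (α x) ^ 2 * (f x) ^ 2) := Real.sqrt_le_sqrt h4
    _ = _ := by
        rw [Real.sqrt_mul (sq_nonneg _), Real.sqrt_sq (Real.exp_pos _).le]

/-- weighted decay for functions of high degree -/
theorem sector {n d : ℕ} {α : (Fin n → Bool) → ℝ} {R t L : ℝ}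
    (hα0 : ∀ x, Real.exp (-(d * R / 4)) ≤ α x) (hα1 : ∀ x, α x ≤ 1)
    (hcl : ∀ x, ∑ i : Fin n, (α x - α (flip x i)) ^ 2 ≤ L * (α x) ^ 2)
    {f : (Fin n → Bool) → ℝ} (hf : ∀ S : Finset (Fin n), S.card < d → co f S = 0)
    (ht : 0 < t) (hR : t * Real.exp 1 ≤ R) (hL : 100 * L * (Real.log (R / t)) ^ 2 ≤ d) :
    ∑ x, (α x) ^ 2 * (T (Real.exp (-t)) f x) ^ 2 ≤
      Real.exp (-(3 / 50 * d * t)) * ∑ x, (α x) ^ 2 * (f x) ^ 2 := by
  have hpos : ∀ x, 0 < α x := fun x => (Real.exp_pos _).trans_le (hα0 x)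
  have hR0 : 0 < R := lt_of_lt_of_le (by positivity) hR
  have hL0 : 0 ≤ L := by
    have h1 := hcl (fun _ => false)
    have h2 : 0 ≤ ∑ i : Fin n, (α (fun _ => false) - α (flip (fun _ => false) i)) ^ 2 :=
      Finset.sum_nonneg fun i _ => sq_nonneg _
    have h3 := hpos (fun _ => false)
    by_contra hcon
    push Not at hcon
    have : L * (α (fun _ => false)) ^ 2 < 0 := mul_neg_of_neg_of_pos hcon (by positivity)
    linarith
  set ℓ := Real.log (R / t) with hℓ
  have hℓ1 : 1 ≤ ℓ := by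
    rw [hℓ, Real.le_log_iff_exp_le (by positivity), le_div_iff₀ ht]
    linarith
  set μ : ℝ := 1 - 1 / (2 * ℓ) with hμ
  have hμ0 : 1 / 2 ≤ μ := by
    have : 1 / (2 * ℓ) ≤ 1 / 2 := by
      rw [div_le_div_iff₀ (by positivity) (by norm_num)]; linarith
    rw [hμ]; linarith
  have hμ1 : μ < 1 := by
    have : 0 < 1 / (2 * ℓ) := by positivity
    rw [hμ]; linarith
  have hμpos : 0 < μ := by linarith
  -- cosine lower bound
  have hcos : ∀ θ : ℝ, |θ| ≤ Real.pi / 2 → 1 / (2 * ℓ) ≤ Real.cos (μ * θ) := by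
    intro θ hθ
    have h1 : |μ * θ| ≤ μ * (Real.pi / 2) := by
      rw [abs_mul, abs_of_pos hμpos]
      exact mul_le_mul_of_nonneg_left hθ hμpos.le
    have h2 : μ * (Real.pi / 2) ≤ Real.pi := by nlinarith [Real.pi_pos]
    calc 1 / (2 * ℓ) = 2 / Real.pi * (Real.pi / 2 * (1 / (2 * ℓ))) := by
          field_simp
      _ ≤ Real.sin (Real.pi / 2 * (1 / (2 * ℓ))) := by
          refine Real.mul_le_sin (by positivity) ?_
          have : 1 / (2 * ℓ) ≤ 1 := by linarith
          nlinarith [Real.pi_pos]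
      _ = Real.cos (μ * (Real.pi / 2)) := by
          rw [← Real.cos_pi_div_two_sub]
          congr 1
          rw [hμ]; ring
      _ ≤ Real.cos |μ * θ| := by
          exact Real.cos_le_cos_of_nonneg_of_le_pi (abs_nonneg _) h2 h1
      _ = Real.cos (μ * θ) := Real.cos_abs _
  set A : ℝ := 4 * L * ℓ ^ 2 with hA
  have hA0 : 0 ≤ A := by positivity
  set S0 := ∑ x, (α x) ^ 2 * (f x) ^ 2 with hS0
  set S1 := ∑ x, (α x) ^ 2 * (T (Real.exp (-t)) f x) ^ 2 with hS1
  have hS00 : 0 ≤ S0 := Finset.sum_nonneg fun x _ => by positivity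
  have hS10 : 0 ≤ S1 := Finset.sum_nonneg fun x _ => by positivity
  set g : ℂ → ℂ := fun z => ∑ x, (((α x) ^ 2 * T (Real.exp (-t)) f x : ℝ) : ℂ) * Fz f z x
    with hg
  set U : Set ℂ := {ζ : ℂ | 0 < ζ.re ∧ ‖ζ‖ < 1} with hU
  set Ψ : ℂ → ℂ := fun ζ =>
    Complex.exp (-((A : ℂ) * ((R : ℂ) * ζ ^ (μ : ℂ)) - ((d * R / 5 : ℝ) : ℂ) * (ζ + ζ ^ 3))) *
      g ((R : ℂ) * ζ ^ (μ : ℂ)) with hΨ
  have hgdiff : Differentiable ℂ g := by
    have : ∀ x, Differentiable ℂ (fun z => Fz f z x) := fun x => Fz_differentiable f x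
    simp only [hg]
    fun_prop
  have hbdd : Bornology.IsBounded U := by
    refine (Metric.isBounded_ball (x := (0:ℂ)) (r := 1)).subset ?_
    rintro ζ ⟨_, h2⟩
    simpa using h2
  have hdc : DiffContOnCl ℂ Ψ U := by
    constructor
    · intro ζ hζ
      have hsl : ζ ∈ Complex.slitPlane := Or.inl hζ.1
      have h1 : DifferentiableAt ℂ (fun ζ : ℂ => ζ ^ (μ : ℂ)) ζ :=
        DifferentiableAt.cpow_const differentiableAt_id hsl
      refine DifferentiableAt.differentiableWithinAt ?_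
      simp only [hΨ]
      refine DifferentiableAt.mul ?_ ?_
      · fun_prop
      · exact (hgdiff _).comp ζ (h1.const_mul _)
    · intro ζ hζ
      have hζ' := closure_half hζ
      have h1 : ContinuousAt (fun ζ : ℂ => ζ ^ (μ : ℂ)) ζ :=
        Complex.continuousAt_cpow_const_of_re_pos (Or.inl hζ'.1) (by simpa using hμpos)
      refine ContinuousAt.continuousWithinAt ?_
      simp only [hΨ]
      refine ContinuousAt.mul ?_ ?_
      · fun_prop
      · have h2 : ContinuousAt (fun ζ : ℂ => (R : ℂ) * ζ ^ (μ : ℂ)) ζ := h1.const_mul _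
        have h3 : ContinuousAt g ((R : ℂ) * ζ ^ (μ : ℂ)) := hgdiff.continuous.continuousAt
        exact ContinuousAt.comp (g := g) (f := fun ζ : ℂ => (R : ℂ) * ζ ^ (μ : ℂ)) h3 h2
  -- norm of Ψ
  have hnorm : ∀ ζ : ℂ, ‖Ψ ζ‖ = Real.exp (-(A * (R * (ζ ^ (μ : ℂ)).re) -
      d * R / 5 * (ζ.re + (ζ ^ 3).re))) * ‖g ((R : ℂ) * ζ ^ (μ : ℂ))‖ := by
    intro ζ
    simp only [hΨ]
    rw [norm_mul, Complex.norm_exp]
    congr 2
    simp only [Complex.neg_re, Complex.sub_re, Complex.re_ofReal_mul, Complex.add_re]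
  have hgle : ∀ z : ℂ, ‖g z‖ ≤ Real.sqrt (en α (Fz f z)) * Real.sqrt S1 := fun z =>
    cs_weight α _ _
  have hbound : ∀ ζ ∈ frontier U, ‖Ψ ζ‖ ≤ Real.sqrt S0 * Real.sqrt S1 := by
    intro ζ hζ
    obtain ⟨hre, hle, hor⟩ := frontier_half hζ
    rw [hnorm]
    by_cases hζ0 : ζ = 0
    · subst hζ0
      have h0 : (0 : ℂ) ^ (μ : ℂ) = 0 := Complex.zero_cpow (by exact_mod_cast hμpos.ne')
      rw [h0]
      have h1 := hgle ((R : ℂ) * 0)
      have h2 : en α (Fz f ((R : ℂ) * 0)) = S0 := by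
        rw [mul_zero]
        unfold en
        rw [hS0]
        refine Finset.sum_congr rfl fun x _ => ?_
        rw [Fz_zero, Complex.norm_real, Real.norm_eq_abs, sq_abs]
      rw [h2] at h1
      simpa using h1
    · -- polar form
      have hzeq : (R : ℂ) * ζ ^ (μ : ℂ) = ((R * ‖ζ‖ ^ μ : ℝ) : ℂ) *
          Complex.exp (((μ * ζ.arg : ℝ) : ℂ) * Complex.I) := by
        rw [cpow_polar hζ0]; push_cast; ring
      have harg : |ζ.arg| ≤ Real.pi / 2 := Complex.abs_arg_le_pi_div_two_iff.mpr hre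
      have hc1 := hcos ζ.arg harg
      have hc0 : 0 < Real.cos (μ * ζ.arg) := lt_of_lt_of_le (by positivity) hc1
      set r := R * ‖ζ‖ ^ μ with hr
      have hr0 : 0 ≤ r := by positivity
      have hre2 : R * (ζ ^ (μ : ℂ)).re = r * Real.cos (μ * ζ.arg) := by
        rw [cpow_polar hζ0, Complex.re_ofReal_mul, Complex.exp_ofReal_mul_I_re, hr]
        ring
      rw [hre2]
      -- near estimate
      have hnear : ‖g ((R : ℂ) * ζ ^ (μ : ℂ))‖ ≤
          Real.exp (A * (r * Real.cos (μ * ζ.arg))) * (Real.sqrt S0 * Real.sqrt S1) := by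
        refine (hgle _).trans ?_
        rw [hzeq]
        have h1 := cone_bound hpos hcl f (θ := μ * ζ.arg) hr0 hc0
        have h2 : L * r / Real.cos (μ * ζ.arg) ≤ A * (r * Real.cos (μ * ζ.arg)) := by
          rw [div_le_iff₀ hc0]
          have h3 : L * r ≤ L * r * (4 * ℓ ^ 2 * (Real.cos (μ * ζ.arg)) ^ 2) := by
            have h4 : 1 ≤ 4 * ℓ ^ 2 * (Real.cos (μ * ζ.arg)) ^ 2 := by
              have h5 : 1 ≤ 2 * ℓ * Real.cos (μ * ζ.arg) := by
                have := mul_le_mul_of_nonneg_left hc1 (show (0:ℝ) ≤ 2 * ℓ by positivity)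
                rwa [mul_one_div_cancel (by positivity)] at this
              nlinarith
            exact le_mul_of_one_le_right (by positivity) h4
          calc L * r ≤ L * r * (4 * ℓ ^ 2 * (Real.cos (μ * ζ.arg)) ^ 2) := h3
            _ = _ := by rw [hA]; ring
        calc Real.sqrt (en α (Fz f ((r : ℂ) * Complex.exp (((μ * ζ.arg : ℝ) : ℂ) * Complex.I)))) *
              Real.sqrt S1
            ≤ (Real.exp (L * r / Real.cos (μ * ζ.arg)) * Real.sqrt S0) * Real.sqrt S1 :=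
              mul_le_mul_of_nonneg_right h1 (Real.sqrt_nonneg _)
          _ ≤ (Real.exp (A * (r * Real.cos (μ * ζ.arg))) * Real.sqrt S0) * Real.sqrt S1 := by
              refine mul_le_mul_of_nonneg_right (mul_le_mul_of_nonneg_right ?_
                (Real.sqrt_nonneg _)) (Real.sqrt_nonneg _)
              exact Real.exp_le_exp.mpr h2
          _ = _ := by ring
      have hfin : ∀ q : ℝ, q ≤ 0 →
          Real.exp (-(A * (r * Real.cos (μ * ζ.arg)) - d * R / 5 * q)) *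
            ‖g ((R : ℂ) * ζ ^ (μ : ℂ))‖ ≤ Real.sqrt S0 * Real.sqrt S1 := by
        intro q hq
        calc Real.exp (-(A * (r * Real.cos (μ * ζ.arg)) - d * R / 5 * q)) *
            ‖g ((R : ℂ) * ζ ^ (μ : ℂ))‖
            ≤ Real.exp (-(A * (r * Real.cos (μ * ζ.arg)))) *
            (Real.exp (A * (r * Real.cos (μ * ζ.arg))) * (Real.sqrt S0 * Real.sqrt S1)) := by
              refine mul_le_mul (Real.exp_le_exp.mpr ?_) hnear (norm_nonneg _) (Real.exp_pos _).le
              have : d * R / 5 * q ≤ 0 := mul_nonpos_of_nonneg_of_nonpos (by positivity) hq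
              linarith
          _ = Real.sqrt S0 * Real.sqrt S1 := by
              rw [← mul_assoc, ← Real.exp_add, neg_add_cancel, Real.exp_zero, one_mul]
      have hcube : (ζ ^ 3).re = ζ.re ^ 3 - 3 * ζ.re * ζ.im ^ 2 := by
        rw [pow_succ, pow_two]
        simp only [Complex.mul_re, Complex.mul_im]
        ring
      rcases hor with h0 | h1
      · -- imaginary axis
        rw [hcube, h0]
        refine hfin _ ?_
        norm_num
      · have himsq : ζ.im ^ 2 = 1 - ζ.re ^ 2 := by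
          have := Complex.normSq_eq_norm_sq ζ
          rw [h1, Complex.normSq_apply] at this
          nlinarith
        have hx1 : ζ.re ≤ 1 := by
          calc ζ.re ≤ ‖ζ‖ := Complex.re_le_norm ζ
            _ = 1 := h1
        have hq : ζ.re + (ζ ^ 3).re = 2 * ζ.re * (2 * ζ.re ^ 2 - 1) := by
          rw [hcube, himsq]; ring
        rw [hq]
        by_cases hx : 2 * ζ.re ^ 2 ≤ 1
        · refine hfin _ ?_
          exact mul_nonpos_of_nonneg_of_nonpos (by linarith) (by linarith)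
        · push Not at hx
          -- far region
          have hr1 : r = R := by rw [hr, h1, Real.one_rpow, mul_one]
          have hcosre : ζ.re = Real.cos ζ.arg := by
            rw [Complex.cos_arg hζ0, h1, div_one]
          have hcge : ζ.re ≤ Real.cos (μ * ζ.arg) := by
            rw [hcosre, ← Real.cos_abs (μ * ζ.arg), ← Real.cos_abs ζ.arg]
            refine Real.cos_le_cos_of_nonneg_of_le_pi (abs_nonneg _) ?_ ?_
            · linarith [Real.pi_pos]
            · rw [abs_mul, abs_of_pos hμpos]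
              exact mul_le_of_le_one_left (abs_nonneg _) hμ1.le
          have hc7 : (7 / 10 : ℝ) ≤ ζ.re := by nlinarith
          have hz2 : ((R : ℂ) * ζ ^ (μ : ℂ)).re = R * Real.cos (μ * ζ.arg) := by
            rw [Complex.re_ofReal_mul, hre2, hr1]
          have h2 := far_bound hα0 hα1 hf (z := (R : ℂ) * ζ ^ (μ : ℂ)) (by
            rw [hz2]; exact mul_nonneg hR0.le hc0.le)
          rw [hz2] at h2
          calc Real.exp (-(A * (r * Real.cos (μ * ζ.arg)) -
                d * R / 5 * (2 * ζ.re * (2 * ζ.re ^ 2 - 1)))) * ‖g ((R : ℂ) * ζ ^ (μ : ℂ))‖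
              ≤ Real.exp (2 * (d * R / 5)) * ((Real.exp (-(d * (R * Real.cos (μ * ζ.arg))) +
                  d * R / 4) * Real.sqrt S0) * Real.sqrt S1) := by
                refine mul_le_mul (Real.exp_le_exp.mpr ?_) ?_ (norm_nonneg _) (Real.exp_pos _).le
                · have e1 : 0 ≤ A * (r * Real.cos (μ * ζ.arg)) := by positivity
                  have e2 : 2 * ζ.re * (2 * ζ.re ^ 2 - 1) ≤ 2 := by nlinarith
                  have e3 : d * R / 5 * (2 * ζ.re * (2 * ζ.re ^ 2 - 1)) ≤ d * R / 5 * 2 :=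
                    mul_le_mul_of_nonneg_left e2 (by positivity)
                  linarith
                · exact (hgle _).trans (mul_le_mul_of_nonneg_right h2 (Real.sqrt_nonneg _))
            _ = Real.exp (2 * (d * R / 5) + (-(d * (R * Real.cos (μ * ζ.arg))) + d * R / 4)) *
                (Real.sqrt S0 * Real.sqrt S1) := by
                rw [Real.exp_add (2 * (d * R / 5))]; ring
            _ ≤ 1 * (Real.sqrt S0 * Real.sqrt S1) := by
                refine mul_le_mul_of_nonneg_right ?_ (by positivity)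
                rw [Real.exp_le_one_iff]
                have e4 : (7 / 10 : ℝ) ≤ Real.cos (μ * ζ.arg) := hc7.trans hcge
                have e5 : d * (R * (7 / 10)) ≤ d * (R * Real.cos (μ * ζ.arg)) :=
                  mul_le_mul_of_nonneg_left (mul_le_mul_of_nonneg_left e4 hR0.le) (by positivity)
                have e6 : 0 ≤ (d : ℝ) * R := by positivity
                nlinarith
            _ = _ := one_mul _
  -- evaluate at the point corresponding to t
  set κ : ℝ := 1 / μ with hκ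
  set s : ℝ := (t / R) ^ κ with hs
  have htR : t / R < 1 := by
    rw [div_lt_one hR0]
    have : (1 : ℝ) < Real.exp 1 := by simp
    nlinarith
  have htR0 : 0 < t / R := by positivity
  have hs0 : 0 < s := Real.rpow_pos_of_pos htR0 _
  have hs1 : s < 1 := Real.rpow_lt_one htR0.le htR (by positivity)
  have hsμ : s ^ μ = t / R := by
    rw [hs, ← Real.rpow_mul htR0.le, hκ, one_div_mul_cancel hμpos.ne', Real.rpow_one]
  have hsU : (s : ℂ) ∈ closure U := by
    refine subset_closure ⟨?_, ?_⟩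
    · simpa using hs0
    · rw [Complex.norm_real, Real.norm_of_nonneg hs0.le]; exact hs1
  have hmax := Complex.norm_le_of_forall_mem_frontier_norm_le hbdd hdc hbound hsU
  have hcpow : ((s : ℝ) : ℂ) ^ (μ : ℂ) = ((t / R : ℝ) : ℂ) := by
    rw [← Complex.ofReal_cpow hs0.le, hsμ]
  have hRt : (R : ℂ) * ((t / R : ℝ) : ℂ) = (t : ℂ) := by
    rw [← Complex.ofReal_mul]
    congr 1
    field_simp
  rw [hnorm, hcpow, hRt] at hmax
  have hgt : g (t : ℂ) = (S1 : ℂ) := by
    simp only [hg, hS1]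
    push_cast
    refine Finset.sum_congr rfl fun x _ => ?_
    rw [Fz_real]; ring
  rw [hgt, Complex.norm_real, Real.norm_of_nonneg hS10] at hmax
  have hs3 : ((((s : ℝ) : ℂ)) ^ 3).re = s ^ 3 := by
    rw [← Complex.ofReal_pow, Complex.ofReal_re]
  rw [hs3, Complex.ofReal_re, Complex.ofReal_re] at hmax
  -- exponent estimate
  have hsge : 7 / 20 * (t / R) ≤ s := by
    have h1 : s = (t / R) * (t / R) ^ (κ - 1) := by
      rw [hs]
      conv_lhs => rw [show κ = 1 + (κ - 1) by ring]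
      rw [Real.rpow_add htR0, Real.rpow_one]
    have h2 : κ - 1 = 1 / (2 * ℓ - 1) := by
      rw [hκ, hμ]
      have : (2 * ℓ - 1) ≠ 0 := by linarith
      have : (1 - 1 / (2 * ℓ)) ≠ 0 := by rw [← hμ]; exact hμpos.ne'
      field_simp
      ring
    have h3 : (t / R) ^ (κ - 1) = Real.exp (-(ℓ / (2 * ℓ - 1))) := by
      rw [Real.rpow_def_of_pos htR0]
      congr 1
      rw [h2]
      have : Real.log (t / R) = -ℓ := by
        rw [hℓ, ← Real.log_inv, inv_div]
      rw [this]; ring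
    have h4 : Real.exp (-1) ≤ (t / R) ^ (κ - 1) := by
      rw [h3]
      refine Real.exp_le_exp.mpr ?_
      have : ℓ / (2 * ℓ - 1) ≤ 1 := by
        rw [div_le_one (by linarith)]; linarith
      linarith
    have h5 : (7 / 20 : ℝ) ≤ Real.exp (-1) := by
      rw [Real.exp_neg]
      rw [le_inv_comm₀ (by norm_num) (Real.exp_pos _)]
      have := Real.exp_one_lt_d9
      norm_num
      linarith
    rw [h1]
    calc 7 / 20 * (t / R) = (t / R) * (7 / 20) := by ring
      _ ≤ _ := mul_le_mul_of_nonneg_left (h5.trans h4) htR0.le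
  have hexp : A * (R * (t / R)) - d * R / 5 * (s + s ^ 3) ≤ -(3 / 100 * d * t) := by
    have e1 : R * (t / R) = t := by field_simp
    rw [e1]
    have e2 : A ≤ d / 25 := by
      rw [hA]
      have : 100 * L * ℓ ^ 2 ≤ d := hL
      nlinarith
    have e3 : 0 ≤ s ^ 3 := by positivity
    have e4 : d * R / 5 * (7 / 20 * (t / R)) ≤ d * R / 5 * s :=
      mul_le_mul_of_nonneg_left hsge (by positivity)
    have e5 : d * R / 5 * (7 / 20 * (t / R)) = 7 / 100 * d * t := by
      field_simp; ring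
    have e6 : 0 ≤ d * R / 5 * s ^ 3 := by positivity
    have e7 : A * t ≤ d / 25 * t := mul_le_mul_of_nonneg_right e2 ht.le
    nlinarith
  have h1 : S1 ≤ Real.exp (-(3 / 100 * d * t)) * (Real.sqrt S0 * Real.sqrt S1) := by
    have h2 : Real.exp (-(A * (R * (t / R)) - d * R / 5 * (s + s ^ 3))) ≥
        Real.exp (3 / 100 * d * t) := Real.exp_le_exp.mpr (by linarith)
    have h3 : Real.exp (3 / 100 * d * t) * S1 ≤ Real.sqrt S0 * Real.sqrt S1 :=
      (mul_le_mul_of_nonneg_right h2 hS10).trans hmax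
    calc S1 = Real.exp (-(3 / 100 * d * t)) * (Real.exp (3 / 100 * d * t) * S1) := by
          rw [← mul_assoc, ← Real.exp_add, neg_add_cancel, Real.exp_zero, one_mul]
      _ ≤ _ := mul_le_mul_of_nonneg_left h3 (Real.exp_pos _).le
  have h2 : Real.sqrt S1 ≤ Real.exp (-(3 / 100 * d * t)) * Real.sqrt S0 := by
    by_cases hz : S1 = 0
    · rw [hz, Real.sqrt_zero]; positivity
    · have hpos1 : 0 < Real.sqrt S1 := Real.sqrt_pos.mpr (lt_of_le_of_ne hS10 (Ne.symm hz))
      have h3 : Real.sqrt S1 * Real.sqrt S1 ≤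
          (Real.exp (-(3 / 100 * d * t)) * Real.sqrt S0) * Real.sqrt S1 := by
        rw [Real.mul_self_sqrt hS10]
        calc S1 ≤ _ := h1
          _ = _ := by ring
      exact le_of_mul_le_mul_right h3 hpos1
  calc S1 = (Real.sqrt S1) ^ 2 := (Real.sq_sqrt hS10).symm
    _ ≤ (Real.exp (-(3 / 100 * d * t)) * Real.sqrt S0) ^ 2 :=
        pow_le_pow_left₀ (Real.sqrt_nonneg _) h2 2
    _ = Real.exp (-(3 / 50 * d * t)) * S0 := by
        rw [mul_pow, Real.sq_sqrt hS00, ← Real.exp_nat_mul]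
        congr 2
        push_cast; ring

end Pool.Agent.H81.HS
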